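import Pool.Agent.R713.Defs

/-!
# Leonard pairs and triples given by explicit matrices
-/

set_option autoImplicit false

namespace Pool.Agent.R713

open Module Matrix

section

variable {K : Type*} [Field K] {n : ℕ}

/-- the basis of `K^n` formed by the columns of an invertible matrix `P` (with inverse `Q`) -/
noncomputable def colBasis (P Q : Matrix (Fin n) (Fin n) K) (h : P * Q = 1) :
    Basis (Fin n) K (Fin n → K) :=
  (Pi.basisFun K (Fin n)).map
    (Matrix.toLin'OfInv (M := Q) (M' := P) (mul_eq_one_comm.1 h) h)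

theorem toMatrix_colBasis (P Q : Matrix (Fin n) (Fin n) K) (h : P * Q = 1)
    (M : Matrix (Fin n) (Fin n) K) :
    LinearMap.toMatrix (colBasis P Q h) (colBasis P Q h) (Matrix.toLin' M) = Q * M * P := by
  have e1 : ∀ j, colBasis P Q h j = P *ᵥ Pi.single j 1 := fun j => by
    simp [colBasis, Matrix.toLin'OfInv]
  have e2 : ∀ x i, (colBasis P Q h).repr x i = (Q *ᵥ x) i := fun x i => by
    simp [colBasis, Matrix.toLin'OfInv]
  ext i j
  rw [LinearMap.toMatrix_apply, e2, e1, Matrix.toLin'_apply, Matrix.mulVec_mulVec,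
    Matrix.mulVec_mulVec, Matrix.mulVec_single_one, Matrix.col_apply, mul_assoc]

theorem DiagTridiag.of_matrix (hn : 0 < n) (MA MB P Q : Matrix (Fin n) (Fin n) K) (h : P * Q = 1)
    (hA : (Q * MA * P).IsDiag) (hB : IrrTridiag (Q * MB * P)) :
    DiagTridiag (Matrix.toLin' MA) (Matrix.toLin' MB) :=
  ⟨n, hn, colBasis P Q h, by rw [toMatrix_colBasis]; exact hA, by rw [toMatrix_colBasis]; exact hB⟩

theorem DiagTridiag₂.of_matrix (hn : 0 < n) (MA MB MC P Q : Matrix (Fin n) (Fin n) K)
    (h : P * Q = 1) (hA : (Q * MA * P).IsDiag) (hB : IrrTridiag (Q * MB * P))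
    (hC : IrrTridiag (Q * MC * P)) :
    DiagTridiag₂ (Matrix.toLin' MA) (Matrix.toLin' MB) (Matrix.toLin' MC) :=
  ⟨n, hn, colBasis P Q h, by rw [toMatrix_colBasis]; exact hA, by rw [toMatrix_colBasis]; exact hB,
    by rw [toMatrix_colBasis]; exact hC⟩

/-- a basis in which a diagonal matrix with distinct entries is diagonal is, up to scalars, a
permutation of the standard basis -/
theorem perm_of_diag (θ : Fin n → K) (hθ : Function.Injective θ) (b : Basis (Fin n) K (Fin n → K))
    (hA : (LinearMap.toMatrix b b (Matrix.toLin' (Matrix.diagonal θ))).IsDiag) :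
    ∃ (σ : Equiv.Perm (Fin n)) (c : Fin n → K), (∀ i, c i ≠ 0) ∧
      ∀ i, b i = c i • Pi.single (σ i) 1 := by
  have key : ∀ i, ∃ (k : Fin n) (c : K), c ≠ 0 ∧ b i = c • Pi.single k 1 := by
    intro i
    -- `b i` is an eigenvector
    obtain ⟨α, hα⟩ : ∃ α : K, Matrix.toLin' (Matrix.diagonal θ) (b i) = α • b i := by
      refine ⟨LinearMap.toMatrix b b (Matrix.toLin' (Matrix.diagonal θ)) i i, ?_⟩
      conv_lhs => rw [← b.sum_repr (Matrix.toLin' (Matrix.diagonal θ) (b i))]
      rw [Finset.sum_eq_single i]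
      · rw [LinearMap.toMatrix_apply]
      · intro j _ hj
        have : LinearMap.toMatrix b b (Matrix.toLin' (Matrix.diagonal θ)) j i = 0 := hA hj
        rw [LinearMap.toMatrix_apply] at this
        rw [this, zero_smul]
      · intro h'
        exact absurd (Finset.mem_univ i) h'
    have hcoord : ∀ k, (θ k - α) * b i k = 0 := by
      intro k
      have := congrFun hα k
      rw [Matrix.toLin'_apply, Matrix.mulVec_diagonal, Pi.smul_apply, smul_eq_mul] at this
      rw [sub_mul, this, sub_self]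
    have hne : ∃ k, b i k ≠ 0 := by
      by_contra hcon
      push Not at hcon
      exact b.ne_zero i (funext hcon)
    obtain ⟨k, hk⟩ := hne
    have hαk : θ k = α := by
      rcases mul_eq_zero.1 (hcoord k) with h1 | h1
      · exact sub_eq_zero.1 h1
      · exact absurd h1 hk
    refine ⟨k, b i k, hk, ?_⟩
    funext l
    rw [Pi.smul_apply, smul_eq_mul]
    by_cases hl : l = k
    · subst hl
      simp
    · rw [Pi.single_eq_of_ne hl, mul_zero]
      rcases mul_eq_zero.1 (hcoord l) with h1 | h1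
      · exact absurd (hθ ((sub_eq_zero.1 h1).trans hαk.symm)) hl
      · exact h1
  choose s c hc hb using key
  have hs : Function.Injective s := by
    intro i j hij
    by_contra hne
    have h1 : c j • b i = c i • b j := by
      rw [hb i, hb j, hij, smul_smul, smul_smul, mul_comm]
    have h2 := congrArg (fun x => b.repr x i) h1
    simp only [map_smul, Finsupp.smul_apply, Basis.repr_self, smul_eq_mul,
      Finsupp.single_eq_same] at h2
    rw [Finsupp.single_eq_of_ne (hne), mul_one, mul_zero] at h2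
    exact hc j h2
  exact ⟨Equiv.ofBijective s (Finite.injective_iff_bijective.1 hs), c, hc, hb⟩

theorem toMatrix_perm (b : Basis (Fin n) K (Fin n → K)) (σ : Equiv.Perm (Fin n)) (c : Fin n → K)
    (hc : ∀ i, c i ≠ 0) (hb : ∀ i, b i = c i • Pi.single (σ i) 1)
    (M : Matrix (Fin n) (Fin n) K) (i j : Fin n) :
    LinearMap.toMatrix b b (Matrix.toLin' M) i j = (c i)⁻¹ * M (σ i) (σ j) * c j := by
  rw [LinearMap.toMatrix_apply]
  have hrepr : ∀ (x : Fin n → K), b.repr x i = (c i)⁻¹ * x (σ i) := by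
    intro x
    have h1 : x = ∑ k, ((c k)⁻¹ * x (σ k)) • b k := by
      funext l
      rw [Finset.sum_apply, Finset.sum_eq_single (σ.symm l)]
      · rw [hb, Pi.smul_apply, Pi.smul_apply, Equiv.apply_symm_apply, Pi.single_eq_same, smul_eq_mul,
          smul_eq_mul, mul_one, mul_comm, ← mul_assoc, mul_inv_cancel₀ (hc _), one_mul]
      · intro k _ hk
        rw [hb, Pi.smul_apply, Pi.smul_apply, Pi.single_eq_of_ne, smul_zero, smul_zero]
        intro h'
        exact hk (by rw [h', Equiv.symm_apply_apply])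
      · intro h'
        exact absurd (Finset.mem_univ _) h'
    conv_lhs => rw [h1]
    rw [Basis.repr_sum_self]
  rw [hrepr, hb j, map_smul, Pi.smul_apply, smul_eq_mul, Matrix.toLin'_apply]
  simp only [Matrix.mulVec_single, MulOpposite.op_one, one_smul, Matrix.col_apply]
  ring

/-- what it means for `diag θ, MB, MC` to be simultaneously diagonal / irreducible tridiagonal -/
theorem DiagTridiag₂.perm (θ : Fin n → K) (hθ : Function.Injective θ)
    (MB MC : Matrix (Fin n) (Fin n) K)
    (h : DiagTridiag₂ (Matrix.toLin' (Matrix.diagonal θ)) (Matrix.toLin' MB) (Matrix.toLin' MC)) :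
    ∃ σ : Equiv.Perm (Fin n), ∀ i j : Fin n,
      (((i : ℕ) + 1 < (j : ℕ) ∨ (j : ℕ) + 1 < (i : ℕ)) →
        MB (σ i) (σ j) = 0 ∧ MC (σ i) (σ j) = 0) ∧
      (((i : ℕ) + 1 = (j : ℕ) ∨ (j : ℕ) + 1 = (i : ℕ)) →
        MB (σ i) (σ j) ≠ 0 ∧ MC (σ i) (σ j) ≠ 0) := by
  obtain ⟨m, hm, b, hA, hB, hC⟩ := h
  have hmn : m = n := by
    have h1 := finrank_eq_card_basis b
    rw [Fintype.card_fin, finrank_fin_fun] at h1
    exact h1.symm
  subst hmn
  obtain ⟨σ, c, hc, hb⟩ := perm_of_diag θ hθ b hA
  refine ⟨σ, fun i j => ⟨fun hij => ?_, fun hij => ?_⟩⟩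
  · have h1 := (hB i j).1 hij
    have h2 := (hC i j).1 hij
    rw [toMatrix_perm b σ c hc hb, mul_eq_zero, mul_eq_zero] at h1 h2
    have h3 := inv_ne_zero (hc i)
    have h4 := hc j
    tauto
  · have h1 := (hB i j).2 hij
    have h2 := (hC i j).2 hij
    rw [toMatrix_perm b σ c hc hb] at h1 h2
    exact ⟨fun h0 => h1 (by rw [h0]; simp), fun h0 => h2 (by rw [h0]; simp)⟩

end

end Pool.Agent.R713
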