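import Mathlib

/-!
# Leonard pairs, Leonard triples, Leonard systems: definitions
-/

set_option autoImplicit false

namespace Pool.Agent.R713

open Module

/-- A square matrix is irreducible tridiagonal: the entries `(i, j)` with `|i - j| > 1` are zero
and the entries with `|i - j| = 1` are nonzero. -/
def IrrTridiag {K : Type*} [Field K] {n : ℕ} (M : Matrix (Fin n) (Fin n) K) : Prop :=
  ∀ i j : Fin n,
    (((i : ℕ) + 1 < (j : ℕ) ∨ (j : ℕ) + 1 < (i : ℕ)) → M i j = 0) ∧
    (((i : ℕ) + 1 = (j : ℕ) ∨ (j : ℕ) + 1 = (i : ℕ)) → M i j ≠ 0)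

/-- In some basis of `V`, indexed by `0, …, n - 1` with `n > 0`, the matrix of `A` is diagonal and
the matrix of `B` is irreducible tridiagonal. -/
def DiagTridiag {K V : Type*} [Field K] [AddCommGroup V] [Module K V]
    (A B : Module.End K V) : Prop :=
  ∃ (n : ℕ) (_ : 0 < n) (b : Basis (Fin n) K V),
    (LinearMap.toMatrix b b A).IsDiag ∧ IrrTridiag (LinearMap.toMatrix b b B)

/-- Leonard pairs: `A, B` is a Leonard pair on `V` if in some basis `A` is diagonal and `B` is
irreducible tridiagonal, and in some basis `B` is diagonal and `A` is irreducible tridiagonal. -/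
def LeonardPair {K V : Type*} [Field K] [AddCommGroup V] [Module K V]
    (A B : Module.End K V) : Prop :=
  DiagTridiag A B ∧ DiagTridiag B A

/-- In some basis of `V`, indexed by `0, …, n - 1` with `n > 0`, the matrix of `A` is diagonal and
the matrices of `B` and `C` are both irreducible tridiagonal. -/
def DiagTridiag₂ {K V : Type*} [Field K] [AddCommGroup V] [Module K V]
    (A B C : Module.End K V) : Prop :=
  ∃ (n : ℕ) (_ : 0 < n) (b : Basis (Fin n) K V),
    (LinearMap.toMatrix b b A).IsDiag ∧ IrrTridiag (LinearMap.toMatrix b b B) ∧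
      IrrTridiag (LinearMap.toMatrix b b C)

/-- Leonard triples: for each of the three maps there is a basis in which this map is diagonal and
the other two are irreducible tridiagonal. -/
def LeonardTriple {K V : Type*} [Field K] [AddCommGroup V] [Module K V]
    (A B C : Module.End K V) : Prop :=
  DiagTridiag₂ A B C ∧ DiagTridiag₂ B A C ∧ DiagTridiag₂ C A B

end Pool.Agent.R713
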