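import Pool.Agent.R713.OfBases
import Pool.Agent.R713.Concrete

/-!
# Leonard pairs with a prescribed `β`; explicit bidiagonal forms
-/

set_option autoImplicit false

namespace Pool.Agent.R713

open Module Matrix

section

variable {K V : Type*} [Field K] [AddCommGroup V] [Module K V]

/-- `A, B` is a Leonard pair on a space with basis indexed by `0, …, d`, and `β + 1` is the common
value of the ratios `(θ_{i-2} - θ_{i+1}) / (θ_{i-1} - θ_i)` for `2 ≤ i ≤ d - 1`, both for the
eigenvalues `θ_i` of `A` and for those of `B`, in the orders given by the two bases. -/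
def LeonardPairBeta (d : ℕ) (A B : Module.End K V) (β : K) : Prop :=
  ∃ b c : Basis (Fin (d + 1)) K V,
    (LinearMap.toMatrix b b A).IsDiag ∧ IrrTridiag (LinearMap.toMatrix b b B) ∧
    (LinearMap.toMatrix c c B).IsDiag ∧ IrrTridiag (LinearMap.toMatrix c c A) ∧
    (∀ i0 i1 i2 i3 : Fin (d + 1), (i1 : ℕ) = i0 + 1 → (i2 : ℕ) = i0 + 2 → (i3 : ℕ) = i0 + 3 →
      LinearMap.toMatrix b b A i0 i0 - LinearMap.toMatrix b b A i3 i3 =
        (β + 1) * (LinearMap.toMatrix b b A i1 i1 - LinearMap.toMatrix b b A i2 i2)) ∧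
    (∀ i0 i1 i2 i3 : Fin (d + 1), (i1 : ℕ) = i0 + 1 → (i2 : ℕ) = i0 + 2 → (i3 : ℕ) = i0 + 3 →
      LinearMap.toMatrix c c B i0 i0 - LinearMap.toMatrix c c B i3 i3 =
        (β + 1) * (LinearMap.toMatrix c c B i1 i1 - LinearMap.toMatrix c c B i2 i2))

theorem LeonardPairBeta.leonardPair {d : ℕ} {A B : Module.End K V} {β : K}
    (h : LeonardPairBeta d A B β) : LeonardPair A B := by
  obtain ⟨b, c, h1, h2, h3, h4, -⟩ := h
  exact ⟨⟨d + 1, Nat.succ_pos d, b, h1, h2⟩, ⟨d + 1, Nat.succ_pos d, c, h3, h4⟩⟩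

theorem projB_smul {d : ℕ} (b : Basis (Fin (d + 1)) K V) (i : Fin (d + 1)) (t : K) :
    projB b i (t • b i) = t • b i := by
  rw [projB_apply, map_smul, Finsupp.smul_apply, Basis.repr_self, Finsupp.single_eq_same,
    smul_eq_mul, mul_one]

/-- a Leonard system with four bidiagonal forms (one for each of the four orders of the
eigenspaces): the products for an arbitrary bidiagonal form are among the four sequences. -/
theorem LeonardSystem.four {d : ℕ} {A B : Module.End K V} {θ θs : Fin (d + 1) → K}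
    {E Es : Fin (d + 1) → Module.End K V} (h : LeonardSystem d A B θ θs E Es)
    {e : ℕ → V} {a b l r : ℕ → K} (he : Bidiag d A B e a b l r)
    {f1 f2 f3 f4 : ℕ → V} {a1 b1 l1 r1 a2 b2 l2 r2 a3 b3 l3 r3 a4 b4 l4 r4 : ℕ → K}
    (g1 : Bidiag d A B f1 a1 b1 l1 r1) (g2 : Bidiag d A B f2 a2 b2 l2 r2)
    (g3 : Bidiag d A B f3 a3 b3 l3 r3) (g4 : Bidiag d A B f4 a4 b4 l4 r4)
    (u1 : Es 0 (f1 0) = f1 0) (v1 : E (Fin.last d) (f1 d) = f1 d)
    (u2 : Es 0 (f2 0) = f2 0) (v2 : E 0 (f2 d) = f2 d)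
    (u3 : Es (Fin.last d) (f3 0) = f3 0) (v3 : E (Fin.last d) (f3 d) = f3 d)
    (u4 : Es (Fin.last d) (f4 0) = f4 0) (v4 : E 0 (f4 d) = f4 d) :
    (∀ i < d, l i * r i = l1 i * r1 i) ∨ (∀ i < d, l i * r i = l2 i * r2 i) ∨
    (∀ i < d, l i * r i = l3 i * r3 i) ∨ (∀ i < d, l i * r i = l4 i * r4 i) := by
  have hA := h.swap.first he.rev
  simp only [Nat.sub_zero] at hA
  rcases h.first he with h1 | h1 <;> rcases hA with h2 | h2
  · right; left
    intro i hi
    exact h.revE.products he g2 h1 (by simpa using h2) u2 (by simpa using v2) i hi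
  · left
    intro i hi
    exact h.products he g1 h1 h2 u1 v1 i hi
  · right; right; right
    intro i hi
    exact h.revE.revEs.products he g4 (by simpa using h1) (by simpa using h2) (by simpa using u4)
      (by simpa using v4) i hi
  · right; right; left
    intro i hi
    exact h.revEs.products he g3 (by simpa using h1) h2 (by simpa using u3) v3 i hi

theorem colBasis_apply {n : ℕ} (P Q : Matrix (Fin n) (Fin n) K) (h : P * Q = 1) (j : Fin n) :
    colBasis P Q h j = fun i => P i j := by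
  have : colBasis P Q h j = P *ᵥ Pi.single j 1 := by
    simp [colBasis, Matrix.toLin'OfInv]
  rw [this, Matrix.mulVec_single_one]
  rfl

end

end Pool.Agent.R713
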