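import Pool.Agent.R713.Concrete

/-!
# The Krawtchouk Leonard triple `e + f, h, 3 (e + f) + 4 h` on the three dimensional `sl2`-module
-/

set_option autoImplicit false

namespace Pool.Agent.R713.Kraw

open Module Matrix Pool.Agent.R713

section

variable (K : Type*) [Field K]

/-- `e + f` on the three dimensional irreducible module -/
def MA : Matrix (Fin 3) (Fin 3) K := !![0, 2, 0; 1, 0, 1; 0, 2, 0]

/-- `h` on the three dimensional irreducible module -/
def MB : Matrix (Fin 3) (Fin 3) K := !![2, 0, 0; 0, 0, 0; 0, 0, -2]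

/-- `3 (e + f) + 4 h` -/
def MC : Matrix (Fin 3) (Fin 3) K := !![8, 6, 0; 3, 0, 3; 0, 6, -8]

theorem MC_eq : MC K = 3 • MA K + 4 • MB K := by
  ext i j
  fin_cases i <;> fin_cases j <;> simp [MA, MB, MC] <;> norm_num

def PA : Matrix (Fin 3) (Fin 3) K := !![1, 1, 1; 1, 0, -1; 1, -1, 1]
def QA : Matrix (Fin 3) (Fin 3) K := !![1/4, 1/2, 1/4; 1/2, 0, -(1/2); 1/4, -(1/2), 1/4]
def PC : Matrix (Fin 3) (Fin 3) K := !![9, 3, 1; 3, -4, -3; 1, -3, 9]
def QC : Matrix (Fin 3) (Fin 3) K :=
  !![9/100, 6/100, 1/100; 6/100, -(16/100), -(6/100); 1/100, -(6/100), 9/100]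

end

section

variable {K : Type*} [Field K] [CharZero K]

theorem tripleA : DiagTridiag₂ (Matrix.toLin' (MA K)) (Matrix.toLin' (MB K))
    (Matrix.toLin' (MC K)) := by
  refine DiagTridiag₂.of_matrix (by norm_num) _ _ _ (PA K) (QA K) ?_ ?_ ?_ ?_
  · ext i j
    fin_cases i <;> fin_cases j <;>
      simp [PA, QA, Matrix.mul_apply, Fin.sum_univ_three] <;> norm_num
  · intro i j hij
    fin_cases i <;> fin_cases j <;>
      simp [PA, QA, MA, Matrix.mul_apply, Fin.sum_univ_three] at hij ⊢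
    all_goals norm_num
  · intro i j
    fin_cases i <;> fin_cases j <;>
      simp [PA, QA, MB, Matrix.mul_apply, Fin.sum_univ_three] <;> norm_num
  · intro i j
    fin_cases i <;> fin_cases j <;>
      simp [PA, QA, MC, Matrix.mul_apply, Fin.sum_univ_three] <;> norm_num

theorem tripleB : DiagTridiag₂ (Matrix.toLin' (MB K)) (Matrix.toLin' (MA K))
    (Matrix.toLin' (MC K)) := by
  refine DiagTridiag₂.of_matrix (by norm_num) _ _ _ 1 1 (by rw [mul_one]) ?_ ?_ ?_
  · intro i j hij
    rw [one_mul, mul_one]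
    fin_cases i <;> fin_cases j <;> simp [MB] at hij ⊢
  · intro i j
    rw [one_mul, mul_one]
    fin_cases i <;> fin_cases j <;> simp [MA]
  · intro i j
    rw [one_mul, mul_one]
    fin_cases i <;> fin_cases j <;> simp [MC]

theorem tripleC : DiagTridiag₂ (Matrix.toLin' (MC K)) (Matrix.toLin' (MA K))
    (Matrix.toLin' (MB K)) := by
  refine DiagTridiag₂.of_matrix (by norm_num) _ _ _ (PC K) (QC K) ?_ ?_ ?_ ?_
  · ext i j
    fin_cases i <;> fin_cases j <;>
      simp [PC, QC, Matrix.mul_apply, Fin.sum_univ_three] <;> norm_num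
  · intro i j hij
    fin_cases i <;> fin_cases j <;>
      simp [PC, QC, MC, Matrix.mul_apply, Fin.sum_univ_three] at hij ⊢ <;> norm_num
  · intro i j
    fin_cases i <;> fin_cases j <;>
      simp [PC, QC, MA, Matrix.mul_apply, Fin.sum_univ_three] <;> norm_num
  · intro i j
    fin_cases i <;> fin_cases j <;>
      simp [PC, QC, MB, Matrix.mul_apply, Fin.sum_univ_three] <;> norm_num

theorem triple : LeonardTriple (Matrix.toLin' (MA K)) (Matrix.toLin' (MB K))
    (Matrix.toLin' (MC K)) := ⟨tripleA, tripleB, tripleC⟩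

theorem not_mem_span (q : K) : Matrix.toLin' (MA K) * Matrix.toLin' (MB K) -
    q • (Matrix.toLin' (MB K) * Matrix.toLin' (MA K)) ∉
      Submodule.span K ({1, Matrix.toLin' (MA K), Matrix.toLin' (MB K), Matrix.toLin' (MC K)} :
        Set (Module.End K (Fin 3 → K))) := by
  intro h
  simp only [Submodule.mem_span_insert, Submodule.mem_span_singleton] at h
  obtain ⟨x0, _, ⟨x1, _, ⟨x2, _, ⟨x3, rfl⟩, rfl⟩, rfl⟩, h⟩ := h
  have h10 := congrFun (DFunLike.congr_fun h (Pi.single 0 1)) 1
  have h12 := congrFun (DFunLike.congr_fun h (Pi.single 2 1)) 1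
  simp [MA, MB, MC, Matrix.toLin'_apply, Module.End.mul_apply, dotProduct,
    Fin.sum_univ_three] at h10 h12
  have h2 : (2 : K) = 0 := by linear_combination (h10 - h12) / 2
  exact two_ne_zero h2

end

end Pool.Agent.R713.Kraw
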