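import Pool.Agent.R713.Split

/-!
# Leonard systems from Leonard pairs
-/

set_option autoImplicit false

namespace Pool.Agent.R713

open Module

section

variable {K V : Type*} [Field K] [AddCommGroup V] [Module K V] {n : ℕ}

theorem diag_apply (b : Basis (Fin n) K V) (A : Module.End K V)
    (hA : (LinearMap.toMatrix b b A).IsDiag) (i : Fin n) :
    A (b i) = LinearMap.toMatrix b b A i i • b i := by
  conv_lhs => rw [← b.sum_repr (A (b i))]
  rw [Finset.sum_eq_single i]
  · rw [LinearMap.toMatrix_apply]
  · intro j _ hj
    have : LinearMap.toMatrix b b A j i = 0 := hA hj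
    rw [LinearMap.toMatrix_apply] at this
    rw [this, zero_smul]
  · intro h'
    exact absurd (Finset.mem_univ i) h'

/-- an eigenvector of an irreducible tridiagonal matrix with zero first coordinate is zero -/
theorem tridiag_eigen_zero (c : Basis (Fin n) K V) (A : Module.End K V)
    (hA : IrrTridiag (LinearMap.toMatrix c c A)) (x : V) (t : K) (hx : A x = t • x)
    (h0 : ∀ i : Fin n, (i : ℕ) = 0 → c.repr x i = 0) : x = 0 := by
  have key : ∀ k : ℕ, ∀ i : Fin n, (i : ℕ) ≤ k → c.repr x i = 0 := by
    intro k
    induction k with
    | zero => exact fun i hi => h0 i (by omega)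
    | succ k ih =>
      intro i hi
      rcases Nat.lt_or_ge k i with h1 | h1
      · -- row `k` of `A x = t x`
        have hik : (i : ℕ) = k + 1 := by omega
        have hk : k < n := by have := i.isLt; omega
        have h2 := congrArg (fun y => c.repr y ⟨k, hk⟩) hx
        have h3 : c.repr (A x) ⟨k, hk⟩ =
            ∑ j, LinearMap.toMatrix c c A ⟨k, hk⟩ j * c.repr x j := by
          have := LinearMap.toMatrix_mulVec_repr c c A x
          have h4 := congrFun this ⟨k, hk⟩
          rw [← h4]
          rfl
        simp only [map_smul, Finsupp.smul_apply, smul_eq_mul] at h2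
        rw [h3, ih ⟨k, hk⟩ le_rfl, mul_zero, Finset.sum_eq_single i] at h2
        · exact (mul_eq_zero.1 h2).resolve_left ((hA ⟨k, hk⟩ i).2 (by left; exact hik.symm))
        · intro j _ hj
          rcases Nat.lt_or_ge k j with h5 | h5
          · have h6 : (k : ℕ) + 1 < j := by
              rcases Nat.lt_or_ge (k + 1) j with h7 | h7
              · exact h7
              · exact absurd (Fin.ext (by omega)) hj
            rw [(hA ⟨k, hk⟩ j).1 (by left; exact h6), zero_mul]
          · rw [ih j h5, mul_zero]
        · intro h'
          exact absurd (Finset.mem_univ i) h'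
      · exact ih i h1
  have : c.repr x = 0 := Finsupp.ext fun i => key i i le_rfl
  simpa using this

theorem diag_injective (b c : Basis (Fin n) K V) (A : Module.End K V)
    (hA : (LinearMap.toMatrix b b A).IsDiag) (hA' : IrrTridiag (LinearMap.toMatrix c c A)) :
    Function.Injective (fun i => LinearMap.toMatrix b b A i i) := by
  intro i j hij
  by_contra hne
  simp only at hij
  have hn : 0 < n := by have := i.isLt; omega
  let z : Fin n := ⟨0, hn⟩
  have h1 := diag_apply b A hA i
  have h2 := diag_apply b A hA j
  set t := LinearMap.toMatrix b b A i i with ht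
  rw [← hij] at h2
  -- combination with zero first coordinate
  have h3 : c.repr (b j) z • b i - c.repr (b i) z • b j = 0 := by
    refine tridiag_eigen_zero c A hA' _ t ?_ ?_
    · rw [map_sub, map_smul, map_smul, h1, h2, smul_sub, smul_comm t, smul_comm t]
    · intro k hk
      have : k = z := Fin.ext hk
      rw [this]
      simp only [map_sub, map_smul, Finsupp.sub_apply, Finsupp.smul_apply, smul_eq_mul]
      ring
  have h4 := congrArg (fun y => b.repr y j) h3
  simp only [map_sub, map_smul, Finsupp.sub_apply, Finsupp.smul_apply, smul_eq_mul, map_zero,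
    Basis.repr_self, Finsupp.single_eq_same, Finsupp.zero_apply] at h4
  rw [Finsupp.single_eq_of_ne (Ne.symm hne), mul_zero, mul_one, zero_sub, neg_eq_zero] at h4
  have h5 : b i = 0 := tridiag_eigen_zero c A hA' _ t h1 (fun k hk => by
    have : k = z := Fin.ext hk
    rw [this, h4])
  exact b.ne_zero i h5

end

section

variable {K V : Type*} [Field K] [AddCommGroup V] [Module K V] {d : ℕ}

/-- the primitive idempotents attached to a basis -/
noncomputable def projB (b : Basis (Fin (d + 1)) K V) (i : Fin (d + 1)) : Module.End K V :=
  LinearMap.smulRight (b.coord i) (b i)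

theorem projB_apply (b : Basis (Fin (d + 1)) K V) (i : Fin (d + 1)) (x : V) :
    projB b i x = b.repr x i • b i := rfl

theorem primIdem_of_basis (b c : Basis (Fin (d + 1)) K V) (A : Module.End K V)
    (hA : (LinearMap.toMatrix b b A).IsDiag) (hA' : IrrTridiag (LinearMap.toMatrix c c A)) :
    PrimIdem d A (fun i => LinearMap.toMatrix b b A i i) (projB b) where
  inj := diag_injective b c A hA hA'
  eig i := by
    refine LinearMap.ext fun x => ?_
    rw [Module.End.mul_apply, projB_apply, map_smul, diag_apply b A hA, LinearMap.smul_apply,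
      projB_apply, smul_comm]
  ne i h := by
    have := DFunLike.congr_fun h (b i)
    rw [projB_apply, Basis.repr_self, Finsupp.single_eq_same, one_smul] at this
    exact b.ne_zero i this
  sum := by
    refine LinearMap.ext fun x => ?_
    rw [LinearMap.sum_apply]
    simp only [projB_apply]
    rw [b.sum_repr]
    rfl
  orth i j := by
    refine LinearMap.ext fun x => ?_
    rw [Module.End.mul_apply, projB_apply, projB_apply, map_smul, Finsupp.smul_apply,
      Basis.repr_self]
    by_cases hij : i = j
    · subst hij
      rw [Finsupp.single_eq_same, if_pos rfl, projB_apply, smul_eq_mul, mul_one]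
    · rw [Finsupp.single_eq_of_ne hij, if_neg hij, smul_zero, zero_smul]
      rfl

theorem projB_mul (b : Basis (Fin (d + 1)) K V) (A : Module.End K V) (i j : Fin (d + 1)) (x : V) :
    (projB b i * A * projB b j) x = (b.repr x j * LinearMap.toMatrix b b A i j) • b i := by
  rw [Module.End.mul_apply, Module.End.mul_apply, projB_apply, projB_apply, map_smul, map_smul,
    Finsupp.smul_apply, smul_eq_mul, LinearMap.toMatrix_apply]

theorem LeonardSystem.of_bases (b c : Basis (Fin (d + 1)) K V) (A B : Module.End K V)
    (hbA : (LinearMap.toMatrix b b A).IsDiag) (hbB : IrrTridiag (LinearMap.toMatrix b b B))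
    (hcB : (LinearMap.toMatrix c c B).IsDiag) (hcA : IrrTridiag (LinearMap.toMatrix c c A)) :
    LeonardSystem d A B (fun i => LinearMap.toMatrix b b A i i)
      (fun i => LinearMap.toMatrix c c B i i) (projB b) (projB c) where
  dim := by rw [finrank_eq_card_basis b, Fintype.card_fin]
  primA := primIdem_of_basis b c A hbA hcA
  primB := primIdem_of_basis c b B hcB hbB
  zeroE i j hij := by
    refine LinearMap.ext fun x => ?_
    rw [projB_mul, (hbB i j).1 hij, mul_zero, zero_smul]
    rfl
  neE i j hij h := by
    have := DFunLike.congr_fun h (b j)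
    rw [projB_mul, Basis.repr_self, Finsupp.single_eq_same, one_mul, LinearMap.zero_apply] at this
    exact (smul_ne_zero ((hbB i j).2 hij) (b.ne_zero i)) this
  zeroEs i j hij := by
    refine LinearMap.ext fun x => ?_
    rw [projB_mul, (hcA i j).1 hij, mul_zero, zero_smul]
    rfl
  neEs i j hij h := by
    have := DFunLike.congr_fun h (c j)
    rw [projB_mul, Basis.repr_self, Finsupp.single_eq_same, one_mul, LinearMap.zero_apply] at this
    exact (smul_ne_zero ((hcA i j).2 hij) (c.ne_zero i)) this

/-- every Leonard pair gives a Leonard system -/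
theorem LeonardPair.exists_system {A B : Module.End K V} (h : LeonardPair A B)
    (hd : finrank K V = d + 1) :
    ∃ (θ θs : Fin (d + 1) → K) (E Es : Fin (d + 1) → Module.End K V),
      LeonardSystem d A B θ θs E Es := by
  obtain ⟨⟨n, hn, b, h1, h2⟩, ⟨m, hm, c, h3, h4⟩⟩ := h
  have e1 := finrank_eq_card_basis b
  have e2 := finrank_eq_card_basis c
  rw [hd, Fintype.card_fin] at e1 e2
  subst e1
  subst e2
  exact ⟨_, _, _, _, LeonardSystem.of_bases b c A B h1 h2 h3 h4⟩

end

end Pool.Agent.R713
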