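import Mathlib

/-!
# Invariant maximal nonnegative subspaces for skew-adjoint maps, quaternionic case
-/

set_option autoImplicit false

namespace Pool.Agent.R713

open Quaternion MulOpposite Polynomial

section

variable {V : Type*} [AddCommGroup V] [Module ℍ[ℝ]ᵐᵒᵖ V]

/-- a hermitian form with quaternion values on a right quaternionic vector space -/
structure QHerm (G : V → V → ℍ[ℝ]) : Prop where
  add_right : ∀ x y z, G x (y + z) = G x y + G x z
  smul_right : ∀ x y (q : ℍ[ℝ]), G x (op q • y) = G x y * q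
  symm : ∀ x y, G y x = star (G x y)

namespace QHerm

variable {G : V → V → ℍ[ℝ]}

theorem add_left (h : QHerm G) (x y z : V) : G (x + y) z = G x z + G y z := by
  rw [h.symm z (x + y), h.add_right, star_add, ← h.symm, ← h.symm]

theorem smul_left (h : QHerm G) (x y : V) (q : ℍ[ℝ]) : G (op q • x) y = star q * G x y := by
  rw [h.symm y, h.smul_right, star_mul, ← h.symm]

theorem zero_right (h : QHerm G) (x : V) : G x 0 = 0 := by
  have := h.add_right x 0 0
  simpa using this

theorem zero_left (h : QHerm G) (x : V) : G 0 x = 0 := by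
  rw [h.symm x 0, h.zero_right, star_zero]

theorem neg_right (h : QHerm G) (x y : V) : G x (-y) = -G x y := by
  have := h.add_right x y (-y)
  rw [add_neg_cancel, h.zero_right] at this
  exact (neg_eq_of_add_eq_zero_right this.symm).symm

theorem neg_left (h : QHerm G) (x y : V) : G (-x) y = -G x y := by
  rw [h.symm y, h.neg_right, star_neg, ← h.symm]

theorem sub_right (h : QHerm G) (x y z : V) : G x (y - z) = G x y - G x z := by
  rw [sub_eq_add_neg, h.add_right, h.neg_right, sub_eq_add_neg]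

theorem sub_left (h : QHerm G) (x y z : V) : G (x - y) z = G x z - G y z := by
  rw [sub_eq_add_neg, h.add_left, h.neg_left, sub_eq_add_neg]

theorem real (h : QHerm G) (x : V) : G x x = ((G x x).re : ℍ[ℝ]) := by
  have h1 := h.symm x x
  exact (Quaternion.star_eq_self.1 h1.symm)

/-- the orthogonal complement of a vector, in `R` -/
def perp (h : QHerm G) (x : V) : Submodule ℍ[ℝ]ᵐᵒᵖ V where
  carrier := {y | G x y = 0}
  add_mem' {a b} ha hb := by
    change G x (a + b) = 0
    rw [h.add_right, show G x a = 0 from ha, show G x b = 0 from hb, add_zero]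
  zero_mem' := h.zero_right x
  smul_mem' q a ha := by
    change G x (q • a) = 0
    have : q • a = op (unop q) • a := by rw [op_unop]
    rw [this, h.smul_right, show G x a = 0 from ha, zero_mul]

theorem mem_perp (h : QHerm G) (x y : V) : y ∈ h.perp x ↔ G x y = 0 := Iff.rfl

end QHerm

/-- nonnegative subspaces -/
def QNonneg (G : V → V → ℍ[ℝ]) (M : Submodule ℍ[ℝ]ᵐᵒᵖ V) : Prop := ∀ x ∈ M, 0 ≤ (G x x).re

theorem QHerm.re_smul {G : V → V → ℍ[ℝ]} (h : QHerm G) (x : V) (q : ℍ[ℝ]) :
    (G (op q • x) (op q • x)).re = normSq q * (G x x).re := by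
  have e : G (op q • x) (op q • x) = ((normSq q * (G x x).re : ℝ) : ℍ[ℝ]) := by
    rw [h.smul_left, h.smul_right]
    conv_lhs => rw [h.real x]
    rw [Quaternion.coe_commutes, ← mul_assoc, Quaternion.star_mul_self, Quaternion.coe_mul]
  rw [e]
  exact Quaternion.re_coe _

/-- Cauchy-Schwarz: a neutral vector of a nonnegative subspace is orthogonal to it -/
theorem QHerm.cs {G : V → V → ℍ[ℝ]} (h : QHerm G) {M : Submodule ℍ[ℝ]ᵐᵒᵖ V} (hM : QNonneg G M)
    {x m : V} (hx : x ∈ M) (hm : m ∈ M) (h0 : (G x x).re = 0) : G x m = 0 := by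
  by_contra hne
  have hpos : 0 < normSq (G x m) := by
    rcases (Quaternion.normSq_nonneg (a := G x m)).lt_or_eq with h1 | h1
    · exact h1
    · exact absurd (Quaternion.normSq_eq_zero.1 h1.symm) hne
  have key : ∀ t : ℝ, 0 ≤ (G m m).re - 2 * t * normSq (G x m) := by
    intro t
    have h1 := hM (m - op ((t : ℍ[ℝ]) * G x m) • x) (M.sub_mem hm (M.smul_mem _ hx))
    rw [h.sub_left, h.sub_right, h.sub_right, h.smul_left, h.smul_right, h.smul_left,
      h.smul_right, h.real x, h0, h.symm x m] at h1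
    have e1 : (star (G x m) * ((t : ℍ[ℝ]) * G x m)).re = t * normSq (G x m) := by
      rw [← mul_assoc, ← Quaternion.coe_commutes, mul_assoc, Quaternion.star_mul_self]
      simp
    have e2 : (star ((t : ℍ[ℝ]) * G x m) * G x m).re = t * normSq (G x m) := by
      rw [star_mul, Quaternion.star_coe, mul_assoc, Quaternion.coe_commutes, ← mul_assoc,
        Quaternion.star_mul_self]
      simp [mul_comm]
    simp only [Quaternion.re_sub, e1, e2] at h1
    simp at h1
    linarith
  have := key (((G m m).re + 1) / (2 * normSq (G x m)))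
  have e : 2 * (((G m m).re + 1) / (2 * normSq (G x m))) * normSq (G x m) = (G m m).re + 1 := by
    field_simp
  linarith

end

section eigen

variable {V : Type*} [AddCommGroup V] [Module ℍ[ℝ]ᵐᵒᵖ V] [Module ℝ V] [IsScalarTower ℝ ℍ[ℝ]ᵐᵒᵖ V]

theorem op_real_smul (r : ℝ) (v : V) : op (r : ℍ[ℝ]) • v = r • v := by
  have : op (r : ℍ[ℝ]) = r • (1 : ℍ[ℝ]ᵐᵒᵖ) := by
    rw [← op_one, ← op_smul]
    congr 1
    ext <;> simp
  rw [this, smul_assoc, one_smul]

/-- `A` as a real linear map -/
noncomputable def toR (A : V →ₗ[ℍ[ℝ]ᵐᵒᵖ] V) : Module.End ℝ V := A.restrictScalars ℝ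

theorem toR_apply (A : V →ₗ[ℍ[ℝ]ᵐᵒᵖ] V) (x : V) : toR A x = A x := rfl

theorem aeval_mem (A : V →ₗ[ℍ[ℝ]ᵐᵒᵖ] V) (R : Submodule ℍ[ℝ]ᵐᵒᵖ V) (hR : ∀ x ∈ R, A x ∈ R)
    (p : ℝ[X]) : ∀ x ∈ R, aeval (toR A) p x ∈ R := by
  induction p using Polynomial.induction_on' with
  | add p q hp hq =>
    intro x hx
    rw [map_add, LinearMap.add_apply]
    exact R.add_mem (hp x hx) (hq x hx)
  | monomial n a =>
    intro x hx
    rw [aeval_monomial, Module.algebraMap_end_eq_smul_id]
    have h1 : ∀ n : ℕ, ((toR A) ^ n) x ∈ R := by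
      intro n
      induction n with
      | zero => simpa using hx
      | succ n ih =>
        rw [pow_succ']
        exact hR _ ih
    change a • ((toR A) ^ n) x ∈ R
    rw [← op_real_smul]
    exact R.smul_mem _ (h1 n)

/-- an eigenvector modulo `N` -/
theorem exists_eigen [FiniteDimensional ℝ V] (A : V →ₗ[ℍ[ℝ]ᵐᵒᵖ] V) (N R : Submodule ℍ[ℝ]ᵐᵒᵖ V)
    (hR : ∀ x ∈ R, A x ∈ R) {y0 : V} (hy0 : y0 ∈ R) (hy0N : y0 ∉ N) :
    ∃ x ∈ R, x ∉ N ∧ ∃ q : ℍ[ℝ], A x - op q • x ∈ N := by
  classical
  have hex : ∃ k : ℕ, ∃ p : ℝ[X], p ≠ 0 ∧ p.natDegree = k ∧ ∃ y ∈ R, y ∉ N ∧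
      aeval (toR A) p y ∈ N := by
    refine ⟨_, (toR A).charpoly, (LinearMap.charpoly_monic _).ne_zero, rfl, y0, hy0, hy0N, ?_⟩
    rw [LinearMap.aeval_self_charpoly, LinearMap.zero_apply]
    exact N.zero_mem
  obtain ⟨p, hp0, hpk, y, hyR, hyN, hpy⟩ := Nat.find_spec hex
  have hmin : ∀ q : ℝ[X], q ≠ 0 → ∀ z ∈ R, z ∉ N → aeval (toR A) q z ∈ N →
      p.natDegree ≤ q.natDegree := by
    intro q hq z hz hzN hqz
    rw [hpk]
    exact Nat.find_min' hex ⟨q, hq, rfl, z, hz, hzN, hqz⟩
  have hirr : Irreducible p := by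
    constructor
    · intro hu
      obtain ⟨c, hc, hcp⟩ := Polynomial.isUnit_iff.1 hu
      rw [← hcp, aeval_C, Module.algebraMap_end_apply] at hpy
      apply hyN
      have h1 := N.smul_mem (op ((c⁻¹ : ℝ) : ℍ[ℝ])) hpy
      rw [op_real_smul, smul_smul, inv_mul_cancel₀ hc.ne_zero, one_smul] at h1
      exact h1
    · intro a b hab
      have ha0 : a ≠ 0 := fun h => hp0 (by rw [hab, h, zero_mul])
      have hb0 : b ≠ 0 := fun h => hp0 (by rw [hab, h, mul_zero])
      have hdeg : p.natDegree = a.natDegree + b.natDegree := by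
        rw [hab, natDegree_mul ha0 hb0]
      by_cases hb : aeval (toR A) b y ∈ N
      · left
        have := hmin b hb0 y hyR hyN hb
        rw [Polynomial.isUnit_iff_degree_eq_zero, degree_eq_natDegree ha0]
        have h0 : a.natDegree = 0 := by omega
        rw [h0]
        rfl
      · right
        have h1 : aeval (toR A) a (aeval (toR A) b y) ∈ N := by
          rw [← Module.End.mul_apply, ← map_mul, ← hab]
          exact hpy
        have := hmin a ha0 _ (aeval_mem A R hR b y hyR) hb h1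
        rw [Polynomial.isUnit_iff_degree_eq_zero, degree_eq_natDegree hb0]
        have h0 : b.natDegree = 0 := by omega
        rw [h0]
        rfl
  have hdeg := hirr.natDegree_le_two
  -- write out the polynomial
  have hexp : aeval (toR A) p y = p.coeff 2 • A (A y) + p.coeff 1 • A y + p.coeff 0 • y := by
    have h1 : p = C (p.coeff 2) * X ^ 2 + C (p.coeff 1) * X + C (p.coeff 0) := by
      ext n
      rcases n with _ | _ | _ | n
      · simp
      · simp [coeff_X, coeff_C]
      · simp [coeff_X, coeff_C]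
      · rw [coeff_eq_zero_of_natDegree_lt (by omega)]
        simp [coeff_X, coeff_C]
    conv_lhs => rw [h1]
    simp only [map_add, map_mul, aeval_C, aeval_X, map_pow, LinearMap.add_apply,
      Module.End.mul_apply, Module.algebraMap_end_apply, pow_two]
    rfl
  rw [hexp] at hpy
  by_cases h2 : p.coeff 2 = 0
  · have h1 : p.coeff 1 ≠ 0 := by
      intro h1
      apply hirr.not_isUnit
      rw [Polynomial.isUnit_iff]
      refine ⟨p.coeff 0, ?_, ?_⟩
      · rw [isUnit_iff_ne_zero]
        intro h0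
        apply hp0
        ext n
        rcases n with _ | _ | _ | n
        · simpa using h0
        · simpa using h1
        · simpa using h2
        · rw [coeff_eq_zero_of_natDegree_lt (by omega)]
          simp
      · ext n
        rcases n with _ | _ | _ | n
        · simp
        · simp [h1, coeff_C]
        · simp [h2, coeff_C]
        · have h5 : p.coeff (n + 1 + 1 + 1) = 0 := coeff_eq_zero_of_natDegree_lt (by omega)
          rw [h5, coeff_C_succ]
    refine ⟨y, hyR, hyN, ((-(p.coeff 0 / p.coeff 1) : ℝ) : ℍ[ℝ]), ?_⟩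
    rw [op_real_smul]
    have h3 := N.smul_mem (op (((p.coeff 1)⁻¹ : ℝ) : ℍ[ℝ])) hpy
    rw [op_real_smul, h2, zero_smul, zero_add, smul_add, smul_smul, smul_smul,
      inv_mul_cancel₀ h1, one_smul] at h3
    have h4 : A y - -(p.coeff 0 / p.coeff 1) • y = A y + ((p.coeff 1)⁻¹ * p.coeff 0) • y := by
      rw [neg_smul, sub_neg_eq_add, div_eq_inv_mul]
    rw [h4]
    exact h3
  · set b := p.coeff 1 / p.coeff 2 with hb
    set c := p.coeff 0 / p.coeff 2 with hc
    have h3 : A (A y) + b • A y + c • y ∈ N := by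
      have h3 := N.smul_mem (op (((p.coeff 2)⁻¹ : ℝ) : ℍ[ℝ])) hpy
      rw [op_real_smul, smul_add, smul_add, smul_smul, smul_smul, smul_smul,
        inv_mul_cancel₀ h2, one_smul] at h3
      rw [hb, hc, div_eq_inv_mul, div_eq_inv_mul]
      exact h3
    obtain ⟨s, hs⟩ := IsAlgClosed.exists_pow_nat_eq ((b : ℂ) ^ 2 - 4 * c) (n := 2) two_pos
    let z : ℂ := (-b + s) / 2
    let z' : ℂ := (-b - s) / 2
    have e1 : z' + z = ((-b : ℝ) : ℂ) := by
      simp only [z, z']
      push_cast
      ring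
    have e2 : z' * z = ((c : ℝ) : ℂ) := by
      simp only [z, z']
      linear_combination (-1/4 : ℂ) * hs
    have f1 : (z' : ℍ[ℝ]) + (z : ℍ[ℝ]) = ((-b : ℝ) : ℍ[ℝ]) := by
      rw [← Quaternion.coeComplex_add, e1, Quaternion.coeComplex_coe]
    have f2 : (z' : ℍ[ℝ]) * (z : ℍ[ℝ]) = ((c : ℝ) : ℍ[ℝ]) := by
      rw [← Quaternion.coeComplex_mul, e2, Quaternion.coeComplex_coe]
    by_cases hx : A y - op (z' : ℍ[ℝ]) • y ∈ N
    · exact ⟨y, hyR, hyN, _, hx⟩
    · refine ⟨A y - op (z' : ℍ[ℝ]) • y, R.sub_mem (hR _ hyR) (R.smul_mem _ hyR), hx,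
        (z : ℍ[ℝ]), ?_⟩
      have : A (A y - op (z' : ℍ[ℝ]) • y) - op (z : ℍ[ℝ]) • (A y - op (z' : ℍ[ℝ]) • y) =
          A (A y) + b • A y + c • y := by
        rw [map_sub, map_smul, smul_sub, smul_smul, ← op_mul, f2, op_real_smul]
        have g1 : op (z' : ℍ[ℝ]) • A y + op (z : ℍ[ℝ]) • A y = -(b • A y) := by
          rw [← add_smul, ← op_add, f1, op_real_smul, neg_smul]
        calc A (A y) - op (z' : ℍ[ℝ]) • A y - (op (z : ℍ[ℝ]) • A y - c • y)
            = A (A y) - (op (z' : ℍ[ℝ]) • A y + op (z : ℍ[ℝ]) • A y) + c • y := by abel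
          _ = A (A y) + b • A y + c • y := by rw [g1, sub_neg_eq_add]
      rw [this]
      exact h3

end eigen

section main

variable {V : Type*} [AddCommGroup V] [Module ℍ[ℝ]ᵐᵒᵖ V] [Module ℝ V] [IsScalarTower ℝ ℍ[ℝ]ᵐᵒᵖ V]
  [FiniteDimensional ℝ V] [Module.Finite ℍ[ℝ]ᵐᵒᵖ V]

theorem extend_aux {G : V → V → ℍ[ℝ]} (h : QHerm G) (A : V →ₗ[ℍ[ℝ]ᵐᵒᵖ] V)
    (hA : ∀ x y, G (A x) y = -G x (A y)) (k : ℕ) :
    ∀ N R : Submodule ℍ[ℝ]ᵐᵒᵖ V, N ≤ R → (∀ x ∈ N, A x ∈ N) → (∀ x ∈ R, A x ∈ R) →
      (∀ x ∈ N, ∀ y ∈ R, G x y = 0) →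
      Module.finrank ℍ[ℝ]ᵐᵒᵖ R ≤ Module.finrank ℍ[ℝ]ᵐᵒᵖ N + k →
      ∃ L : Submodule ℍ[ℝ]ᵐᵒᵖ V, N ≤ L ∧ L ≤ R ∧ (∀ x ∈ L, A x ∈ L) ∧ QNonneg G L ∧
        ∀ M : Submodule ℍ[ℝ]ᵐᵒᵖ V, L ≤ M → M ≤ R → QNonneg G M → M = L := by
  induction k with
  | zero =>
    intro N R hNR hN hR hort hk
    have hNR' : N = R := Submodule.eq_of_le_of_finrank_le hNR (by simpa using hk)
    subst hNR'
    refine ⟨N, le_rfl, le_rfl, hN, fun x hx => ?_, fun M h1 h2 _ => le_antisymm h2 h1⟩
    rw [hort x hx x hx]
    simp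
  | succ k ih =>
    intro N R hNR hN hR hort hk
    by_cases hRN : R ≤ N
    · have hNR' : N = R := le_antisymm hNR hRN
      subst hNR'
      refine ⟨N, le_rfl, le_rfl, hN, fun x hx => ?_, fun M h1 h2 _ => le_antisymm h2 h1⟩
      rw [hort x hx x hx]
      simp
    obtain ⟨y0, hy0, hy0N⟩ := Set.not_subset.1 hRN
    obtain ⟨x, hxR, hxN, q, hxq⟩ := exists_eigen A N R hR hy0 hy0N
    have hort' : ∀ a ∈ R, ∀ b ∈ N, G a b = 0 := fun a ha b hb => by
      rw [h.symm b a, hort b hb a ha, star_zero]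
    -- the part of `R` orthogonal to `x` is invariant
    have hperp : ∀ y ∈ R ⊓ h.perp x, A y ∈ R ⊓ h.perp x := by
      rintro y ⟨hyR, hyx⟩
      refine ⟨hR y hyR, ?_⟩
      change G x (A y) = 0
      have h1 : G (A x) y = 0 := by
        have h2 : G (A x - op q • x) y = 0 := hort _ hxq y hyR
        rw [h.sub_left, h.smul_left, (show G x y = 0 from hyx), mul_zero, sub_zero] at h2
        exact h2
      rw [hA, neg_eq_zero] at h1
      exact h1
    have hNperp : N ≤ R ⊓ h.perp x := fun n hn => ⟨hNR hn, hort' x hxR n hn⟩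
    by_cases hx0 : (G x x).re = 0
    · -- `x` is neutral
      have hx00 : G x x = 0 := by rw [h.real x, hx0]; simp
      let N1 := N ⊔ Submodule.span ℍ[ℝ]ᵐᵒᵖ {x}
      have hN1 : ∀ z, z ∈ N1 ↔ ∃ n ∈ N, ∃ r : ℍ[ℝ], z = n + op r • x := by
        intro z
        constructor
        · intro hz
          obtain ⟨n, hn, s, hs, rfl⟩ := Submodule.mem_sup.1 hz
          obtain ⟨r, rfl⟩ := Submodule.mem_span_singleton.1 hs
          exact ⟨n, hn, unop r, by rw [op_unop]⟩
        · rintro ⟨n, hn, r, rfl⟩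
          exact Submodule.add_mem_sup hn (Submodule.smul_mem _ _ (Submodule.mem_span_singleton_self x))
      have hlt : N < N1 := by
        refine lt_of_le_of_ne le_sup_left fun heq => hxN ?_
        rw [heq]
        exact (le_sup_right : _ ≤ N1) (Submodule.mem_span_singleton_self x)
      have hfin := Submodule.finrank_lt_finrank_of_lt hlt
      have hle : Module.finrank ℍ[ℝ]ᵐᵒᵖ (R ⊓ h.perp x : Submodule ℍ[ℝ]ᵐᵒᵖ V) ≤
          Module.finrank ℍ[ℝ]ᵐᵒᵖ R := Submodule.finrank_mono inf_le_left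
      obtain ⟨L, h1, h2, h3, h4, h5⟩ := ih N1 (R ⊓ h.perp x) (by
          intro z hz
          obtain ⟨n, hn, r, rfl⟩ := (hN1 z).1 hz
          refine Submodule.add_mem _ (hNperp hn) (Submodule.smul_mem _ _ ⟨hxR, hx00⟩))
        (by
          intro z hz
          obtain ⟨n, hn, r, rfl⟩ := (hN1 z).1 hz
          rw [hN1]
          refine ⟨A n + op r • (A x - op q • x), N.add_mem (hN n hn) (N.smul_mem _ hxq), q * r, ?_⟩
          rw [map_add, map_smul, smul_sub, op_mul, ← smul_smul]
          abel)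
        hperp
        (by
          intro z hz y hy
          obtain ⟨n, hn, r, rfl⟩ := (hN1 z).1 hz
          rw [h.add_left, h.smul_left, hort n hn y hy.1, (show G x y = 0 from hy.2), mul_zero,
            add_zero])
        (by omega)
      refine ⟨L, le_sup_left.trans h1, h2.trans inf_le_left, h3, h4, fun M hM1 hM2 hM3 => ?_⟩
      refine h5 M hM1 (le_inf hM2 fun m hm => ?_) hM3
      have hxM : x ∈ M := hM1 (h1 ((le_sup_right : _ ≤ N1) (Submodule.mem_span_singleton_self x)))
      exact h.cs hM3 hxM hm hx0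
    · -- `x` is definite
      have hx0' : G x x ≠ 0 := fun h0 => hx0 (by rw [h0]; simp)
      have hlt : R ⊓ h.perp x < R := by
        refine lt_of_le_of_ne inf_le_left fun heq => ?_
        have : x ∈ R ⊓ h.perp x := by rw [heq]; exact hxR
        exact hx0' this.2
      have hfin := Submodule.finrank_lt_finrank_of_lt hlt
      obtain ⟨L, h1, h2, h3, h4, h5⟩ := ih N (R ⊓ h.perp x) hNperp hN hperp
        (fun a ha b hb => hort a ha b hb.1) (by omega)
      -- decomposition of a vector
      have hdec : ∀ m : V, G x (m - op ((G x x)⁻¹ * G x m) • x) = 0 := by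
        intro m
        rw [h.sub_right, h.smul_right, ← mul_assoc, mul_inv_cancel₀ hx0', one_mul, sub_self]
      have hexpand : ∀ (l : V) (r : ℍ[ℝ]), G x l = 0 →
          (G (l + op r • x) (l + op r • x)).re = (G l l).re + normSq r * (G x x).re := by
        intro l r hl
        have hl' : G l x = 0 := by rw [h.symm x l, hl, star_zero]
        rw [h.add_left, h.add_right, h.add_right, h.smul_right, h.smul_left, hl', hl, zero_mul,
          mul_zero, add_zero, zero_add, Quaternion.re_add, h.re_smul]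
      rcases lt_or_gt_of_ne hx0 with hneg | hpos
      · -- negative
        refine ⟨L, h1, h2.trans inf_le_left, h3, h4, fun M hM1 hM2 hM3 => ?_⟩
        -- the projection of `M`
        let M' : Submodule ℍ[ℝ]ᵐᵒᵖ V :=
          { carrier := {z | G x z = 0 ∧ ∃ m ∈ M, ∃ r : ℍ[ℝ], m = z + op r • x}
            add_mem' := by
              rintro a b ⟨ha0, m, hm, r, hr⟩ ⟨hb0, m', hm', r', hr'⟩
              refine ⟨by rw [h.add_right, ha0, hb0, add_zero], m + m', M.add_mem hm hm', r + r', ?_⟩
              rw [hr, hr', op_add, add_smul]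
              abel
            zero_mem' := ⟨h.zero_right x, 0, M.zero_mem, 0, by simp⟩
            smul_mem' := by
              rintro c a ⟨ha0, m, hm, r, hr⟩
              refine ⟨?_, c • m, M.smul_mem _ hm, r * unop c, ?_⟩
              · have : c • a = op (unop c) • a := by rw [op_unop]
                rw [this, h.smul_right, ha0, zero_mul]
              · rw [hr, smul_add, op_mul, op_unop, smul_smul] }
        have hM'R : M' ≤ R ⊓ h.perp x := by
          rintro z ⟨hz0, m, hm, r, hr⟩
          refine ⟨?_, hz0⟩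
          have : z = m - op r • x := by rw [hr]; abel
          rw [this]
          exact R.sub_mem (hM2 hm) (R.smul_mem _ hxR)
        have hM'n : QNonneg G M' := by
          rintro z ⟨hz0, m, hm, r, hr⟩
          have h6 := hM3 m hm
          rw [hr, hexpand z r hz0] at h6
          have h7 : normSq r * (G x x).re ≤ 0 :=
            mul_nonpos_of_nonneg_of_nonpos (Quaternion.normSq_nonneg) hneg.le
          linarith
        have hM'L : M' = L := h5 M' (fun l hl => ⟨(h2 hl).2, l, hM1 hl, 0, by simp⟩) hM'R hM'n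
        refine le_antisymm (fun m hm => ?_) hM1
        have hz : m - op ((G x x)⁻¹ * G x m) • x ∈ L := by
          rw [← hM'L]
          exact ⟨hdec m, m, hm, _, by rw [sub_add_cancel]⟩
        set r := (G x x)⁻¹ * G x m with hr
        have hrx : op r • x ∈ M := by
          have : op r • x = m - (m - op r • x) := by abel
          rw [this]
          exact M.sub_mem hm (hM1 hz)
        have h8 := hM3 _ hrx
        rw [h.re_smul] at h8
        have hr0 : r = 0 := by
          by_contra hr0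
          have : 0 < normSq r := lt_of_le_of_ne Quaternion.normSq_nonneg
            fun h => hr0 (Quaternion.normSq_eq_zero.1 h.symm)
          nlinarith
        rw [hr0] at hz
        simpa using hz
      · -- positive
        let L1 := L ⊔ Submodule.span ℍ[ℝ]ᵐᵒᵖ {x}
        have hL1 : ∀ z, z ∈ L1 ↔ ∃ n ∈ L, ∃ r : ℍ[ℝ], z = n + op r • x := by
          intro z
          constructor
          · intro hz
            obtain ⟨n, hn, s, hs, rfl⟩ := Submodule.mem_sup.1 hz
            obtain ⟨r, rfl⟩ := Submodule.mem_span_singleton.1 hs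
            exact ⟨n, hn, unop r, by rw [op_unop]⟩
          · rintro ⟨n, hn, r, rfl⟩
            exact Submodule.add_mem_sup hn
              (Submodule.smul_mem _ _ (Submodule.mem_span_singleton_self x))
        refine ⟨L1, h1.trans le_sup_left, ?_, ?_, ?_, fun M hM1 hM2 hM3 => ?_⟩
        · refine sup_le (h2.trans inf_le_left) ?_
          rw [Submodule.span_singleton_le_iff_mem]
          exact hxR
        · intro z hz
          obtain ⟨n, hn, r, rfl⟩ := (hL1 z).1 hz
          rw [hL1]
          refine ⟨A n + op r • (A x - op q • x), L.add_mem (h3 n hn) (L.smul_mem _ (h1 hxq)),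
            q * r, ?_⟩
          rw [map_add, map_smul, smul_sub, op_mul, ← smul_smul]
          abel
        · intro z hz
          obtain ⟨n, hn, r, rfl⟩ := (hL1 z).1 hz
          rw [hexpand n r (h2 hn).2]
          have := h4 n hn
          have h7 : 0 ≤ normSq r * (G x x).re := mul_nonneg (Quaternion.normSq_nonneg) hpos.le
          linarith
        · have hxM : x ∈ M := hM1 ((le_sup_right : _ ≤ L1) (Submodule.mem_span_singleton_self x))
          have hML : M ⊓ h.perp x = L := by
            refine h5 _ (le_inf (le_sup_left.trans hM1) fun l hl => (h2 hl).2)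
              (le_inf (inf_le_left.trans hM2) inf_le_right) fun z hz => hM3 z hz.1
          refine le_antisymm (fun m hm => ?_) hM1
          rw [hL1]
          refine ⟨m - op ((G x x)⁻¹ * G x m) • x, ?_, (G x x)⁻¹ * G x m, by rw [sub_add_cancel]⟩
          rw [← hML]
          exact ⟨M.sub_mem hm (M.smul_mem _ hxM), hdec m⟩

/-- an invariant neutral subspace extends to an invariant maximal nonnegative subspace -/
theorem extend_nonneg {G : V → V → ℍ[ℝ]} (h : QHerm G) (A : V →ₗ[ℍ[ℝ]ᵐᵒᵖ] V)
    (hA : ∀ x y, G (A x) y = -G x (A y)) (N : Submodule ℍ[ℝ]ᵐᵒᵖ V) (hN : ∀ x ∈ N, A x ∈ N)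
    (hneu : ∀ x ∈ N, ∀ y ∈ N, G x y = 0) :
    ∃ L : Submodule ℍ[ℝ]ᵐᵒᵖ V, N ≤ L ∧ (∀ x ∈ L, A x ∈ L) ∧ QNonneg G L ∧
      ∀ M : Submodule ℍ[ℝ]ᵐᵒᵖ V, L ≤ M → QNonneg G M → M = L := by
  -- the orthogonal complement of `N`
  let R : Submodule ℍ[ℝ]ᵐᵒᵖ V :=
    { carrier := {y | ∀ x ∈ N, G x y = 0}
      add_mem' := by
        intro a b ha hb x hx
        rw [h.add_right, ha x hx, hb x hx, add_zero]
      zero_mem' := fun x _ => h.zero_right x
      smul_mem' := by
        intro c a ha x hx
        have : c • a = op (unop c) • a := by rw [op_unop]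
        rw [this, h.smul_right, ha x hx, zero_mul] }
  obtain ⟨L, h1, h2, h3, h4, h5⟩ := extend_aux h A hA (Module.finrank ℍ[ℝ]ᵐᵒᵖ R) N R
    (fun y hy x hx => hneu x hx y hy) hN
    (fun y hy x hx => by
      have := hy (A x) (hN x hx)
      rw [hA, neg_eq_zero] at this
      exact this)
    (fun x hx y hy => hy x hx) (by omega)
  refine ⟨L, h1, h3, h4, fun M hM1 hM2 => h5 M hM1 (fun m hm x hx => ?_) hM2⟩
  exact h.cs hM2 (hM1 (h1 hx)) hm (by rw [hneu x hx x hx]; simp)

end main

end Pool.Agent.R713
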