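import Pool.Agent.R713.Sl2

/-!
# Irreducible modules for the equitable basis of `sl₂` and bidiagonal forms
-/

set_option autoImplicit false

namespace Pool.Agent.R713

open Module Polynomial

section

variable {K V : Type*} [Field K] [AddCommGroup V] [Module K V]

/-- the data of an irreducible module, in a bidiagonal basis -/
theorem sl2_bidiag' [CharZero K] {d : ℕ} {x y z : Module.End K V}
    (hE : EquitableSl2 x y z) (hI : Irr3 x y z)
    {A B : Module.End K V} {θ θs : Fin (d + 1) → K} {E Es : Fin (d + 1) → Module.End K V}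
    (h : LeonardSystem d A B θ θs E Es) (a₀ a₁ a₂ a₃ b₀ b₁ b₂ b₃ : K)
    (hA : A = a₀ • 1 + a₁ • x + a₂ • y + a₃ • (x * y))
    (hB : B = b₀ • 1 + b₁ • y + b₂ • z + b₃ • (y * z)) :
    ∃ e : ℕ → V,
      Bidiag d A B e
        (fun i => a₀ + (a₂ - a₁) * ((d : K) - 2 * i) - a₃ * ((d : K) - 2 * i) ^ 2)
        (fun i => b₀ + (b₁ - b₂) * ((d : K) - 2 * i) - b₃ * ((d : K) - 2 * i) ^ 2)
        (fun i => a₁ + a₃ * ((d : K) - 2 * i))
        (fun i => -4 * ((i : K) + 1) * ((d : K) - i) * (b₂ + b₃ * ((d : K) - 2 * i))) ∧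
      (∀ i ≤ d, e i ≠ 0) ∧ e (d + 1) = 0 ∧
      (∀ i : ℕ, y (e i) = ((d : K) - 2 * i) • e i) ∧
      (∀ i : ℕ, x (e i) = e (i + 1) - ((d : K) - 2 * i) • e i) ∧
      z (e 0) = -((d : K) • e 0) ∧
      (∀ i : ℕ, z (e (i + 1)) = (-4 * ((i : K) + 1) * ((d : K) - i)) • e i -
        ((d : K) - 2 * (i + 1)) • e (i + 1)) := by
  have hfin := h.finite
  have rXY : ∀ v, x (y v) - y (x v) = (2 : K) • x v + (2 : K) • y v :=
    fun v => DFunLike.congr_fun hE.xy v
  have rYZ : ∀ v, y (z v) - z (y v) = (2 : K) • y v + (2 : K) • z v :=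
    fun v => DFunLike.congr_fun hE.yz v
  have rZX : ∀ v, z (x v) - x (z v) = (2 : K) • z v + (2 : K) • x v :=
    fun v => DFunLike.congr_fun hE.zx v
  let N : Module.End K V := x + y
  let M : Module.End K V := y + z
  have hNdef : ∀ v, N v = x v + y v := fun v => rfl
  have hMdef : ∀ v, M v = y v + z v := fun v => rfl
  have hyN : ∀ v, y (N v) = N (y v) - (2 : K) • N v := by
    intro v
    rw [hNdef, hNdef, smul_add, ← rXY v, map_add]
    abel
  have hMy : ∀ v, M (y v) = y (M v) - (2 : K) • M v := by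
    intro v
    rw [hMdef, hMdef, smul_add, ← rYZ v, map_add]
    abel
  have hMN : ∀ v, M (N v) = N (M v) - (4 : K) • y v := by
    intro v
    have h1 := rXY v
    have h2 := rYZ v
    have h3 := rZX v
    simp only [hMdef, hNdef, map_add]
    have e1 : y (x v) = x (y v) - ((2 : K) • x v + (2 : K) • y v) := by rw [← h1]; abel
    have e2 : z (y v) = y (z v) - ((2 : K) • y v + (2 : K) • z v) := by rw [← h2]; abel
    have e3 : z (x v) = x (z v) + ((2 : K) • z v + (2 : K) • x v) := by rw [← h3]; abel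
    rw [e1, e2, e3]
    module
  -- `ker M ≠ 0`
  have hkerM : LinearMap.ker M ≠ ⊥ := by
    intro h0
    obtain ⟨u, hu⟩ := (LinearMap.isUnit_iff_ker_eq_bot M).2 h0
    have h1 : M * y = y * M - (2 : K) • M := LinearMap.ext hMy
    have h2 : y = (↑u⁻¹ : Module.End K V) * (M * y) := by
      rw [← hu, ← mul_assoc, Units.inv_mul, one_mul]
    have h3 : LinearMap.trace K V y = LinearMap.trace K V y - 2 * (d + 1) := by
      conv_lhs => rw [h2, h1, mul_sub, mul_smul_comm, map_sub, map_smul, ← mul_assoc,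
        LinearMap.trace_mul_comm, ← mul_assoc, ← hu, Units.mul_inv, one_mul, Units.inv_mul,
        LinearMap.trace_one, h.dim]
      push_cast
      rfl
    have h4 : (2 : K) * (d + 1) = 0 := by linear_combination h3
    have h5 : (2 : K) ≠ 0 := two_ne_zero
    have h6 : ((d : K) + 1) ≠ 0 := by exact_mod_cast Nat.succ_ne_zero d
    exact mul_ne_zero h5 h6 h4
  have kz : ∀ v, v ∈ LinearMap.ker M → z v = - y v := by
    intro v hv
    rw [LinearMap.mem_ker, hMdef] at hv
    exact eq_neg_of_add_eq_zero_right hv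
  have kY : ∀ v ∈ LinearMap.ker M, y v ∈ LinearMap.ker M := by
    intro v hv
    rw [LinearMap.mem_ker] at hv ⊢
    rw [hMy, hv, map_zero, smul_zero, sub_zero]
  have kZ : ∀ v ∈ LinearMap.ker M, z v ∈ LinearMap.ker M := by
    intro v hv
    rw [kz v hv]
    exact Submodule.neg_mem _ (kY v hv)
  have hBv : ∀ v, B v = b₀ • v + b₁ • y v + b₂ • z v + b₃ • y (z v) := by
    intro v
    rw [hB]
    rfl
  have hAv : ∀ v, A v = a₀ • v + a₁ • x v + a₂ • y v + a₃ • x (y v) := by
    intro v
    rw [hA]
    rfl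
  obtain ⟨w, hwM, hw0, y0, hy0⟩ := h.primB.common h.dim (LinearMap.ker M) hkerM
    (by
      intro v hv
      rw [hBv]
      exact Submodule.add_mem _ (Submodule.add_mem _ (Submodule.add_mem _
        (Submodule.smul_mem _ _ hv) (Submodule.smul_mem _ _ (kY v hv)))
        (Submodule.smul_mem _ _ (kZ v hv))) (Submodule.smul_mem _ _ (kY _ (kZ v hv))))
    y (by
      intro v hv
      rw [hBv, hBv, kz _ (kY v hv), kz v hv]
      simp only [map_add, map_smul, map_neg])
  let e : ℕ → V := fun i => (N ^ i) w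
  let yy : ℕ → K := fun i => y0 - 2 * i
  have he0 : e 0 = w := by simp [e]
  have hesucc : ∀ i, e (i + 1) = N (e i) := by
    intro i
    show (N ^ (i + 1)) w = N ((N ^ i) w)
    rw [pow_succ', Module.End.mul_apply]
  have hyy : ∀ i, yy (i + 1) = yy i - 2 := by
    intro i
    show y0 - 2 * ((i + 1 : ℕ) : K) = y0 - 2 * i - 2
    push_cast
    ring
  have hyinj : Function.Injective yy := by
    intro i j hij
    have h1 : y0 - 2 * (i : K) = y0 - 2 * j := hij
    have h2 : (2 : K) * i = 2 * j := by linear_combination -h1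
    exact_mod_cast mul_left_cancel₀ (two_ne_zero : (2 : K) ≠ 0) h2
  have hYe : ∀ i, y (e i) = yy i • e i := by
    intro i
    induction i with
    | zero =>
      rw [he0, hy0]
      simp [yy]
    | succ i ih =>
      rw [hesucc, hyN, ih, map_smul, hyy]
      module
  let c : ℕ → K := fun i => -4 * i * (y0 - i + 1)
  have hcsucc : ∀ i, c (i + 1) = c i - 4 * yy i := by
    intro i
    show -4 * ((i + 1 : ℕ) : K) * (y0 - ((i + 1 : ℕ) : K) + 1) =
      -4 * i * (y0 - i + 1) - 4 * (y0 - 2 * i)
    push_cast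
    ring
  have hc0 : c 0 = 0 := by simp [c]
  have hMe0 : M (e 0) = 0 := by rw [he0]; exact hwM
  have hMe : ∀ i, M (e (i + 1)) = c (i + 1) • e i := by
    intro i
    induction i with
    | zero =>
      rw [hesucc, hMN, hMe0, map_zero, hYe, hcsucc, hc0]
      module
    | succ i ih =>
      rw [hesucc (i + 1), hMN, ih, map_smul, ← hesucc i, hYe, hcsucc (i + 1)]
      module
  have hXe : ∀ i, x (e i) = e (i + 1) - yy i • e i := by
    intro i
    rw [hesucc, hNdef, hYe]
    abel
  have hZe : ∀ i, z (e (i + 1)) = c (i + 1) • e i - yy (i + 1) • e (i + 1) := by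
    intro i
    rw [← hMe i, hMdef, hYe]
    abel
  have hZe0 : z (e 0) = - (yy 0 • e 0) := by
    have h1 := hMe0
    rw [hMdef, hYe] at h1
    exact eq_neg_of_add_eq_zero_right h1
  have hmem : ∀ i, e i ∈ Submodule.span K (Set.range e) := fun i => Submodule.subset_span ⟨i, rfl⟩
  have hspan : Submodule.span K (Set.range e) = ⊤ := by
    have hWX : ∀ v ∈ Submodule.span K (Set.range e), x v ∈ Submodule.span K (Set.range e) := by
      intro v hv
      refine Submodule.span_induction ?_ ?_ ?_ ?_ hv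
      · rintro _ ⟨i, rfl⟩
        rw [hXe]
        exact Submodule.sub_mem _ (hmem _) (Submodule.smul_mem _ _ (hmem _))
      · rw [map_zero]; exact Submodule.zero_mem _
      · intro u v _ _ hu hv
        rw [map_add]; exact Submodule.add_mem _ hu hv
      · intro t v _ hv
        rw [map_smul]; exact Submodule.smul_mem _ _ hv
    have hWY : ∀ v ∈ Submodule.span K (Set.range e), y v ∈ Submodule.span K (Set.range e) := by
      intro v hv
      refine Submodule.span_induction ?_ ?_ ?_ ?_ hv
      · rintro _ ⟨i, rfl⟩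
        rw [hYe]
        exact Submodule.smul_mem _ _ (hmem _)
      · rw [map_zero]; exact Submodule.zero_mem _
      · intro u v _ _ hu hv
        rw [map_add]; exact Submodule.add_mem _ hu hv
      · intro t v _ hv
        rw [map_smul]; exact Submodule.smul_mem _ _ hv
    have hWZ : ∀ v ∈ Submodule.span K (Set.range e), z v ∈ Submodule.span K (Set.range e) := by
      intro v hv
      refine Submodule.span_induction ?_ ?_ ?_ ?_ hv
      · rintro _ ⟨i, rfl⟩
        cases i with
        | zero => rw [hZe0]; exact Submodule.neg_mem _ (Submodule.smul_mem _ _ (hmem _))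
        | succ i =>
          rw [hZe]
          exact Submodule.sub_mem _ (Submodule.smul_mem _ _ (hmem _))
            (Submodule.smul_mem _ _ (hmem _))
      · rw [map_zero]; exact Submodule.zero_mem _
      · intro u v _ _ hu hv
        rw [map_add]; exact Submodule.add_mem _ hu hv
      · intro t v _ hv
        rw [map_smul]; exact Submodule.smul_mem _ _ hv
    rcases hI (Submodule.span K (Set.range e))
      (fun v hv => ⟨hWX v hv, hWY v hv, hWZ v hv⟩) with h1 | h1
    · exfalso
      have h2 : e 0 ∈ (⊥ : Submodule K V) := h1 ▸ hmem 0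
      rw [Submodule.mem_bot, he0] at h2
      exact hw0 h2
    · exact h1
  obtain ⟨hne, hzero⟩ := ladder h.dim y N e yy hyinj (by rw [he0]; exact hw0) hesucc hYe hspan
  have hcd : c (d + 1) = 0 := by
    have h1 := hMe d
    rw [hzero (d + 1) (by omega), map_zero] at h1
    exact (smul_eq_zero.1 h1.symm).resolve_right (hne d le_rfl)
  have hy0d : y0 = d := by
    have h1 : -4 * ((d + 1 : ℕ) : K) * (y0 - ((d + 1 : ℕ) : K) + 1) = 0 := hcd
    have h2 : ((d + 1 : ℕ) : K) ≠ 0 := by exact_mod_cast Nat.succ_ne_zero d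
    have h3 : (-4 : K) ≠ 0 := by norm_num
    have h4 := (mul_eq_zero.1 h1).resolve_left (mul_ne_zero h3 h2)
    push_cast at h4
    linear_combination h4
  have hyyd : ∀ i : ℕ, yy i = (d : K) - 2 * i := by
    intro i
    show y0 - 2 * (i : K) = _
    rw [hy0d]
  have hcd' : ∀ i : ℕ, c (i + 1) = -4 * ((i : K) + 1) * ((d : K) - i) := by
    intro i
    show -4 * ((i + 1 : ℕ) : K) * (y0 - ((i + 1 : ℕ) : K) + 1) = _
    rw [hy0d]
    push_cast
    ring
  have hAe : ∀ i : ℕ, A (e i) =
      (a₀ + (a₂ - a₁) * ((d : K) - 2 * i) - a₃ * ((d : K) - 2 * i) ^ 2) • e i +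
      (a₁ + a₃ * ((d : K) - 2 * i)) • e (i + 1) := by
    intro i
    rw [← hyyd, hAv, hYe, map_smul, hXe]
    module
  have hBe : ∀ i : ℕ, B (e (i + 1)) =
      (b₀ + (b₁ - b₂) * ((d : K) - 2 * ((i + 1 : ℕ) : K)) - b₃ * ((d : K) - 2 * ((i + 1 : ℕ) : K)) ^ 2) •
        e (i + 1) +
      (-4 * ((i : K) + 1) * ((d : K) - i) * (b₂ + b₃ * ((d : K) - 2 * i))) • e i := by
    intro i
    rw [← hyyd, ← hyyd, ← hcd', hBv, hZe, map_sub, map_smul, map_smul, hYe, hYe]
    module
  refine ⟨e, ?_, hne, hzero (d + 1) (by omega), ?_, ?_, ?_, ?_⟩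
  · exact
      { ne0 := by rw [he0]; exact hw0
        ned := hne d le_rfl
        A_lt := fun i _ => hAe i
        A_last := by
          have h1 := hAe d
          rw [hzero (d + 1) (by omega), smul_zero, add_zero] at h1
          exact h1
        B_zero := by
          have h1 : B (e 0) = (b₀ + (b₁ - b₂) * yy 0 - b₃ * yy 0 ^ 2) • e 0 := by
            rw [hBv, hZe0, hYe, map_neg, map_smul, hYe]
            module
          rw [h1, hyyd]
        B_succ := fun i _ => hBe i }
  · intro i
    rw [hYe, hyyd]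
  · intro i
    rw [hXe, hyyd]
  · rw [hZe0, hyyd]
    simp
  · intro i
    rw [hZe, hcd', hyyd]
    push_cast
    rfl

end

end Pool.Agent.R713
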