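import Pool.Agent.R713.Sys
import Pool.Agent.R713.Defs

/-!
# Bidiagonal forms of Leonard systems
-/

set_option autoImplicit false

namespace Pool.Agent.R713

open Module Polynomial

section

variable {K V : Type*} [Field K] [AddCommGroup V] [Module K V] {d : ℕ}

/-- `A` acts on `e 0, …, e d` by a lower bidiagonal and `B` by an upper bidiagonal matrix; `l i` is
the coefficient of `e (i+1)` in `A (e i)`, `r i` is the coefficient of `e i` in `B (e (i+1))`. -/
structure Bidiag (d : ℕ) (A B : Module.End K V) (e : ℕ → V) (a b l r : ℕ → K) : Prop where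
  ne0 : e 0 ≠ 0
  ned : e d ≠ 0
  A_lt : ∀ i < d, A (e i) = a i • e i + l i • e (i + 1)
  A_last : A (e d) = a d • e d
  B_zero : B (e 0) = b 0 • e 0
  B_succ : ∀ i < d, B (e (i + 1)) = b (i + 1) • e (i + 1) + r i • e i

namespace Bidiag

variable {A B : Module.End K V} {e : ℕ → V} {a b l r : ℕ → K}

theorem rev (he : Bidiag d A B e a b l r) :
    Bidiag d B A (fun i => e (d - i)) (fun i => b (d - i)) (fun i => a (d - i))
      (fun i => r (d - 1 - i)) (fun i => l (d - 1 - i)) where
  ne0 := by simpa using he.ned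
  ned := by simpa using he.ne0
  A_lt i hi := by
    have h1 := he.B_succ (d - 1 - i) (by omega)
    have h2 : d - 1 - i + 1 = d - i := by omega
    have h3 : d - 1 - i = d - (i + 1) := by omega
    rw [h2] at h1
    show B (e (d - i)) = b (d - i) • e (d - i) + r (d - 1 - i) • e (d - (i + 1))
    rw [h1, h3]
  A_last := by simpa using he.B_zero
  B_zero := by simpa using he.A_last
  B_succ i hi := by
    have h1 := he.A_lt (d - 1 - i) (by omega)
    have h2 : d - 1 - i + 1 = d - i := by omega
    have h3 : d - 1 - i = d - (i + 1) := by omega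
    rw [h2] at h1
    show A (e (d - (i + 1))) = a (d - (i + 1)) • e (d - (i + 1)) + l (d - 1 - i) • e (d - i)
    rw [← h3, h1]

end Bidiag

namespace PrimIdem

variable {A : Module.End K V} {θ : Fin (d + 1) → K} {E : Fin (d + 1) → Module.End K V}

theorem E_comm (h : PrimIdem d A θ E) (i : Fin (d + 1)) (x : V) : E i (A x) = θ i • E i x := by
  have := h.E_aeval X i x
  simpa using this

/-- an eigenvector of `A` lies in one of the `E i V` -/
theorem of_eigenvector (h : PrimIdem d A θ E) (x : V) (hx : x ≠ 0) (c : K) (hc : A x = c • x) :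
    ∃ k, θ k = c ∧ E k x = x := by
  have h1 : ∀ j, (θ j - c) • E j x = 0 := by
    intro j
    have := h.E_comm j x
    rw [hc, map_smul] at this
    rw [sub_smul, this, sub_self]
  obtain ⟨k, hk⟩ : ∃ k, E k x ≠ 0 := by
    by_contra hcon
    push Not at hcon
    exact hx (h.eq_zero x hcon)
  have hkc : θ k = c := by
    rcases smul_eq_zero.1 (h1 k) with h2 | h2
    · exact sub_eq_zero.1 h2
    · exact absurd h2 hk
  refine ⟨k, hkc, ?_⟩
  conv_rhs => rw [← h.sum_apply x]
  rw [Finset.sum_eq_single k]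
  · intro j _ hj
    rcases smul_eq_zero.1 (h1 j) with h2 | h2
    · exact absurd (h.inj ((sub_eq_zero.1 h2).trans hkc.symm)) hj
    · exact h2
  · intro h'
    exact absurd (Finset.mem_univ k) h'

end PrimIdem

namespace LeonardSystem

variable {A B : Module.End K V} {θ θs : Fin (d + 1) → K} {E Es : Fin (d + 1) → Module.End K V}
  {e : ℕ → V} {a b l r : ℕ → K}

/-- the first vector of a bidiagonal form lies in `E^*_0 V` or in `E^*_d V` -/
theorem first (h : LeonardSystem d A B θ θs E Es) (he : Bidiag d A B e a b l r) :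
    Es 0 (e 0) = e 0 ∨ Es (Fin.last d) (e 0) = e 0 := by
  have hfin := h.finite
  obtain ⟨k, hk, hke⟩ := h.primB.of_eigenvector (e 0) he.ne0 _ he.B_zero
  by_cases hk0 : k = 0
  · left
    rw [← hk0]
    exact hke
  by_cases hkd : k = Fin.last d
  · right
    rw [← hkd]
    exact hke
  exfalso
  have hk0' : 0 < (k : ℕ) := by
    rcases Nat.eq_zero_or_pos (k : ℕ) with h0 | h0
    · exact absurd (Fin.ext h0) hk0
    · exact h0
  have hkd' : (k : ℕ) < d := by
    have := k.isLt
    rcases Nat.lt_or_ge (k : ℕ) d with h0 | h0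
    · exact h0
    · exact absurd (Fin.ext (by simp; omega)) hkd
  have hd : 0 < d := by omega
  -- `(B - b 1) (B - b 0) A e 0 = 0`
  have h2 : ∀ j, (θs j - b 1) • (θs j - b 0) • Es j (A (e 0)) = 0 := by
    intro j
    rw [he.A_lt 0 hd]
    have hB1 := he.B_succ 0 hd
    have e0 : (θs j - b 0) • Es j (e 0) = 0 := by
      have := h.primB.E_comm j (e 0)
      rw [he.B_zero, map_smul] at this
      rw [sub_smul, this, sub_self]
    have e1 : (θs j - b 1) • Es j (e 1) = r 0 • Es j (e 0) := by
      have := h.primB.E_comm j (e 1)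
      rw [zero_add] at hB1
      rw [hB1, map_add, map_smul, map_smul] at this
      rw [sub_smul, ← this]
      abel
    rw [map_add, map_smul, map_smul, smul_add, smul_add]
    have t1 : (θs j - b 1) • (θs j - b 0) • a 0 • Es j (e 0) = 0 := by
      rw [smul_comm (θs j - b 0) (a 0), e0, smul_zero, smul_zero]
    have t2 : (θs j - b 1) • (θs j - b 0) • l 0 • Es j (e 1) = 0 := by
      rw [smul_comm (θs j - b 0) (l 0), smul_comm (θs j - b 1) (l 0),
        smul_comm (θs j - b 1) (θs j - b 0), e1, smul_comm (θs j - b 0) (r 0), e0, smul_zero,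
        smul_zero]
    rw [zero_add, t1, t2, add_zero]
  have h3 : ∀ j : Fin (d + 1), ((j : ℕ) + 1 = k ∨ (k : ℕ) + 1 = j) → θs j = b 1 := by
    intro j hj
    have h4 : Es j (A (e 0)) ≠ 0 := by
      rw [← hke]
      have := h.primB.ne_of_line h.dim k (Es j * A) (h.neEs j k hj) (e 0) (by rw [hke]; exact he.ne0)
      rwa [Module.End.mul_apply] at this
    have h5 := h2 j
    rcases smul_eq_zero.1 h5 with h6 | h6
    · exact sub_eq_zero.1 h6
    · rcases smul_eq_zero.1 h6 with h7 | h7
      · rw [← hk, sub_eq_zero] at h7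
        have := h.primB.inj h7
        rw [this] at hj
        omega
      · exact absurd h7 h4
  have h8 := h3 ⟨(k : ℕ) - 1, by omega⟩ (by left; simp; omega)
  have h9 := h3 ⟨(k : ℕ) + 1, by omega⟩ (by right; simp)
  have := congrArg Fin.val (h.primB.inj (h8.trans h9.symm))
  simp at this

/-- shape of a bidiagonal form that starts in `E^*_0 V` -/
theorem shape (h : LeonardSystem d A B θ θs E Es) (he : Bidiag d A B e a b l r)
    (h0 : Es 0 (e 0) = e 0) (i : ℕ) (hi : i < d + 1) :
    (∀ j : Fin (d + 1), i < j → Es j (e i) = 0) ∧ Es ⟨i, hi⟩ (e i) ≠ 0 ∧ b i = θs ⟨i, hi⟩ := by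
  have hfin := h.finite
  induction i with
  | zero =>
    have hz : (⟨0, hi⟩ : Fin (d + 1)) = 0 := rfl
    refine ⟨?_, ?_, ?_⟩
    · intro j hj
      rw [← h0, h.primB.orth_apply, if_neg]
      rintro rfl
      simp at hj
    · rw [hz, h0]
      exact he.ne0
    · have := h.primB.E_comm 0 (e 0)
      rw [he.B_zero, map_smul, h0] at this
      rw [hz]
      have h2 : (b 0 - θs 0) • e 0 = 0 := by rw [sub_smul, this, sub_self]
      rcases smul_eq_zero.1 h2 with h3 | h3
      · exact sub_eq_zero.1 h3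
      · exact absurd h3 he.ne0
  | succ i ih =>
    obtain ⟨ih1, ih2, -⟩ := ih (by omega)
    have hid : i < d := by omega
    -- `Es j A e_i` for `j > i`
    have key : ∀ j : Fin (d + 1), i < j → Es j (A (e i)) = Es j (A (Es ⟨i, by omega⟩ (e i))) := by
      intro j hj
      conv_lhs => rw [← h.primB.sum_apply (e i)]
      rw [map_sum, map_sum, Finset.sum_eq_single ⟨i, by omega⟩]
      · intro k _ hk
        rcases lt_or_gt_of_ne (fun h' => hk (Fin.ext h') : (k : ℕ) ≠ i) with h1 | h1
        · have := DFunLike.congr_fun (h.zeroEs j k (by right; omega)) (e i)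
          simpa using this
        · rw [ih1 k h1, map_zero, map_zero]
      · intro h'
        exact absurd (Finset.mem_univ _) h'
    have hA := he.A_lt i hid
    have hl : ∀ j : Fin (d + 1), i < j → Es j (A (e i)) = l i • Es j (e (i + 1)) := by
      intro j hj
      rw [hA, map_add, map_smul, map_smul, ih1 j hj, smul_zero, zero_add]
    have hne : Es ⟨i + 1, hi⟩ (A (Es ⟨i, by omega⟩ (e i))) ≠ 0 := by
      have := h.primB.ne_of_line h.dim ⟨i, by omega⟩ (Es ⟨i + 1, hi⟩ * A)
        (h.neEs _ _ (by right; rfl)) (e i) ih2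
      rwa [Module.End.mul_apply] at this
    rw [← key ⟨i + 1, hi⟩ (by simp), hl ⟨i + 1, hi⟩ (by simp)] at hne
    have hl0 : l i ≠ 0 := fun h' => hne (by rw [h', zero_smul])
    have he1 : Es ⟨i + 1, hi⟩ (e (i + 1)) ≠ 0 := fun h' => hne (by rw [h', smul_zero])
    refine ⟨?_, he1, ?_⟩
    · intro j hj
      have h1 := hl j (by omega)
      rw [key j (by omega)] at h1
      have h2 := DFunLike.congr_fun (h.zeroEs j ⟨i, by omega⟩ (by right; simpa using hj)) (e i)
      simp only [Module.End.mul_apply, LinearMap.zero_apply] at h2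
      rw [h2] at h1
      exact (smul_eq_zero.1 h1.symm).resolve_left hl0
    · have h1 := h.primB.E_comm ⟨i + 1, hi⟩ (e (i + 1))
      rw [he.B_succ i hid, map_add, map_smul, map_smul, ih1 ⟨i + 1, hi⟩ (by simp), smul_zero,
        add_zero] at h1
      have h2 : (b (i + 1) - θs ⟨i + 1, hi⟩) • Es ⟨i + 1, hi⟩ (e (i + 1)) = 0 := by
        rw [sub_smul, h1, sub_self]
      rcases smul_eq_zero.1 h2 with h3 | h3
      · exact sub_eq_zero.1 h3
      · exact absurd h3 he1

/-- the `A`-side of `shape` -/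
theorem shape' (h : LeonardSystem d A B θ θs E Es) (he : Bidiag d A B e a b l r)
    (hd : E (Fin.last d) (e d) = e d) (i : ℕ) (hi : i < d + 1) :
    (∀ j : Fin (d + 1), (j : ℕ) < i → E j (e i) = 0) ∧ E ⟨i, hi⟩ (e i) ≠ 0 ∧ a i = θ ⟨i, hi⟩ := by
  have h1 := h.swap.revEs.shape he.rev (by simpa using hd) (d - i) (by omega)
  obtain ⟨h2, h3, h4⟩ := h1
  have e1 : d - (d - i) = i := by omega
  have e2 : (⟨d - i, by omega⟩ : Fin (d + 1)).rev = ⟨i, hi⟩ := Fin.ext (by simp [Fin.val_rev]; omega)
  simp only [Function.comp_apply, e1, e2] at h2 h3 h4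
  refine ⟨?_, h3, h4⟩
  intro j hj
  have := h2 j.rev (by rw [Fin.val_rev]; omega)
  rwa [Fin.rev_rev] at this

/-- two bidiagonal forms for the same Leonard system have the same products -/
theorem products (h : LeonardSystem d A B θ θs E Es) (he : Bidiag d A B e a b l r)
    {f : ℕ → V} {a' b' l' r' : ℕ → K} (hf : Bidiag d A B f a' b' l' r')
    (he0 : Es 0 (e 0) = e 0) (hed : E (Fin.last d) (e d) = e d)
    (hf0 : Es 0 (f 0) = f 0) (hfd : E (Fin.last d) (f d) = f d) (i : ℕ) (hi : i < d) :
    l i * r i = l' i * r' i := by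
  have hfin := h.finite
  -- the vectors are proportional
  have prop : ∀ i (hi : i < d + 1), ∃ c : K, c ≠ 0 ∧ e i = c • f i := by
    intro i hi
    obtain ⟨e1, e2, -⟩ := h.shape he he0 i hi
    obtain ⟨e3, e4, -⟩ := h.shape' he hed i hi
    obtain ⟨f1, f2, -⟩ := h.shape hf hf0 i hi
    obtain ⟨f3, f4, -⟩ := h.shape' hf hfd i hi
    obtain ⟨c, hc⟩ := h.primB.smul_of_line h.dim ⟨i, hi⟩ (f i) (e i) f2
    have h0 : e i - c • f i = 0 := by
      refine h.few i (e i - c • f i) ?_ (Finset.univ.filter fun j => (j : ℕ) < i) ?_ ?_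
      · intro k hk
        rcases Nat.lt_or_ge i k with h1 | h1
        · rw [map_sub, map_smul, e1 k h1, f1 k h1, smul_zero, sub_zero]
        · have h2 : k = ⟨i, hi⟩ := Fin.ext (le_antisymm h1 hk)
          rw [h2, map_sub, map_smul, hc, sub_self]
      · have : (Finset.univ.filter fun j : Fin (d + 1) => (j : ℕ) < i) =
            Finset.Iio (⟨i, hi⟩ : Fin (d + 1)) := by
          ext j
          simp [Fin.lt_def]
        rw [this, Fin.card_Iio]
      · intro j hj
        rw [Finset.mem_filter] at hj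
        rw [map_sub, map_smul, e3 j hj.2, f3 j hj.2, smul_zero, sub_zero]
    refine ⟨c, ?_, sub_eq_zero.1 h0⟩
    rintro rfl
    rw [zero_smul] at hc
    exact e2 hc
  obtain ⟨c, hc, hec⟩ := prop i (by omega)
  obtain ⟨c', hc', hec'⟩ := prop (i + 1) (by omega)
  obtain ⟨e1, e2, -⟩ := h.shape he he0 (i + 1) (by omega)
  obtain ⟨f1, f2, -⟩ := h.shape hf hf0 (i + 1) (by omega)
  obtain ⟨e1', e2', -⟩ := h.shape he he0 i (by omega)
  obtain ⟨f1', f2', -⟩ := h.shape hf hf0 i (by omega)
  obtain ⟨g1, g2, -⟩ := h.shape' hf hfd i (by omega)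
  obtain ⟨g1', g2', -⟩ := h.shape' hf hfd (i + 1) (by omega)
  have hA := he.A_lt i hi
  have hB := he.B_succ i hi
  rw [hec, hec', map_smul, hf.A_lt i hi] at hA
  rw [hec, hec', map_smul, hf.B_succ i hi] at hB
  -- compare the components in `Es (i+1)`
  have k1 := congrArg (Es ⟨i + 1, by omega⟩) hA
  simp only [map_add, map_smul, f1' ⟨i + 1, by omega⟩ (by simp), smul_zero, zero_add] at k1
  have k1' : (c * l' i - l i * c') • Es ⟨i + 1, by omega⟩ (f (i + 1)) = 0 := by
    rw [sub_smul, mul_smul, mul_smul, k1, sub_self]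
  have k1'' : c * l' i = l i * c' := by
    rcases smul_eq_zero.1 k1' with h1 | h1
    · exact sub_eq_zero.1 h1
    · exact absurd h1 f2
  have k2 := congrArg (E ⟨i, by omega⟩) hB
  simp only [map_add, map_smul, g1' ⟨i, by omega⟩ (by simp), smul_zero, zero_add] at k2
  have k2' : (c' * r' i - r i * c) • E ⟨i, by omega⟩ (f i) = 0 := by
    rw [sub_smul, mul_smul, mul_smul, k2, sub_self]
  have k2'' : c' * r' i = r i * c := by
    rcases smul_eq_zero.1 k2' with h1 | h1
    · exact sub_eq_zero.1 h1
    · exact absurd h1 g2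
  have : c * c' * (l' i * r' i) = c * c' * (l i * r i) := by
    linear_combination (c' * r' i) * k1'' + (l i * c') * k2''
  exact (mul_left_cancel₀ (mul_ne_zero hc hc') this).symm

end LeonardSystem

end

end Pool.Agent.R713
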