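import Pool.Agent.R713.OfBases

/-!
# Split forms given by a basis; nonvanishing of the split sequence
-/

set_option autoImplicit false

namespace Pool.Agent.R713

open Module

section

variable {K V : Type*} [Field K] [AddCommGroup V] [Module K V] {d : ℕ}

/-- lower bidiagonal matrix with diagonal `θ 0, …, θ d` and subdiagonal entries `1` -/
def lowerM (d : ℕ) (θ : ℕ → K) : Matrix (Fin (d + 1)) (Fin (d + 1)) K :=
  Matrix.of fun i j => if i = j then θ i else if (i : ℕ) = j + 1 then 1 else 0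

/-- upper bidiagonal matrix with diagonal `θs 0, …, θs d` and superdiagonal `φ 1, …, φ d` -/
def upperM (d : ℕ) (θs φ : ℕ → K) : Matrix (Fin (d + 1)) (Fin (d + 1)) K :=
  Matrix.of fun i j => if i = j then θs i else if (j : ℕ) = i + 1 then φ j else 0

/-- `A, B` has parameter array `(θ_i, θ*_i; φ_i, ϕ_i)` (first split sequence `φ`, second split
sequence `ψ`) -/
def HasParameterArray (d : ℕ) (A B : Module.End K V) (θ θs φ ψ : ℕ → K) : Prop :=
  (∃ v : Basis (Fin (d + 1)) K V, LinearMap.toMatrix v v A = lowerM d θ ∧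
    LinearMap.toMatrix v v B = upperM d θs φ) ∧
  (∃ v : Basis (Fin (d + 1)) K V, LinearMap.toMatrix v v A = lowerM d (fun i => θ (d - i)) ∧
    LinearMap.toMatrix v v B = upperM d θs ψ)

/-- the vectors of a basis, extended by zero -/
noncomputable def ext0 (v : Basis (Fin (d + 1)) K V) (i : ℕ) : V :=
  if h : i < d + 1 then v ⟨i, h⟩ else 0

theorem ext0_lt (v : Basis (Fin (d + 1)) K V) (i : ℕ) (h : i < d + 1) : ext0 v i = v ⟨i, h⟩ :=
  dif_pos h

theorem ext0_ge (v : Basis (Fin (d + 1)) K V) (i : ℕ) (h : d < i) : ext0 v i = 0 :=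
  dif_neg (by omega)

theorem ext0_fin (v : Basis (Fin (d + 1)) K V) (i : Fin (d + 1)) : ext0 v i = v i :=
  dif_pos i.isLt

theorem lower_apply (v : Basis (Fin (d + 1)) K V) (A : Module.End K V) (θ : ℕ → K)
    (hA : LinearMap.toMatrix v v A = lowerM d θ) (i : ℕ) :
    i ≤ d → A (ext0 v i) = θ i • ext0 v i + ext0 v (i + 1) := by
  intro hi
  have hi' : i < d + 1 := by omega
  have h1 : A = Matrix.toLin v v (lowerM d θ) := by rw [← hA, Matrix.toLin_toMatrix]
  rw [ext0_lt v i hi', h1, Matrix.toLin_self]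
  have h2 : ∀ k : Fin (d + 1), lowerM d θ k ⟨i, hi'⟩ • v k =
      (if k = ⟨i, hi'⟩ then θ i • v ⟨i, hi'⟩ else 0) + (if (k : ℕ) = i + 1 then v k else 0) := by
    intro k
    unfold lowerM
    rw [Matrix.of_apply]
    by_cases hk : k = ⟨i, hi'⟩
    · rw [if_pos hk, if_pos hk, if_neg (by rw [hk]; simp), add_zero, hk]
    · rw [if_neg hk, if_neg hk, zero_add]
      split_ifs <;> simp
  rw [Finset.sum_congr rfl (fun k _ => h2 k), Finset.sum_add_distrib, Finset.sum_ite_eq',
    if_pos (Finset.mem_univ _)]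
  congr 1
  by_cases hd : i + 1 < d + 1
  · rw [ext0_lt v (i + 1) hd, Finset.sum_eq_single ⟨i + 1, hd⟩]
    · rw [if_pos rfl]
    · intro k _ hk
      rw [if_neg]
      intro h'
      exact hk (Fin.ext h')
    · intro h'
      exact absurd (Finset.mem_univ _) h'
  · rw [ext0_ge v (i + 1) (by omega)]
    refine Finset.sum_eq_zero fun k _ => ?_
    rw [if_neg]
    have := k.isLt
    omega

theorem upper_apply_zero (v : Basis (Fin (d + 1)) K V) (B : Module.End K V) (θs φ : ℕ → K)
    (hB : LinearMap.toMatrix v v B = upperM d θs φ) : B (ext0 v 0) = θs 0 • ext0 v 0 := by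
  have h1 : B = Matrix.toLin v v (upperM d θs φ) := by rw [← hB, Matrix.toLin_toMatrix]
  rw [ext0_lt v 0 (by omega), h1, Matrix.toLin_self, Finset.sum_eq_single ⟨0, by omega⟩]
  · unfold upperM
    rw [Matrix.of_apply, if_pos rfl]
  · intro k _ hk
    unfold upperM
    rw [Matrix.of_apply, if_neg hk, if_neg, zero_smul]
    simp
  · intro h'
    exact absurd (Finset.mem_univ _) h'

theorem upper_apply_succ (v : Basis (Fin (d + 1)) K V) (B : Module.End K V) (θs φ : ℕ → K)
    (hB : LinearMap.toMatrix v v B = upperM d θs φ) (i : ℕ) (hi : i < d) :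
    B (ext0 v (i + 1)) = θs (i + 1) • ext0 v (i + 1) + φ (i + 1) • ext0 v i := by
  have h1 : B = Matrix.toLin v v (upperM d θs φ) := by rw [← hB, Matrix.toLin_toMatrix]
  have hi' : i + 1 < d + 1 := by omega
  rw [ext0_lt v (i + 1) hi', ext0_lt v i (by omega), h1, Matrix.toLin_self]
  have h2 : ∀ k : Fin (d + 1), upperM d θs φ k ⟨i + 1, hi'⟩ • v k =
      (if k = ⟨i + 1, hi'⟩ then θs (i + 1) • v ⟨i + 1, hi'⟩ else 0) +
        (if k = ⟨i, by omega⟩ then φ (i + 1) • v ⟨i, by omega⟩ else 0) := by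
    intro k
    unfold upperM
    rw [Matrix.of_apply]
    by_cases hk : k = ⟨i + 1, hi'⟩
    · rw [if_pos hk, if_pos hk, if_neg (by rw [hk]; simp), add_zero, hk]
    · rw [if_neg hk, if_neg hk, zero_add]
      by_cases hk2 : k = ⟨i, by omega⟩
      · rw [if_pos hk2, if_pos (by rw [hk2]), hk2]
      · rw [if_neg hk2, if_neg, zero_smul]
        intro h'
        apply hk2
        apply Fin.ext
        simp only at h' ⊢
        omega
  rw [Finset.sum_congr rfl (fun k _ => h2 k), Finset.sum_add_distrib, Finset.sum_ite_eq',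
    Finset.sum_ite_eq', if_pos (Finset.mem_univ _), if_pos (Finset.mem_univ _)]

theorem ext0_ne (v : Basis (Fin (d + 1)) K V) (i : ℕ) (hi : i ≤ d) : ext0 v i ≠ 0 := by
  rw [ext0_lt v i (by omega)]
  exact v.ne_zero _

theorem bidiag_of_basis (v : Basis (Fin (d + 1)) K V) (A B : Module.End K V) (θ θs φ : ℕ → K)
    (hA : LinearMap.toMatrix v v A = lowerM d θ) (hB : LinearMap.toMatrix v v B = upperM d θs φ) :
    Bidiag d A B (ext0 v) θ θs (fun _ => 1) (fun i => φ (i + 1)) where
  ne0 := ext0_ne v 0 (by omega)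
  ned := ext0_ne v d le_rfl
  A_lt i hi := by rw [lower_apply v A θ hA i (by omega), one_smul]
  A_last := by rw [lower_apply v A θ hA d le_rfl, ext0_ge v (d + 1) (by omega), add_zero]
  B_zero := upper_apply_zero v B θs φ hB
  B_succ i hi := upper_apply_succ v B θs φ hB i hi

namespace LeonardSystem

variable {A B : Module.End K V} {θ θs : Fin (d + 1) → K} {E Es : Fin (d + 1) → Module.End K V}
  {e : ℕ → V} {a b l r : ℕ → K}

theorem l_ne_aux (h : LeonardSystem d A B θ θs E Es) (he : Bidiag d A B e a b l r)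
    (h0 : Es 0 (e 0) = e 0) (i : ℕ) (hi : i < d) : l i ≠ 0 := by
  have hfin := h.finite
  obtain ⟨s1, s2, -⟩ := h.shape he h0 i (by omega)
  intro hl
  have hA := he.A_lt i hi
  rw [hl, zero_smul, add_zero] at hA
  have key : Es ⟨i + 1, by omega⟩ (A (e i)) =
      Es ⟨i + 1, by omega⟩ (A (Es ⟨i, by omega⟩ (e i))) := by
    conv_lhs => rw [← h.primB.sum_apply (e i)]
    rw [map_sum, map_sum, Finset.sum_eq_single ⟨i, by omega⟩]
    · intro k _ hk
      rcases lt_or_gt_of_ne (fun h' => hk (Fin.ext h') : (k : ℕ) ≠ i) with h1 | h1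
      · have := DFunLike.congr_fun (h.zeroEs ⟨i + 1, by omega⟩ k (by right; simp; omega)) (e i)
        simpa using this
      · rw [s1 k h1, map_zero, map_zero]
    · intro h'
      exact absurd (Finset.mem_univ _) h'
  have hne : Es ⟨i + 1, by omega⟩ (A (Es ⟨i, by omega⟩ (e i))) ≠ 0 := by
    have := h.primB.ne_of_line h.dim ⟨i, by omega⟩ (Es ⟨i + 1, by omega⟩ * A)
      (h.neEs _ _ (by right; rfl)) (e i) s2
    rwa [Module.End.mul_apply] at this
  rw [← key, hA, map_smul, s1 ⟨i + 1, by omega⟩ (by simp), smul_zero] at hne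
  exact hne rfl

theorem l_ne (h : LeonardSystem d A B θ θs E Es) (he : Bidiag d A B e a b l r) (i : ℕ)
    (hi : i < d) : l i ≠ 0 := by
  rcases h.first he with h1 | h1
  · exact h.l_ne_aux he h1 i hi
  · exact h.revEs.l_ne_aux he (by simpa using h1) i hi

theorem r_ne (h : LeonardSystem d A B θ θs E Es) (he : Bidiag d A B e a b l r) (i : ℕ)
    (hi : i < d) : r i ≠ 0 := by
  have := h.swap.l_ne he.rev (d - 1 - i) (by omega)
  have e1 : d - 1 - (d - 1 - i) = i := by omega
  simpa [e1] using this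

end LeonardSystem

end

end Pool.Agent.R713
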