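import Mathlib

/-!
# Leonard systems: definition and first facts
-/

set_option autoImplicit false

namespace Pool.Agent.R713

open Module Polynomial

/-- `E 0, …, E d` are the primitive idempotents of `A`, and `θ 0, …, θ d` are the (mutually distinct)
eigenvalues of `A` they belong to: the `E i` are nonzero, `E i * E j = 0` for `i ≠ j`,
`E i * E i = E i`, the sum of the `E i` is the identity, and `A * E i = θ i • E i`. In a space of
dimension `d + 1` this says that `A` is multiplicity-free and that
`E i = ∏_{j ≠ i} (A - θ j) / (θ i - θ j)`. -/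
structure PrimIdem {K V : Type*} [Field K] [AddCommGroup V] [Module K V] (d : ℕ)
    (A : Module.End K V) (θ : Fin (d + 1) → K) (E : Fin (d + 1) → Module.End K V) : Prop where
  inj : Function.Injective θ
  eig : ∀ i, A * E i = θ i • E i
  ne : ∀ i, E i ≠ 0
  sum : ∑ i, E i = 1
  orth : ∀ i j, E i * E j = if i = j then E i else 0

/-- Leonard systems `(A; B; {E i}; {Es i})` (with `B` for `A^*`, `Es i` for `E^*_i`) on a vector space
`V` of dimension `d + 1`; `θ i` and `θs i` are the eigenvalue and the dual eigenvalue sequence. -/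
structure LeonardSystem {K V : Type*} [Field K] [AddCommGroup V] [Module K V] (d : ℕ)
    (A B : Module.End K V) (θ θs : Fin (d + 1) → K) (E Es : Fin (d + 1) → Module.End K V) :
    Prop where
  dim : finrank K V = d + 1
  primA : PrimIdem d A θ E
  primB : PrimIdem d B θs Es
  zeroE : ∀ i j : Fin (d + 1), ((i : ℕ) + 1 < j ∨ (j : ℕ) + 1 < i) → E i * B * E j = 0
  neE : ∀ i j : Fin (d + 1), ((i : ℕ) + 1 = j ∨ (j : ℕ) + 1 = i) → E i * B * E j ≠ 0
  zeroEs : ∀ i j : Fin (d + 1), ((i : ℕ) + 1 < j ∨ (j : ℕ) + 1 < i) → Es i * A * Es j = 0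
  neEs : ∀ i j : Fin (d + 1), ((i : ℕ) + 1 = j ∨ (j : ℕ) + 1 = i) → Es i * A * Es j ≠ 0

section

variable {K V : Type*} [Field K] [AddCommGroup V] [Module K V] {d : ℕ}

namespace PrimIdem

variable {A : Module.End K V} {θ : Fin (d + 1) → K} {E : Fin (d + 1) → Module.End K V}

theorem sum_apply (h : PrimIdem d A θ E) (x : V) : ∑ i, E i x = x := by
  have := DFunLike.congr_fun h.sum x
  simpa [LinearMap.sum_apply] using this

theorem orth_apply (h : PrimIdem d A θ E) (i j : Fin (d + 1)) (x : V) :
    E i (E j x) = if i = j then E i x else 0 := by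
  have := DFunLike.congr_fun (h.orth i j) x
  rw [Module.End.mul_apply] at this
  rw [this]
  split_ifs <;> simp

theorem self_apply (h : PrimIdem d A θ E) (i : Fin (d + 1)) (x : V) : E i (E i x) = E i x := by
  rw [h.orth_apply, if_pos rfl]

theorem eig_apply (h : PrimIdem d A θ E) (i : Fin (d + 1)) (x : V) : A (E i x) = θ i • E i x :=
  DFunLike.congr_fun (h.eig i) x

theorem rev (h : PrimIdem d A θ E) : PrimIdem d A (θ ∘ Fin.rev) (E ∘ Fin.rev) where
  inj := h.inj.comp Fin.rev_injective
  eig i := h.eig _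
  ne i := h.ne _
  sum := by
    rw [← h.sum]
    exact Fintype.sum_equiv Fin.revPerm _ _ (fun i => rfl)
  orth i j := by
    simp only [Function.comp_apply]
    rw [h.orth]
    simp only [Fin.rev_inj]

theorem eq_zero (h : PrimIdem d A θ E) (x : V) (hx : ∀ i, E i x = 0) : x = 0 := by
  rw [← h.sum_apply x]
  exact Finset.sum_eq_zero fun i _ => hx i

theorem aeval_E (h : PrimIdem d A θ E) (p : K[X]) (i : Fin (d + 1)) (x : V) :
    aeval A p (E i x) = (p.eval (θ i)) • E i x := by
  induction p using Polynomial.induction_on' with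
  | add p q hp hq => simp only [map_add, LinearMap.add_apply, hp, hq, eval_add, add_smul]
  | monomial n c =>
    rw [aeval_monomial, eval_monomial]
    have hn : (A ^ n) (E i x) = θ i ^ n • E i x := by
      induction n with
      | zero => simp
      | succ n ih =>
        rw [pow_succ', Module.End.mul_apply, ih, map_smul, h.eig_apply, smul_smul, pow_succ]
    rw [Module.End.mul_apply, hn, Module.algebraMap_end_apply, mul_smul]

theorem E_aeval (h : PrimIdem d A θ E) (p : K[X]) (i : Fin (d + 1)) (x : V) :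
    E i (aeval A p x) = (p.eval (θ i)) • E i x := by
  conv_lhs => rw [← h.sum_apply x]
  rw [map_sum, map_sum, Finset.sum_eq_single i]
  · rw [h.aeval_E, map_smul, h.self_apply]
  · intro j _ hj
    rw [h.aeval_E, map_smul, h.orth_apply, if_neg (Ne.symm hj), smul_zero]
  · intro h'
    exact absurd (Finset.mem_univ i) h'

/-- in dimension `d + 1` all ranges are lines -/
theorem line [Module.Finite K V] (h : PrimIdem d A θ E) (hd : finrank K V = d + 1)
    (i : Fin (d + 1)) : finrank K (LinearMap.range (E i)) = 1 := by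
  -- choose nonzero vectors in all ranges: they form a basis
  have hne : ∀ j, ∃ x, E j x ≠ 0 := fun j => by
    by_contra hcon
    push Not at hcon
    exact h.ne j (LinearMap.ext hcon)
  choose x hx using hne
  have hli : LinearIndependent K (fun j => E j (x j)) := by
    rw [Fintype.linearIndependent_iff]
    intro g hg j
    have h1 := congrArg (E j) hg
    rw [map_sum, Finset.sum_eq_single j, map_smul, h.self_apply, map_zero] at h1
    · exact (smul_eq_zero.1 h1).resolve_right (hx j)
    · intro k _ hk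
      rw [map_smul, h.orth_apply, if_neg (Ne.symm hk), smul_zero]
    · intro h'
      exact absurd (Finset.mem_univ j) h'
  have hcard : Fintype.card (Fin (d + 1)) = finrank K V := by rw [hd, Fintype.card_fin]
  let b := basisOfLinearIndependentOfCardEqFinrank hli hcard
  have hb : ∀ j, b j = E j (x j) := fun j => by
    simp [b]
  rw [finrank_eq_one_iff']
  refine ⟨⟨E i (x i), LinearMap.mem_range_self _ _⟩, fun h0 => hx i (congrArg Subtype.val h0),
    fun ⟨w, hw⟩ => ?_⟩
  obtain ⟨y, rfl⟩ := hw
  refine ⟨b.repr y i, Subtype.ext ?_⟩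
  show b.repr y i • E i (x i) = E i y
  conv_rhs => rw [← b.sum_repr y]
  rw [map_sum, Finset.sum_eq_single i]
  · rw [map_smul, hb, h.self_apply]
  · intro k _ hk
    rw [map_smul, hb, h.orth_apply, if_neg (Ne.symm hk), smul_zero]
  · intro h'
    exact absurd (Finset.mem_univ i) h'

/-- two vectors in the same line -/
theorem smul_of_line [Module.Finite K V] (h : PrimIdem d A θ E) (hd : finrank K V = d + 1)
    (i : Fin (d + 1)) (x y : V) (hx : E i x ≠ 0) : ∃ c : K, E i y = c • E i x := by
  have h1 := h.line hd i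
  obtain ⟨c, hc⟩ := exists_smul_eq_of_finrank_eq_one h1
    (x := (⟨E i x, LinearMap.mem_range_self _ _⟩ : LinearMap.range (E i)))
    (fun h0 => hx (congrArg Subtype.val h0)) ⟨E i y, LinearMap.mem_range_self _ _⟩
  exact ⟨c, (congrArg Subtype.val hc).symm⟩

/-- rank one maps: if `X E_i ≠ 0` then `X` is injective on the range of `E_i` -/
theorem ne_of_line [Module.Finite K V] (h : PrimIdem d A θ E) (hd : finrank K V = d + 1)
    (i : Fin (d + 1)) (X : Module.End K V) (hX : X * E i ≠ 0) (x : V) (hx : E i x ≠ 0) :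
    X (E i x) ≠ 0 := by
  intro h0
  apply hX
  refine LinearMap.ext fun y => ?_
  obtain ⟨c, hc⟩ := h.smul_of_line hd i x y hx
  rw [Module.End.mul_apply, hc, map_smul, h0, smul_zero, LinearMap.zero_apply]

theorem mul_ne [Module.Finite K V] (h : PrimIdem d A θ E) (hd : finrank K V = d + 1)
    (i : Fin (d + 1)) (X Y : Module.End K V) (hX : X * E i ≠ 0) (hY : E i * Y ≠ 0) :
    X * E i * Y ≠ 0 := by
  intro h0
  apply hY
  refine LinearMap.ext fun y => ?_
  by_contra hy
  exact h.ne_of_line hd i X hX (Y y) hy (DFunLike.congr_fun h0 y)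

end PrimIdem

namespace LeonardSystem

variable {A B : Module.End K V} {θ θs : Fin (d + 1) → K} {E Es : Fin (d + 1) → Module.End K V}

theorem swap (h : LeonardSystem d A B θ θs E Es) : LeonardSystem d B A θs θ Es E :=
  ⟨h.dim, h.primB, h.primA, h.zeroEs, h.neEs, h.zeroE, h.neE⟩

theorem revE (h : LeonardSystem d A B θ θs E Es) :
    LeonardSystem d A B (θ ∘ Fin.rev) θs (E ∘ Fin.rev) Es where
  dim := h.dim
  primA := h.primA.rev
  primB := h.primB
  zeroE i j hij := h.zeroE _ _ (by
    have := i.isLt
    have := j.isLt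
    simp only [Fin.val_rev]
    omega)
  neE i j hij := h.neE _ _ (by
    have := i.isLt
    have := j.isLt
    simp only [Fin.val_rev]
    omega)
  zeroEs := h.zeroEs
  neEs := h.neEs

theorem revEs (h : LeonardSystem d A B θ θs E Es) :
    LeonardSystem d A B θ (θs ∘ Fin.rev) E (Es ∘ Fin.rev) := h.swap.revE.swap

theorem finite (h : LeonardSystem d A B θ θs E Es) : Module.Finite K V :=
  Module.finite_of_finrank_pos (by rw [h.dim]; omega)

/-- `E^*_i A^k E^*_0 = 0` for `i > k`, and `E^*_k A^k E^*_0 ≠ 0` -/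
theorem chain (h : LeonardSystem d A B θ θs E Es) (k : ℕ) (hk : k < d + 1) :
    (∀ i : Fin (d + 1), k < i → Es i * A ^ k * Es 0 = 0) ∧ Es ⟨k, hk⟩ * A ^ k * Es 0 ≠ 0 := by
  have hfin := h.finite
  induction k with
  | zero =>
    constructor
    · intro i hi
      rw [pow_zero, mul_one, h.primB.orth, if_neg]
      intro h0
      rw [h0] at hi
      simp at hi
    · rw [pow_zero, mul_one]
      have : (⟨0, hk⟩ : Fin (d + 1)) = 0 := rfl
      rw [this, h.primB.orth, if_pos rfl]
      exact h.primB.ne 0
  | succ k ih =>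
    obtain ⟨ih1, ih2⟩ := ih (by omega)
    have key : ∀ i : Fin (d + 1), k < i →
        Es i * A ^ (k + 1) * Es 0 = Es i * A * Es ⟨k, by omega⟩ * (A ^ k * Es 0) := by
      intro i hi
      have e1 : Es i * A ^ (k + 1) * Es 0 = Es i * A * 1 * (A ^ k * Es 0) := by
        rw [pow_succ']
        noncomm_ring
      rw [e1, ← h.primB.sum, Finset.mul_sum, Finset.sum_mul, Finset.sum_eq_single ⟨k, by omega⟩]
      · intro j _ hj
        rcases lt_or_gt_of_ne (fun h' => hj (Fin.ext h') : (j : ℕ) ≠ k) with h1 | h1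
        · rw [h.zeroEs i j (by right; omega), zero_mul]
        · have h2 : Es j * (A ^ k * Es 0) = 0 := by
            rw [← mul_assoc]
            exact ih1 j h1
          rw [mul_assoc (Es i * A), h2, mul_zero]
      · intro h'
        exact absurd (Finset.mem_univ _) h'
    constructor
    · intro i hi
      rw [key i (by omega), h.zeroEs i ⟨k, by omega⟩ (by right; simpa using hi), zero_mul]
    · rw [key ⟨k + 1, hk⟩ (by simp)]
      apply h.primB.mul_ne h.dim
      · exact h.neEs _ _ (by right; rfl)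
      · rwa [← mul_assoc]

/-- for `v` in `E^*_0 V`, `v ≠ 0`: the vectors in `E^*_0 V + ... + E^*_{n-1} V` are the `p(A) v` with
`p` of degree `< n` -/
theorem poly (h : LeonardSystem d A B θ θs E Es) (v : V) (hv : Es 0 v ≠ 0) (n : ℕ) :
    ∀ x : V, (∀ k : Fin (d + 1), n ≤ k → Es k x = 0) →
      ∃ p : K[X], p.degree < n ∧ x = aeval A p (Es 0 v) := by
  have hfin := h.finite
  induction n with
  | zero =>
    intro x hx
    refine ⟨0, by simp, ?_⟩
    rw [map_zero, LinearMap.zero_apply]
    exact h.primB.eq_zero x fun i => hx i (Nat.zero_le _)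
  | succ n ih =>
    intro x hx
    by_cases hn : n < d + 1
    · obtain ⟨c1, c2⟩ := h.chain n hn
      have c3 : Es ⟨n, hn⟩ ((A ^ n) (Es 0 v)) ≠ 0 :=
        h.primB.ne_of_line h.dim 0 (Es ⟨n, hn⟩ * A ^ n) c2 v hv
      obtain ⟨c, hc⟩ := h.primB.smul_of_line h.dim ⟨n, hn⟩ _ x c3
      obtain ⟨p, hp, hpx⟩ := ih (x - c • (A ^ n) (Es 0 v)) (by
        intro k hk
        rcases Nat.lt_or_ge n k with h1 | h1
        · have h2 : Es k ((A ^ n) (Es 0 v)) = 0 := DFunLike.congr_fun (c1 k h1) v
          rw [map_sub, map_smul, h2, smul_zero, hx k h1, sub_zero]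
        · have h2 : k = ⟨n, hn⟩ := Fin.ext (le_antisymm h1 hk)
          rw [h2, map_sub, map_smul, hc, sub_self])
      refine ⟨p + C c * X ^ n, ?_, ?_⟩
      · refine lt_of_le_of_lt (degree_add_le _ _) (max_lt ?_ ?_)
        · exact hp.trans (by exact_mod_cast Nat.lt_succ_self n)
        · exact lt_of_le_of_lt (degree_C_mul_X_pow_le n c) (by exact_mod_cast Nat.lt_succ_self n)
      · rw [map_add, LinearMap.add_apply, ← hpx, map_mul, aeval_C, map_pow, aeval_X,
          Module.End.mul_apply, Module.algebraMap_end_apply]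
        abel
    · obtain ⟨p, hp, hpx⟩ := ih x (fun k hk => absurd k.isLt (by omega))
      exact ⟨p, hp.trans (by exact_mod_cast Nat.lt_succ_self n), hpx⟩

theorem E_v_ne (h : LeonardSystem d A B θ θs E Es) (v : V) (hv : Es 0 v ≠ 0) (j : Fin (d + 1)) :
    E j (Es 0 v) ≠ 0 := by
  intro h0
  apply h.primA.ne j
  refine LinearMap.ext fun x => ?_
  obtain ⟨p, -, hp⟩ := h.poly v hv (d + 1) x (fun k hk => absurd k.isLt (by omega))
  rw [hp, h.primA.E_aeval, h0, smul_zero, LinearMap.zero_apply]

theorem exists_v (h : LeonardSystem d A B θ θs E Es) : ∃ v : V, Es 0 v ≠ 0 := by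
  by_contra hcon
  push Not at hcon
  exact h.primB.ne 0 (LinearMap.ext hcon)

/-- a vector in `E^*_0 V + ... + E^*_{n-1} V` with at least `n` zero components in the eigenspaces of
`A` is zero -/
theorem few (h : LeonardSystem d A B θ θs E Es) (n : ℕ) (x : V)
    (hx : ∀ k : Fin (d + 1), n ≤ k → Es k x = 0) (S : Finset (Fin (d + 1))) (hS : n ≤ S.card)
    (hxS : ∀ j ∈ S, E j x = 0) : x = 0 := by
  obtain ⟨v, hv⟩ := h.exists_v
  obtain ⟨p, hp, hpx⟩ := h.poly v hv n x hx
  have hroot : ∀ j ∈ S, p.eval (θ j) = 0 := by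
    intro j hj
    have h1 := hxS j hj
    rw [hpx, h.primA.E_aeval] at h1
    exact (smul_eq_zero.1 h1).resolve_right (h.E_v_ne v hv j)
  have hp0 : p = 0 := by
    classical
    apply Polynomial.eq_zero_of_degree_lt_of_eval_finset_eq_zero (S.image θ)
    · rw [Finset.card_image_of_injective _ h.primA.inj]
      exact hp.trans_le (by exact_mod_cast hS)
    · intro y hy
      obtain ⟨j, hj, rfl⟩ := Finset.mem_image.1 hy
      exact hroot j hj
  rw [hpx, hp0, map_zero, LinearMap.zero_apply]

end LeonardSystem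

end

end Pool.Agent.R713
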