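import Pool.Agent.R713.TameGroup

/-!
# The tame automorphism
-/

set_option autoImplicit false

namespace Pool.Agent.R713.Tame

open Polynomial

theorem exists_rho : ∃ r : ℝ, r ^ 3 = r + 1 := by
  have hc : ContinuousOn (fun x : ℝ => x ^ 3 - x) (Set.Icc 1 2) := by fun_prop
  have h := intermediate_value_Icc (show (1 : ℝ) ≤ 2 by norm_num) hc
  have h1 : (1 : ℝ) ∈ Set.Icc ((fun x : ℝ => x ^ 3 - x) 1) ((fun x : ℝ => x ^ 3 - x) 2) := by
    constructor <;> norm_num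
  obtain ⟨r, -, hr⟩ := h h1
  exact ⟨r, by simp only at hr; linarith⟩

/-- the real root of `x³ = x + 1` -/
noncomputable def ρ : ℝ := exists_rho.choose

theorem rho_eq : ρ ^ 3 = ρ + 1 := exists_rho.choose_spec

theorem one_lt {r : ℝ} (h : r ^ 3 = r + 1) : 1.3 < r := by
  by_contra hle
  push Not at hle
  nlinarith [sq_nonneg (r + 1 / 2), sq_nonneg (r - 1), sq_nonneg (r + 1), sq_nonneg (r - 13/10),
    sq_nonneg r]

theorem real_root_unique {r : ℝ} (h : r ^ 3 = r + 1) : r = ρ := by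
  have h1 := one_lt h
  have h2 := one_lt rho_eq
  have h3 : (r - ρ) * (r ^ 2 + r * ρ + ρ ^ 2 - 1) = 0 := by
    linear_combination h - rho_eq
  rcases mul_eq_zero.1 h3 with h4 | h4
  · linarith
  · nlinarith

theorem rho_pos : 0 < ρ := by linarith [one_lt rho_eq]

theorem indep {z : ℂ} (hz : z ^ 3 = z + 1) (a b c : ℚ) (h : (a : ℂ) + b * z + c * z ^ 2 = 0) :
    a = 0 ∧ b = 0 ∧ c = 0 := by
  have hirr : Irreducible (X ^ 3 - X - 1 : ℚ[X]) :=
    Polynomial.X_pow_sub_X_sub_one_irreducible_rat (by norm_num)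
  have hmon : (X ^ 3 - X - 1 : ℚ[X]).Monic := by monicity!
  have hmin : X ^ 3 - X - 1 = minpoly ℚ z := by
    refine minpoly.eq_of_irreducible_of_monic hirr ?_ hmon
    simp [hz]
  let p : ℚ[X] := C c * X ^ 2 + C b * X + C a
  have hp : aeval z p = 0 := by
    simp only [p, map_add, map_mul, aeval_C, aeval_X, map_pow]
    simp only [eq_ratCast]
    linear_combination h
  have hdvd := minpoly.dvd ℚ z hp
  rw [← hmin] at hdvd
  have hdeg : p.natDegree < (X ^ 3 - X - 1 : ℚ[X]).natDegree := by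
    have h1 : (X ^ 3 - X - 1 : ℚ[X]).natDegree = 3 := by compute_degree!
    rw [h1]
    have h2 : p.natDegree ≤ 2 := by
      simp only [p]
      compute_degree
    omega
  have hp0 : p = 0 := Polynomial.eq_zero_of_dvd_of_natDegree_lt hdvd hdeg
  have c0 := congrArg (fun q : ℚ[X] => q.coeff 0) hp0
  have c1 := congrArg (fun q : ℚ[X] => q.coeff 1) hp0
  have c2 := congrArg (fun q : ℚ[X] => q.coeff 2) hp0
  simp [p, coeff_X, coeff_C] at c0 c1 c2
  exact ⟨c0, c1, c2⟩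

theorem indepZ {r : ℝ} (hr : r ^ 3 = r + 1) (a b c : ℤ) (h : (a : ℝ) + b * r + c * r ^ 2 = 0) :
    a = 0 ∧ b = 0 ∧ c = 0 := by
  have hz : (r : ℂ) ^ 3 = r + 1 := by exact_mod_cast congrArg (fun x : ℝ => (x : ℂ)) hr
  obtain ⟨h1, h2, h3⟩ := indep hz (a : ℚ) (b : ℚ) (c : ℚ) (by
    push_cast
    exact_mod_cast congrArg (fun x : ℝ => (x : ℂ)) h)
  exact ⟨by exact_mod_cast h1, by exact_mod_cast h2, by exact_mod_cast h3⟩

/-- the left eigenfunctional of `M` -/
noncomputable def ell (v : Fin 3 → ℤ) : ℝ := v 0 + v 1 * ρ + v 2 * ρ ^ 2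

/-- the right eigenvector of `M`, as a functional on the second layer -/
noncomputable def rr (a : Fin 3 → ℤ) : ℝ := a 0 + a 2 * ρ + a 1 * ρ ^ 2

theorem ell_zero {v : Fin 3 → ℤ} (h : ell v = 0) : v = 0 := by
  obtain ⟨h0, h1, h2⟩ := indepZ rho_eq _ _ _ h
  ext i
  fin_cases i
  · exact h0
  · exact h1
  · exact h2

theorem rr_zero {v : Fin 3 → ℤ} (h : rr v = 0) : v = 0 := by
  obtain ⟨h0, h1, h2⟩ := indepZ rho_eq _ _ _ h
  ext i
  fin_cases i
  · exact h0
  · exact h2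
  · exact h1

/-- the imaginary part of the complex root -/
noncomputable def im : ℝ := √(3 * ρ ^ 2 - 4) / 2

theorem im_pos : 0 < im := by
  have h := one_lt rho_eq
  have : 0 < 3 * ρ ^ 2 - 4 := by nlinarith
  have := Real.sqrt_pos.2 this
  unfold im
  linarith

theorem im_sq : im ^ 2 = (3 * ρ ^ 2 - 4) / 4 := by
  have h := one_lt rho_eq
  have h1 : 0 ≤ 3 * ρ ^ 2 - 4 := by nlinarith
  unfold im
  rw [div_pow, Real.sq_sqrt h1]
  norm_num

/-- the complex root -/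
noncomputable def w : ℂ := ⟨-ρ / 2, im⟩

theorem w_eq : w ^ 3 = w + 1 := by
  have h1 := im_sq
  have h2 := rho_eq
  apply Complex.ext
  · simp [pow_succ, w]
    linear_combination (3 * ρ / 2) * h1 + h2
  · simp [pow_succ, w]
    linear_combination (-im) * h1

theorem w_sum : (ρ : ℂ) ^ 2 + ρ * w + w ^ 2 = 1 := by
  have h1 := im_sq
  apply Complex.ext
  · simp [pow_succ, w]
    linear_combination - h1
  · simp [pow_succ, w]
    ring

theorem w_ne : w ≠ 0 := by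
  intro h
  have := congrArg Complex.im h
  simp [w] at this
  exact im_pos.ne' this

theorem w_norm : ‖w‖ < 1 := by
  have h1 := im_sq
  have h2 := rho_eq
  have h3 := one_lt rho_eq
  have h4 : ‖w‖ ^ 2 = ρ ^ 2 - 1 := by
    rw [Complex.sq_norm, Complex.normSq_apply]
    simp only [w]
    linear_combination h1
  have h5 : ρ ^ 2 - 1 < 1 := by
    have h6 : ρ * (ρ ^ 2 - 1) = 1 := by linear_combination h2
    have h7 : 0 < ρ ^ 2 - 1 := by nlinarith
    nlinarith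
  have h0 := norm_nonneg w
  nlinarith

/-- the eigenfunctional on the third layer -/
noncomputable def ff (s t : Fin 3 → ℤ) : ℂ := w * ell s + ell t

theorem ff_zero {s t : Fin 3 → ℤ} (h : ff s t = 0) : s = 0 ∧ t = 0 := by
  have h1 := congrArg Complex.im h
  simp [ff, w, im_pos.ne'] at h1
  have h2 : s = 0 := ell_zero h1
  refine ⟨h2, ell_zero ?_⟩
  rw [ff, h1] at h
  simpa using h

/-- the action on the first layer -/
def f1 (x : Fin 3 → ℤ) : Fin 3 → ℤ := ![x 2, x 0 + x 2, x 1]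
/-- the action on the second layer -/
def f2 (a : Fin 3 → ℤ) : Fin 3 → ℤ := ![a 2 - a 0, a 0, a 1]
/-- the action on the third layer, first component -/
def f3 (t : Fin 3 → ℤ) : Fin 3 → ℤ := ![-t 1, -t 1 - t 2, -t 0 - t 2]
/-- the action on the third layer, second component -/
def f4 (s t : Fin 3 → ℤ) : Fin 3 → ℤ :=
  ![s 2 - (t 0 + t 2), s 0 + s 2 - (t 0 + t 1 + t 2), s 1 - (t 1 + t 2)]
/-- inverse -/
def i1 (x : Fin 3 → ℤ) : Fin 3 → ℤ := ![x 1 - x 0, x 2, x 0]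
/-- inverse -/
def i2 (a : Fin 3 → ℤ) : Fin 3 → ℤ := ![a 1, a 2, a 0 + a 1]
/-- inverse -/
def i3 (s t : Fin 3 → ℤ) : Fin 3 → ℤ := ![t 1 - t 0 - s 0, t 2 - s 1, t 0 - s 2]
/-- inverse -/
def i4 (s : Fin 3 → ℤ) : Fin 3 → ℤ := ![s 1 - s 0 - s 2, -s 0, s 0 - s 1]

@[simp] theorem f10 (x : Fin 3 → ℤ) : f1 x 0 = x 2 := rfl
@[simp] theorem f11 (x : Fin 3 → ℤ) : f1 x 1 = x 0 + x 2 := rfl
@[simp] theorem f12 (x : Fin 3 → ℤ) : f1 x 2 = x 1 := rfl
@[simp] theorem f20 (x : Fin 3 → ℤ) : f2 x 0 = x 2 - x 0 := rfl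
@[simp] theorem f21 (x : Fin 3 → ℤ) : f2 x 1 = x 0 := rfl
@[simp] theorem f22 (x : Fin 3 → ℤ) : f2 x 2 = x 1 := rfl
@[simp] theorem f30 (t : Fin 3 → ℤ) : f3 t 0 = -t 1 := rfl
@[simp] theorem f31 (t : Fin 3 → ℤ) : f3 t 1 = -t 1 - t 2 := rfl
@[simp] theorem f32 (t : Fin 3 → ℤ) : f3 t 2 = -t 0 - t 2 := rfl
@[simp] theorem f40 (s t : Fin 3 → ℤ) : f4 s t 0 = s 2 - (t 0 + t 2) := rfl
@[simp] theorem f41 (s t : Fin 3 → ℤ) : f4 s t 1 = s 0 + s 2 - (t 0 + t 1 + t 2) := rfl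
@[simp] theorem f42 (s t : Fin 3 → ℤ) : f4 s t 2 = s 1 - (t 1 + t 2) := rfl
@[simp] theorem i10 (x : Fin 3 → ℤ) : i1 x 0 = x 1 - x 0 := rfl
@[simp] theorem i11 (x : Fin 3 → ℤ) : i1 x 1 = x 2 := rfl
@[simp] theorem i12 (x : Fin 3 → ℤ) : i1 x 2 = x 0 := rfl
@[simp] theorem i20 (x : Fin 3 → ℤ) : i2 x 0 = x 1 := rfl
@[simp] theorem i21 (x : Fin 3 → ℤ) : i2 x 1 = x 2 := rfl
@[simp] theorem i22 (x : Fin 3 → ℤ) : i2 x 2 = x 0 + x 1 := rfl
@[simp] theorem i30 (s t : Fin 3 → ℤ) : i3 s t 0 = t 1 - t 0 - s 0 := rfl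
@[simp] theorem i31 (s t : Fin 3 → ℤ) : i3 s t 1 = t 2 - s 1 := rfl
@[simp] theorem i32 (s t : Fin 3 → ℤ) : i3 s t 2 = t 0 - s 2 := rfl
@[simp] theorem i40 (s : Fin 3 → ℤ) : i4 s 0 = s 1 - s 0 - s 2 := rfl
@[simp] theorem i41 (s : Fin 3 → ℤ) : i4 s 1 = -s 0 := rfl
@[simp] theorem i42 (s : Fin 3 → ℤ) : i4 s 2 = s 0 - s 1 := rfl

/-- the tame automorphism -/
def phi : MulAut G where
  toFun g := ⟨f1 g.x, f2 g.a, f3 g.t, f4 g.s g.t⟩
  invFun g := ⟨i1 g.x, i2 g.a, i3 g.s g.t, i4 g.s⟩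
  left_inv g := by
    ext i <;> fin_cases i <;> simp <;> ring
  right_inv g := by
    ext i <;> fin_cases i <;> simp <;> ring
  map_mul' g h := by
    ext i <;> fin_cases i <;> simp <;> ring

@[simp] theorem phi_x (g : G) : (phi g).x = f1 g.x := rfl
@[simp] theorem phi_a (g : G) : (phi g).a = f2 g.a := rfl
@[simp] theorem phi_s (g : G) : (phi g).s = f3 g.t := rfl
@[simp] theorem phi_t (g : G) : (phi g).t = f4 g.s g.t := rfl

/-- the linear map on the first layer -/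
def P1 : Module.End ℤ (Fin 3 → ℤ) where
  toFun := f1
  map_add' x y := by ext i; fin_cases i <;> simp <;> ring
  map_smul' c x := by ext i; fin_cases i <;> simp <;> ring

/-- the linear map on the second layer -/
def P2 : Module.End ℤ (Fin 3 → ℤ) where
  toFun := f2
  map_add' x y := by ext i; fin_cases i <;> simp <;> ring
  map_smul' c x := by ext i; fin_cases i <;> simp <;> ring

/-- the linear map on the third layer -/
def P3 : Module.End ℤ ((Fin 3 → ℤ) × (Fin 3 → ℤ)) where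
  toFun p := (f3 p.2, f4 p.1 p.2)
  map_add' x y := by
    refine Prod.ext ?_ ?_ <;> ext i <;> fin_cases i <;> simp <;> ring
  map_smul' c x := by
    refine Prod.ext ?_ ?_ <;> ext i <;> fin_cases i <;> simp <;> ring

theorem pow_x (n : ℕ) (g : G) : ((phi ^ n) g).x = (P1 ^ n) g.x := by
  induction n with
  | zero => rfl
  | succ n ih =>
    rw [pow_succ', pow_succ', MulAut.mul_apply, phi_x, ih]
    rfl

theorem pow_a (n : ℕ) (g : G) : ((phi ^ n) g).a = (P2 ^ n) g.a := by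
  induction n with
  | zero => rfl
  | succ n ih =>
    rw [pow_succ', pow_succ', MulAut.mul_apply, phi_a, ih]
    rfl

theorem pow_st (n : ℕ) (g : G) : (((phi ^ n) g).s, ((phi ^ n) g).t) = (P3 ^ n) (g.s, g.t) := by
  induction n with
  | zero => rfl
  | succ n ih =>
    rw [pow_succ', pow_succ', MulAut.mul_apply, phi_s, phi_t, Module.End.mul_apply, ← ih]
    rfl

theorem ell_P1 (n : ℕ) (v : Fin 3 → ℤ) : ell ((P1 ^ n) v) = ρ ^ n * ell v := by
  induction n with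
  | zero => simp
  | succ n ih =>
    rw [pow_succ', Module.End.mul_apply]
    have : ∀ u, ell (P1 u) = ρ * ell u := by
      intro u
      change ell (f1 u) = _
      simp only [ell, f10, f11, f12]
      push_cast
      linear_combination (-(u 2 : ℝ)) * rho_eq
    rw [this, ih]
    ring

theorem rr_P2 (n : ℕ) (v : Fin 3 → ℤ) : ρ ^ n * rr ((P2 ^ n) v) = rr v := by
  induction n with
  | zero => simp
  | succ n ih =>
    rw [pow_succ' P2, Module.End.mul_apply]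
    have : ∀ u, ρ * rr (P2 u) = rr u := by
      intro u
      change ρ * rr (f2 u) = _
      simp only [rr, f20, f21, f22]
      push_cast
      linear_combination (u 0 : ℝ) * rho_eq
    rw [pow_succ, mul_assoc, this, ih]

theorem ell_f3 (t : Fin 3 → ℤ) : ell (f3 t) = -(ρ ^ 2 * ell t) := by
  simp only [ell, f30, f31, f32]
  push_cast
  linear_combination ((t 1 : ℝ) + t 2 * ρ) * rho_eq

theorem ell_f4 (s t : Fin 3 → ℤ) : ell (f4 s t) = ρ * ell s - ρ ^ 3 * ell t := by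
  simp only [ell, f40, f41, f42]
  push_cast
  linear_combination (-(s 2 : ℝ) + t 0 + t 1 * ρ + t 2 * (ρ ^ 2 + 1)) * rho_eq

theorem ff_P3 (n : ℕ) (p : (Fin 3 → ℤ) × (Fin 3 → ℤ)) :
    w ^ n * ff ((P3 ^ n) p).1 ((P3 ^ n) p).2 = (ρ : ℂ) ^ n * ff p.1 p.2 := by
  induction n with
  | zero => simp
  | succ n ih =>
    rw [pow_succ' P3, Module.End.mul_apply]
    have : ∀ u : (Fin 3 → ℤ) × (Fin 3 → ℤ), w * ff (P3 u).1 (P3 u).2 = ρ * ff u.1 u.2 := by
      intro u
      change w * ff (f3 u.2) (f4 u.1 u.2) = _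
      have h1 := w_sum
      have h2 : (ρ : ℂ) ^ 3 = ρ + 1 := by exact_mod_cast congrArg (fun x : ℝ => (x : ℂ)) rho_eq
      rw [ff, ff, ell_f3, ell_f4]
      push_cast
      linear_combination (-(ρ : ℂ) ^ 2 * ell u.2) * h1 + ((ρ : ℂ) * ell u.2) * h2
    rw [pow_succ, mul_assoc, this, pow_succ (ρ : ℂ), mul_left_comm, ih]
    ring

theorem one_lt_pow {n : ℕ} (hn : 0 < n) : 1 < ρ ^ n :=
  one_lt_pow₀ (by linarith [one_lt rho_eq]) hn.ne'

theorem inj1 {n : ℕ} (hn : 0 < n) : Function.Injective ⇑(P1 ^ n - 1) := by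
  rw [← LinearMap.ker_eq_bot, LinearMap.ker_eq_bot']
  intro v hv
  rw [LinearMap.sub_apply, Module.End.one_apply, sub_eq_zero] at hv
  have h1 := ell_P1 n v
  rw [hv] at h1
  have h2 := one_lt_pow hn
  apply ell_zero
  have h3 : (ρ ^ n - 1) * ell v = 0 := by linarith
  rcases mul_eq_zero.1 h3 with h4 | h4
  · linarith
  · exact h4

theorem inj2 {n : ℕ} (hn : 0 < n) : Function.Injective ⇑(P2 ^ n - 1) := by
  rw [← LinearMap.ker_eq_bot, LinearMap.ker_eq_bot']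
  intro v hv
  rw [LinearMap.sub_apply, Module.End.one_apply, sub_eq_zero] at hv
  have h1 := rr_P2 n v
  rw [hv] at h1
  have h2 := one_lt_pow hn
  apply rr_zero
  have h3 : (ρ ^ n - 1) * rr v = 0 := by linarith
  rcases mul_eq_zero.1 h3 with h4 | h4
  · linarith
  · exact h4

theorem inj3 {n : ℕ} (hn : 0 < n) : Function.Injective ⇑(P3 ^ n - 1) := by
  rw [← LinearMap.ker_eq_bot, LinearMap.ker_eq_bot']
  intro v hv
  rw [LinearMap.sub_apply, Module.End.one_apply, sub_eq_zero] at hv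
  have h1 := ff_P3 n v
  rw [hv] at h1
  have h2 := one_lt_pow hn
  have h5 : ff v.1 v.2 = 0 := by
    have h3 : (w ^ n - (ρ : ℂ) ^ n) * ff v.1 v.2 = 0 := by linear_combination h1
    rcases mul_eq_zero.1 h3 with h4 | h4
    · exfalso
      have h6 : ‖w ^ n‖ = ‖(ρ : ℂ) ^ n‖ := by rw [sub_eq_zero.1 h4]
      rw [norm_pow, norm_pow, Complex.norm_real, Real.norm_of_nonneg rho_pos.le] at h6
      have h7 : ‖w‖ ^ n ≤ 1 := pow_le_one₀ (norm_nonneg _) w_norm.le
      linarith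
    · exact h4
  obtain ⟨h6, h7⟩ := ff_zero h5
  exact Prod.ext h6 h7

theorem finite_reps {V : Type} [AddCommGroup V] [Module.Free ℤ V] [Module.Finite ℤ V]
    (P : Module.End ℤ V) (hP : Function.Injective ⇑(P - 1)) :
    ∃ T : Set V, T.Finite ∧ ∀ v, ∃ u, v + u - P u ∈ T := by
  have hfin : Finite (V ⧸ LinearMap.range (P - 1)) := by
    apply Submodule.finiteQuotientOfFreeOfRankEq
    exact LinearMap.finrank_range_of_inj hP
  let o : V ⧸ LinearMap.range (P - 1) → V := fun q => Quotient.out q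
  refine ⟨Set.range o, Set.finite_range _, ?_⟩
  intro v
  have h1 : (Submodule.Quotient.mk (o (Submodule.Quotient.mk v)) : V ⧸ LinearMap.range (P - 1)) =
      Submodule.Quotient.mk v := Quotient.out_eq _
  rw [Submodule.Quotient.eq] at h1
  obtain ⟨u, hu⟩ := h1
  refine ⟨-u, ⟨Submodule.Quotient.mk v, ?_⟩⟩
  rw [LinearMap.sub_apply, Module.End.one_apply] at hu
  have h2 : o (Submodule.Quotient.mk v) = v + (P u - u) := by
    rw [hu]
    abel
  rw [h2, map_neg]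
  abel

/-- the Reidemeister numbers of the powers of `phi` are finite -/
theorem reps_phi {n : ℕ} (hn : 0 < n) : ∃ T : Set G, T.Finite ∧
    ∀ g : G, ∃ z : G, z * g * ((phi ^ n) z)⁻¹ ∈ T := by
  obtain ⟨T1, hT1, h1⟩ := finite_reps (P1 ^ n) (inj1 hn)
  obtain ⟨T2, hT2, h2⟩ := finite_reps (P2 ^ n) (inj2 hn)
  obtain ⟨T3, hT3, h3⟩ := finite_reps (P3 ^ n) (inj3 hn)
  refine ⟨(fun p : (Fin 3 → ℤ) × (Fin 3 → ℤ) × ((Fin 3 → ℤ) × (Fin 3 → ℤ)) =>
    (⟨p.1, p.2.1, p.2.2.1, p.2.2.2⟩ : G)) '' (T1 ×ˢ (T2 ×ˢ T3)),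
    (hT1.prod (hT2.prod hT3)).image _, ?_⟩
  intro g
  obtain ⟨u1, hu1⟩ := h1 g.x
  set z1 : G := ⟨u1, 0, 0, 0⟩ with hz1
  set g1 := z1 * g * ((phi ^ n) z1)⁻¹ with hg1
  have e1 : g1.x ∈ T1 := by
    have : g1.x = g.x + u1 - (P1 ^ n) u1 := by
      rw [hg1]
      simp only [mul_x, inv_x, pow_x, hz1]
      abel
    rw [this]
    exact hu1
  obtain ⟨u2, hu2⟩ := h2 g1.a
  set z2 : G := ⟨0, u2, 0, 0⟩ with hz2
  set g2 := z2 * g1 * ((phi ^ n) z2)⁻¹ with hg2
  have e2 : g2.x = g1.x := by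
    rw [hg2]
    simp only [mul_x, inv_x, pow_x, hz2, map_zero]
    abel
  have e2' : g2.a ∈ T2 := by
    have : g2.a = g1.a + u2 - (P2 ^ n) u2 := by
      rw [hg2]
      simp only [mul_a, mul_x, inv_x, inv_a, pow_x, pow_a, hz2, map_zero]
      ext i
      fin_cases i <;> simp <;> ring
    rw [this]
    exact hu2
  obtain ⟨u3, hu3⟩ := h3 (g2.s, g2.t)
  set z3 : G := ⟨0, 0, u3.1, u3.2⟩ with hz3
  set g3 := z3 * g2 * ((phi ^ n) z3)⁻¹ with hg3
  have e3 : g3.x = g2.x := by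
    rw [hg3]
    simp only [mul_x, inv_x, pow_x, hz3, map_zero]
    abel
  have e3' : g3.a = g2.a := by
    rw [hg3]
    simp only [mul_a, mul_x, inv_x, inv_a, pow_x, pow_a, hz3, map_zero]
    ext i
    fin_cases i <;> simp
  have e3'' : (g3.s, g3.t) ∈ T3 := by
    have h5 := pow_st n z3
    have : (g3.s, g3.t) = (g2.s, g2.t) + u3 - (P3 ^ n) u3 := by
      have h6 : (z3.s, z3.t) = u3 := rfl
      rw [← h6, ← h5]
      refine Prod.ext ?_ ?_
      · rw [hg3]
        have e5 : ((phi ^ n) z3).x = 0 := by rw [pow_x]; simp [hz3]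
        have e6 : ((phi ^ n) z3).a = 0 := by rw [pow_a]; simp [hz3]
        simp only [mul_s, mul_a, mul_x, inv_x, inv_a, inv_s, e5, e6]
        ext i
        fin_cases i <;> simp [hz3] <;> ring
      · rw [hg3]
        have e5 : ((phi ^ n) z3).x = 0 := by rw [pow_x]; simp [hz3]
        have e6 : ((phi ^ n) z3).a = 0 := by rw [pow_a]; simp [hz3]
        simp only [mul_t, mul_a, mul_x, inv_x, inv_a, inv_t, e5, e6]
        ext i
        fin_cases i <;> simp [hz3] <;> ring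
    rw [this]
    exact hu3
  refine ⟨z3 * z2 * z1, (g3.x, g3.a, g3.s, g3.t), ⟨?_, ?_, ?_⟩, ?_⟩
  · simp only
    rw [e3, e2]
    exact e1
  · simp only
    rw [e3']
    exact e2'
  · exact e3''
  · change g3 = _
    rw [hg3, hg2, hg1, map_mul, map_mul]
    group

end Pool.Agent.R713.Tame
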