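import Mathlib

/-!
# A 12-dimensional three-step nilpotent group attached to the cubic field of `x³ - x - 1`
-/

set_option autoImplicit false

namespace Pool.Agent.R713.Tame

open scoped commutatorElement

/-- the cross product -/
def cr (x y : Fin 3 → ℤ) : Fin 3 → ℤ :=
  ![x 1 * y 2 - x 2 * y 1, x 2 * y 0 - x 0 * y 2, x 0 * y 1 - x 1 * y 0]

/-- first component `a₁ x - a₀ M x` of `β(x, a)` -/
def bs (x a : Fin 3 → ℤ) : Fin 3 → ℤ :=
  ![a 1 * x 0 - a 0 * x 2, a 1 * x 1 - a 0 * (x 0 + x 2), a 1 * x 2 - a 0 * x 1]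

/-- second component `a₂ x - a₀ M² x` of `β(x, a)` -/
def bt (x a : Fin 3 → ℤ) : Fin 3 → ℤ :=
  ![a 2 * x 0 - a 0 * x 1, a 2 * x 1 - a 0 * (x 1 + x 2), a 2 * x 2 - a 0 * (x 0 + x 2)]

@[simp] theorem cr0 (x y : Fin 3 → ℤ) : cr x y 0 = x 1 * y 2 - x 2 * y 1 := rfl
@[simp] theorem cr1 (x y : Fin 3 → ℤ) : cr x y 1 = x 2 * y 0 - x 0 * y 2 := rfl
@[simp] theorem cr2 (x y : Fin 3 → ℤ) : cr x y 2 = x 0 * y 1 - x 1 * y 0 := rfl
@[simp] theorem bs0 (x a : Fin 3 → ℤ) : bs x a 0 = a 1 * x 0 - a 0 * x 2 := rfl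
@[simp] theorem bs1 (x a : Fin 3 → ℤ) : bs x a 1 = a 1 * x 1 - a 0 * (x 0 + x 2) := rfl
@[simp] theorem bs2 (x a : Fin 3 → ℤ) : bs x a 2 = a 1 * x 2 - a 0 * x 1 := rfl
@[simp] theorem bt0 (x a : Fin 3 → ℤ) : bt x a 0 = a 2 * x 0 - a 0 * x 1 := rfl
@[simp] theorem bt1 (x a : Fin 3 → ℤ) : bt x a 1 = a 2 * x 1 - a 0 * (x 1 + x 2) := rfl
@[simp] theorem bt2 (x a : Fin 3 → ℤ) : bt x a 2 = a 2 * x 2 - a 0 * (x 0 + x 2) := rfl

/-- the group -/
@[ext] structure G where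
  x : Fin 3 → ℤ
  a : Fin 3 → ℤ
  s : Fin 3 → ℤ
  t : Fin 3 → ℤ

/-- multiplication -/
instance : Mul G where
  mul g h := ⟨g.x + h.x, g.a + h.a + cr g.x h.x,
    g.s + h.s + (3 : ℤ) • (bs g.x h.a - bs h.x g.a) + bs (g.x - h.x) (cr g.x h.x),
    g.t + h.t + (3 : ℤ) • (bt g.x h.a - bt h.x g.a) + bt (g.x - h.x) (cr g.x h.x)⟩

instance : One G := ⟨⟨0, 0, 0, 0⟩⟩

instance : Inv G := ⟨fun g => ⟨-g.x, -g.a, -g.s, -g.t⟩⟩

@[simp] theorem mul_x (g h : G) : (g * h).x = g.x + h.x := rfl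
@[simp] theorem mul_a (g h : G) : (g * h).a = g.a + h.a + cr g.x h.x := rfl
@[simp] theorem mul_s (g h : G) : (g * h).s =
  g.s + h.s + (3 : ℤ) • (bs g.x h.a - bs h.x g.a) + bs (g.x - h.x) (cr g.x h.x) := rfl
@[simp] theorem mul_t (g h : G) : (g * h).t =
  g.t + h.t + (3 : ℤ) • (bt g.x h.a - bt h.x g.a) + bt (g.x - h.x) (cr g.x h.x) := rfl
@[simp] theorem one_x : (1 : G).x = 0 := rfl
@[simp] theorem one_a : (1 : G).a = 0 := rfl
@[simp] theorem one_s : (1 : G).s = 0 := rfl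
@[simp] theorem one_t : (1 : G).t = 0 := rfl
@[simp] theorem inv_x (g : G) : (g⁻¹).x = -g.x := rfl
@[simp] theorem inv_a (g : G) : (g⁻¹).a = -g.a := rfl
@[simp] theorem inv_s (g : G) : (g⁻¹).s = -g.s := rfl
@[simp] theorem inv_t (g : G) : (g⁻¹).t = -g.t := rfl

theorem mul_assoc' (g h k : G) : g * h * k = g * (h * k) := by
  ext i <;> fin_cases i <;> simp <;> ring

theorem one_mul' (g : G) : 1 * g = g := by
  ext i <;> fin_cases i <;> simp

theorem inv_mul' (g : G) : g⁻¹ * g = 1 := by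
  ext i <;> fin_cases i <;> simp <;> ring

instance : Group G := Group.ofLeftAxioms mul_assoc' one_mul' inv_mul'

/-- coordinatewise multiples -/
def sm (n : ℤ) (g : G) : G := ⟨n • g.x, n • g.a, n • g.s, n • g.t⟩

theorem pow_eq (g : G) (n : ℕ) : g ^ n = sm n g := by
  induction n with
  | zero => ext i <;> simp [sm]
  | succ n ih =>
    rw [pow_succ, ih]
    ext i <;> fin_cases i <;> simp [sm] <;> ring

theorem zpow_eq (g : G) (n : ℤ) : g ^ n = sm n g := by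
  obtain ⟨m, rfl | rfl⟩ := n.eq_nat_or_neg
  · rw [zpow_natCast, pow_eq]
  · rw [zpow_neg, zpow_natCast, pow_eq]
    ext i <;> simp [sm]

theorem torsion_free (g : G) (n : ℕ) (hn : 0 < n) (h : g ^ n = 1) : g = 1 := by
  rw [pow_eq] at h
  have hn' : (n : ℤ) ≠ 0 := by exact_mod_cast hn.ne'
  have h1 := congrArg G.x h
  have h2 := congrArg G.a h
  have h3 := congrArg G.s h
  have h4 := congrArg G.t h
  simp only [sm, one_x, one_a, one_s, one_t, smul_eq_zero, hn', false_or] at h1 h2 h3 h4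
  exact G.ext h1 h2 h3 h4

theorem comm_x (g h : G) : (⁅g, h⁆).x = 0 := by
  rw [commutatorElement_def]
  simp

theorem comm_a (g h : G) : (⁅g, h⁆).a = (2 : ℤ) • cr g.x h.x := by
  rw [commutatorElement_def]
  ext i
  fin_cases i <;> simp <;> ring

/-- commutators with elements of the second layer -/
theorem comm_second (g h : G) (hg : g.x = 0) : ⁅g, h⁆ =
    ⟨0, 0, -(6 : ℤ) • bs h.x g.a, -(6 : ℤ) • bt h.x g.a⟩ := by
  rw [commutatorElement_def]
  ext i <;> fin_cases i <;> simp [hg] <;> ring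

theorem comm_third (g h : G) (hg : g.x = 0) (ha : g.a = 0) : ⁅g, h⁆ = 1 := by
  rw [comm_second g h hg, ha]
  ext i <;> fin_cases i <;> simp

/-- the central series -/
def ser : ℕ → Subgroup G
  | 0 => ⊤
  | 1 => { carrier := {g | g.x = 0}
           mul_mem' := by
             intro g h hg hh
             change g.x + h.x = 0
             rw [show g.x = 0 from hg, show h.x = 0 from hh, add_zero]
           one_mem' := rfl
           inv_mem' := by
             intro g hg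
             change -g.x = 0
             rw [show g.x = 0 from hg, neg_zero] }
  | 2 => { carrier := {g | g.x = 0 ∧ g.a = 0}
           mul_mem' := by
             rintro g h ⟨hg, hg'⟩ ⟨hh, hh'⟩
             refine ⟨?_, ?_⟩
             · change g.x + h.x = 0
               rw [hg, hh, add_zero]
             · change g.a + h.a + cr g.x h.x = 0
               rw [hg', hh', hg]
               ext i
               fin_cases i <;> simp
           one_mem' := ⟨rfl, rfl⟩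
           inv_mem' := by
             rintro g ⟨hg, hg'⟩
             exact ⟨by change -g.x = 0; rw [hg, neg_zero], by change -g.a = 0; rw [hg', neg_zero]⟩ }
  | _ + 3 => ⊥

theorem ser_desc : Subgroup.IsDescendingCentralSeries ser := by
  refine ⟨rfl, ?_⟩
  intro g n hg h
  match n, hg with
  | 0, _ => exact comm_x g h
  | 1, hg =>
    have h1 := comm_second g h hg
    exact ⟨by rw [h1], by rw [h1]⟩
  | 2, hg => exact Subgroup.mem_bot.2 (comm_third g h hg.1 hg.2)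
  | n + 3, hg =>
    have h1 : g = 1 := Subgroup.mem_bot.1 hg
    rw [h1]
    exact Subgroup.mem_bot.2 (commutatorElement_one_left h)

theorem nilpotent : Group.IsNilpotent G :=
  (Subgroup.nilpotent_iff_finite_descending_central_series G).2 ⟨3, ser, ser_desc, rfl⟩

/-- the `j`-th unit vector -/
abbrev e (j : Fin 3) : Fin 3 → ℤ := Pi.single j 1

theorem fg : Group.FG G := by
  rw [Group.fg_iff]
  let S : Set G := (Set.range fun j => (⟨e j, 0, 0, 0⟩ : G)) ∪ (Set.range fun j => (⟨0, e j, 0, 0⟩ : G)) ∪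
    (Set.range fun j => (⟨0, 0, e j, 0⟩ : G)) ∪ (Set.range fun j => (⟨0, 0, 0, e j⟩ : G))
  refine ⟨S, ?_, ?_⟩
  · rw [Subgroup.eq_top_iff']
    have hX : ∀ j, (⟨e j, 0, 0, 0⟩ : G) ∈ Subgroup.closure S := fun j =>
      Subgroup.subset_closure (Or.inl (Or.inl (Or.inl ⟨j, rfl⟩)))
    have hA : ∀ j, (⟨0, e j, 0, 0⟩ : G) ∈ Subgroup.closure S := fun j =>
      Subgroup.subset_closure (Or.inl (Or.inl (Or.inr ⟨j, rfl⟩)))
    have hS : ∀ j, (⟨0, 0, e j, 0⟩ : G) ∈ Subgroup.closure S := fun j =>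
      Subgroup.subset_closure (Or.inl (Or.inr ⟨j, rfl⟩))
    have hT : ∀ j, (⟨0, 0, 0, e j⟩ : G) ∈ Subgroup.closure S := fun j =>
      Subgroup.subset_closure (Or.inr ⟨j, rfl⟩)
    have h3 : ∀ s t : Fin 3 → ℤ, (⟨0, 0, s, t⟩ : G) ∈ Subgroup.closure S := by
      intro s t
      have : (⟨0, 0, s, t⟩ : G) = ⟨0, 0, e 0, 0⟩ ^ (s 0) * ⟨0, 0, e 1, 0⟩ ^ (s 1) *
          ⟨0, 0, e 2, 0⟩ ^ (s 2) * (⟨0, 0, 0, e 0⟩ ^ (t 0) * ⟨0, 0, 0, e 1⟩ ^ (t 1) *
          ⟨0, 0, 0, e 2⟩ ^ (t 2)) := by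
        simp only [zpow_eq]
        ext i <;> fin_cases i <;> simp [sm]
      rw [this]
      exact mul_mem (mul_mem (mul_mem (zpow_mem (hS 0) _) (zpow_mem (hS 1) _)) (zpow_mem (hS 2) _))
        (mul_mem (mul_mem (zpow_mem (hT 0) _) (zpow_mem (hT 1) _)) (zpow_mem (hT 2) _))
    have h2 : ∀ a s t : Fin 3 → ℤ, (⟨0, a, s, t⟩ : G) ∈ Subgroup.closure S := by
      intro a s t
      have : (⟨0, a, s, t⟩ : G) = ⟨0, e 0, 0, 0⟩ ^ (a 0) * ⟨0, e 1, 0, 0⟩ ^ (a 1) *
          ⟨0, e 2, 0, 0⟩ ^ (a 2) * ⟨0, 0, s, t⟩ := by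
        simp only [zpow_eq]
        ext i <;> fin_cases i <;> simp [sm]
      rw [this]
      exact mul_mem (mul_mem (mul_mem (zpow_mem (hA 0) _) (zpow_mem (hA 1) _)) (zpow_mem (hA 2) _))
        (h3 s t)
    intro g
    set p : G := ⟨e 0, 0, 0, 0⟩ ^ (g.x 0) * ⟨e 1, 0, 0, 0⟩ ^ (g.x 1) *
          ⟨e 2, 0, 0, 0⟩ ^ (g.x 2) with hp
    have hpm : p ∈ Subgroup.closure S :=
      mul_mem (mul_mem (zpow_mem (hX 0) _) (zpow_mem (hX 1) _)) (zpow_mem (hX 2) _)
    have hpx : (p⁻¹ * g).x = 0 := by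
      rw [hp]
      simp only [zpow_eq]
      ext i
      fin_cases i <;> simp [sm]
    have h4 : p⁻¹ * g ∈ Subgroup.closure S := by
      have : p⁻¹ * g = ⟨0, (p⁻¹ * g).a, (p⁻¹ * g).s, (p⁻¹ * g).t⟩ := by
        rw [← hpx]
      rw [this]
      exact h2 _ _ _
    have : g = p * (p⁻¹ * g) := by rw [mul_inv_cancel_left]
    rw [this]
    exact mul_mem hpm h4
  · exact (((Set.finite_range _).union (Set.finite_range _)).union (Set.finite_range _)).union
      (Set.finite_range _)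

end Pool.Agent.R713.Tame
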