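import Pool.Agent.R713.TameField

/-!
# Every automorphism has an eigenvalue of modulus one
-/

set_option autoImplicit false

namespace Pool.Agent.R713.Tame

open scoped commutatorElement Matrix

theorem central_iff (g : G) : (∀ h, g * h = h * g) ↔ g.x = 0 ∧ g.a = 0 := by
  constructor
  · intro hg
    have h0 := congrArg G.a (hg ⟨e 0, 0, 0, 0⟩)
    have h1 := congrArg G.a (hg ⟨e 1, 0, 0, 0⟩)
    have a02 := congrFun h0 2
    have a01 := congrFun h0 1
    have a12 := congrFun h1 2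
    simp at a02 a01 a12
    have x0 : g.x 0 = 0 := by omega
    have x1 : g.x 1 = 0 := by omega
    have x2 : g.x 2 = 0 := by omega
    have hx : g.x = 0 := by
      ext i
      fin_cases i
      · exact x0
      · exact x1
      · exact x2
    refine ⟨hx, ?_⟩
    have hs := congrArg G.s (hg ⟨e 0, 0, 0, 0⟩)
    have ht := congrArg G.t (hg ⟨e 0, 0, 0, 0⟩)
    have s0 := congrFun hs 0
    have s1 := congrFun hs 1
    have t0 := congrFun ht 0
    simp [hx] at s0 s1 t0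
    ext i
    fin_cases i
    · change g.a 0 = 0
      omega
    · change g.a 1 = 0
      omega
    · change g.a 2 = 0
      omega
  · rintro ⟨hx, ha⟩ h
    ext i <;> fin_cases i <;> simp [hx, ha] <;> ring

variable (F : MulAut G)

theorem map_central {g : G} (hx : g.x = 0) (ha : g.a = 0) : (F g).x = 0 ∧ (F g).a = 0 := by
  rw [← central_iff]
  intro h
  have h1 := (central_iff g).2 ⟨hx, ha⟩ (F.symm h)
  have h2 := congrArg F h1
  rw [map_mul, map_mul, MulEquiv.apply_symm_apply] at h2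
  exact h2

theorem x_zero_of_cr {x : Fin 3 → ℤ} (h : ∀ y, cr x y = 0) : x = 0 := by
  have h0 := h (e 0)
  have h1 := h (e 1)
  have a02 := congrFun h0 2
  have a01 := congrFun h0 1
  have a12 := congrFun h1 2
  simp at a02 a01 a12
  ext i
  fin_cases i
  · exact a12
  · exact a02
  · exact a01

theorem map_second {g : G} (hx : g.x = 0) : (F g).x = 0 := by
  apply x_zero_of_cr
  intro y
  have h1 := comm_second g (F.symm ⟨y, 0, 0, 0⟩) hx
  have h2 : (F ⁅g, F.symm ⟨y, 0, 0, 0⟩⁆).a = 0 := (map_central F (by rw [h1]) (by rw [h1])).2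
  rw [map_commutatorElement, MulEquiv.apply_symm_apply, comm_a] at h2
  exact (smul_eq_zero.1 h2).resolve_left two_ne_zero

theorem map_sm (n : ℤ) (g : G) : F (sm n g) = sm n (F g) := by
  rw [← zpow_eq, map_zpow, zpow_eq]

/-- the columns of the matrix on the first layer -/
def col (j : Fin 3) : Fin 3 → ℤ := (F ⟨e j, 0, 0, 0⟩).x

/-- the columns of the matrix on the second layer -/
def col' (j : Fin 3) : Fin 3 → ℤ := (F ⟨0, e j, 0, 0⟩).a

theorem map_x (g : G) : (F g).x = g.x 0 • col F 0 + g.x 1 • col F 1 + g.x 2 • col F 2 := by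
  set p : G := sm (g.x 0) ⟨e 0, 0, 0, 0⟩ * sm (g.x 1) ⟨e 1, 0, 0, 0⟩ * sm (g.x 2) ⟨e 2, 0, 0, 0⟩
    with hp
  have hpx : (p⁻¹ * g).x = 0 := by
    rw [hp]
    ext i
    fin_cases i <;> simp [sm]
  have h1 : F g = F p * F (p⁻¹ * g) := by rw [← map_mul, mul_inv_cancel_left]
  have h2 := map_second F hpx
  rw [h1, mul_x, h2, add_zero, hp, map_mul, map_mul, map_sm, map_sm, map_sm]
  rfl

theorem map_a (g : G) (hg : g.x = 0) :
    (F g).a = g.a 0 • col' F 0 + g.a 1 • col' F 1 + g.a 2 • col' F 2 := by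
  set p : G := sm (g.a 0) ⟨0, e 0, 0, 0⟩ * sm (g.a 1) ⟨0, e 1, 0, 0⟩ * sm (g.a 2) ⟨0, e 2, 0, 0⟩
    with hp
  have hpx : (p⁻¹ * g).x = 0 := by
    rw [hp]
    ext i
    fin_cases i <;> simp [sm, hg]
  have hpa : (p⁻¹ * g).a = 0 := by
    rw [hp]
    ext i
    fin_cases i <;> simp [sm, hg]
  have h1 : F g = F p * F (p⁻¹ * g) := by rw [← map_mul, mul_inv_cancel_left]
  obtain ⟨h2, h3⟩ := map_central F hpx hpa
  have hz : ∀ j, (F ⟨0, e j, 0, 0⟩).x = 0 := fun j => map_second F rfl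
  rw [h1, mul_a, h2, h3, hp, map_mul, map_mul, map_sm, map_sm, map_sm]
  ext i
  fin_cases i <;> simp [sm, hz, col']

theorem hm_cr (x y : Fin 3 → ℤ) :
    (cr x y 0) • col' F 0 + (cr x y 1) • col' F 1 + (cr x y 2) • col' F 2 =
    cr (x 0 • col F 0 + x 1 • col F 1 + x 2 • col F 2)
      (y 0 • col F 0 + y 1 • col F 1 + y 2 • col F 2) := by
  have h1 := comm_a (F ⟨x, 0, 0, 0⟩) (F ⟨y, 0, 0, 0⟩)
  rw [← map_commutatorElement, map_a F _ (comm_x _ _), comm_a, map_x, map_x] at h1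
  simp only [Pi.smul_apply, smul_assoc, ← smul_add] at h1
  exact smul_right_injective _ two_ne_zero h1

theorem col'0 : col' F 0 = cr (col F 1) (col F 2) := by
  have := hm_cr F (e 1) (e 2)
  simpa [Pi.single_apply] using this

theorem col'1 : col' F 1 = cr (col F 2) (col F 0) := by
  have := hm_cr F (e 2) (e 0)
  simpa [Pi.single_apply] using this

theorem col'2 : col' F 2 = cr (col F 0) (col F 1) := by
  have := hm_cr F (e 0) (e 1)
  simpa [Pi.single_apply] using this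

theorem map_beta (x a : Fin 3 → ℤ) :
    F ⟨0, 0, bs x a, bt x a⟩ = ⟨0, 0, bs (x 0 • col F 0 + x 1 • col F 1 + x 2 • col F 2)
        (a 0 • col' F 0 + a 1 • col' F 1 + a 2 • col' F 2),
      bt (x 0 • col F 0 + x 1 • col F 1 + x 2 • col F 2)
        (a 0 • col' F 0 + a 1 • col' F 1 + a 2 • col' F 2)⟩ := by
  have h1 := comm_second (⟨0, a, 0, 0⟩ : G) ⟨x, 0, 0, 0⟩ rfl
  have h2 := congrArg F h1
  rw [map_commutatorElement, comm_second _ _ (map_second F rfl), map_x, map_a F _ rfl] at h2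
  have h3 : (⟨0, 0, -(6 : ℤ) • bs x a, -(6 : ℤ) • bt x a⟩ : G) =
      sm (-6) ⟨0, 0, bs x a, bt x a⟩ := by
    ext i <;> simp [sm]
  rw [h3, map_sm] at h2
  have hs := congrArg G.s h2
  have ht := congrArg G.t h2
  simp only [sm] at hs ht
  obtain ⟨hx, ha⟩ := map_central F (g := ⟨0, 0, bs x a, bt x a⟩) rfl rfl
  exact G.ext hx ha (smul_right_injective _ (by norm_num : (-6 : ℤ) ≠ 0) hs).symm
    (smul_right_injective _ (by norm_num : (-6 : ℤ) ≠ 0) ht).symm

theorem rel : bs (col F 1) (col' F 0) + bs (col F 2) (col' F 1) +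
      bs (col F 0 + col F 1) (col' F 2) = 0 ∧
    bt (col F 1) (col' F 0) + bt (col F 2) (col' F 1) + bt (col F 0 + col F 1) (col' F 2) = 0 := by
  have h : (⟨0, 0, bs (e 1) (e 0), bt (e 1) (e 0)⟩ : G) *
      ⟨0, 0, bs (e 2) (e 1), bt (e 2) (e 1)⟩ *
      ⟨0, 0, bs (e 0 + e 1) (e 2), bt (e 0 + e 1) (e 2)⟩ = 1 := by
    ext i <;> fin_cases i <;> simp
  have h2 := congrArg F h
  rw [map_mul, map_mul, map_beta, map_beta, map_beta, map_one] at h2
  have hs := congrArg G.s h2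
  have ht := congrArg G.t h2
  constructor
  · ext i
    have := congrFun hs i
    fin_cases i
    · simp at this ⊢
      linarith
    · simp at this ⊢
      linarith
    · simp at this ⊢
      linarith
  · ext i
    have := congrFun ht i
    fin_cases i
    · simp at this ⊢
      linarith
    · simp at this ⊢
      linarith
    · simp at this ⊢
      linarith

/-- the determinant of three vectors -/
def det3 (u v z : Fin 3 → ℤ) : ℤ :=
  u 0 * (v 1 * z 2 - v 2 * z 1) + u 1 * (v 2 * z 0 - v 0 * z 2) + u 2 * (v 0 * z 1 - v 1 * z 0)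

theorem det_unit : det3 (col F 0) (col F 1) (col F 2) = 1 ∨
    det3 (col F 0) (col F 1) (col F 2) = -1 := by
  have key : det3 (col F 0) (col F 1) (col F 2) *
      det3 (col F⁻¹ 0) (col F⁻¹ 1) (col F⁻¹ 2) = 1 := by
    have h : ∀ j, (col F⁻¹ j 0) • col F 0 + (col F⁻¹ j 1) • col F 1 + (col F⁻¹ j 2) • col F 2 =
        e j := by
      intro j
      have h1 := map_x F (F⁻¹ ⟨e j, 0, 0, 0⟩)
      rw [MulAut.apply_inv_self] at h1
      exact h1.symm
    have h0 := h 0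
    have h1 := h 1
    have h2 := h 2
    have a00 := congrFun h0 0
    have a01 := congrFun h0 1
    have a02 := congrFun h0 2
    have a10 := congrFun h1 0
    have a11 := congrFun h1 1
    have a12 := congrFun h1 2
    have a20 := congrFun h2 0
    have a21 := congrFun h2 1
    have a22 := congrFun h2 2
    simp at a00 a01 a02 a10 a11 a12 a20 a21 a22
    have : det3 (col F 0) (col F 1) (col F 2) * det3 (col F⁻¹ 0) (col F⁻¹ 1) (col F⁻¹ 2) =
        det3 (e 0) (e 1) (e 2) := by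
      rw [← h 0, ← h 1, ← h 2]
      simp only [det3, Pi.add_apply, Pi.smul_apply, smul_eq_mul]
      ring
    rw [this]
    simp [det3]
  exact Int.eq_one_or_neg_one_of_mul_eq_one key

/-- the matrix on the first layer commutes with `M` -/
theorem col_rel : col F 1 = f1 (col F 0) ∧ col F 2 = f1 (col F 1) := by
  obtain ⟨hs, ht⟩ := rel F
  rw [col'0, col'1, col'2] at hs ht
  have hd : (det3 (col F 0) (col F 1) (col F 2) : ℝ) ≠ 0 := by
    rcases det_unit F with h | h <;> rw [h] <;> norm_num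
  set a := col F 0 with ha
  set b := col F 1 with hb
  set c := col F 2 with hc
  -- `y j = ℓ (Y e_j)`
  let y : Fin 3 → ℝ := fun j => ell b * cr b c j + ell c * cr c a j + (ell a + ell b) * cr a b j
  have s0 := congrFun hs 0
  have s1 := congrFun hs 1
  have s2 := congrFun hs 2
  have t0 := congrFun ht 0
  have t1 := congrFun ht 1
  have t2 := congrFun ht 2
  simp only [Pi.add_apply, bs0, bs1, bs2, bt0, bt1, bt2, Pi.zero_apply] at s0 s1 s2 t0 t1 t2
  have r0 : ((cr b c 1 * b 0 - cr b c 0 * b 2 + (cr c a 1 * c 0 - cr c a 0 * c 2) +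
    (cr a b 1 * (a 0 + b 0) - cr a b 0 * (a 2 + b 2)) : ℤ) : ℝ) = 0 := by exact_mod_cast s0
  have r1 : ((cr b c 1 * b 1 - cr b c 0 * (b 0 + b 2) + (cr c a 1 * c 1 - cr c a 0 * (c 0 + c 2)) +
    (cr a b 1 * (a 1 + b 1) - cr a b 0 * (a 0 + b 0 + (a 2 + b 2))) : ℤ) : ℝ) = 0 := by
      exact_mod_cast s1
  have r2 : ((cr b c 1 * b 2 - cr b c 0 * b 1 + (cr c a 1 * c 2 - cr c a 0 * c 1) +
    (cr a b 1 * (a 2 + b 2) - cr a b 0 * (a 1 + b 1)) : ℤ) : ℝ) = 0 := by exact_mod_cast s2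
  have q0 : ((cr b c 2 * b 0 - cr b c 0 * b 1 + (cr c a 2 * c 0 - cr c a 0 * c 1) +
    (cr a b 2 * (a 0 + b 0) - cr a b 0 * (a 1 + b 1)) : ℤ) : ℝ) = 0 := by exact_mod_cast t0
  have q1 : ((cr b c 2 * b 1 - cr b c 0 * (b 1 + b 2) + (cr c a 2 * c 1 - cr c a 0 * (c 1 + c 2)) +
    (cr a b 2 * (a 1 + b 1) - cr a b 0 * (a 1 + b 1 + (a 2 + b 2))) : ℤ) : ℝ) = 0 := by
      exact_mod_cast t1
  have q2 : ((cr b c 2 * b 2 - cr b c 0 * (b 0 + b 2) + (cr c a 2 * c 2 - cr c a 0 * (c 0 + c 2)) +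
    (cr a b 2 * (a 2 + b 2) - cr a b 0 * (a 0 + b 0 + (a 2 + b 2))) : ℤ) : ℝ) = 0 := by
      exact_mod_cast t2
  push_cast at r0 r1 r2 q0 q1 q2
  have hr := rho_eq
  have y1 : y 1 = ρ * y 0 := by
    simp only [y, ell]
    linear_combination r0 + ρ * r1 + ρ ^ 2 * r2 - (cr b c 0 * b 2 + cr c a 0 * c 2 +
      cr a b 0 * (a 2 + b 2)) * hr
  have y2 : y 2 = ρ ^ 2 * y 0 := by
    simp only [y, ell]
    linear_combination q0 + ρ * q1 + ρ ^ 2 * q2 - (cr b c 0 * b 1 + cr c a 0 * c 1 +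
      cr a b 0 * (a 1 + b 1)) * hr - ρ * (cr b c 0 * b 2 + cr c a 0 * c 2 +
      cr a b 0 * (a 2 + b 2)) * hr
  set d : ℝ := ((det3 a b c : ℤ) : ℝ) with hdd
  have hd' : d = (a 0 : ℝ) * (b 1 * c 2 - b 2 * c 1) + a 1 * (b 2 * c 0 - b 0 * c 2) +
      a 2 * (b 0 * c 1 - b 1 * c 0) := by
    rw [hdd, det3]
    push_cast
    rfl
  have e0 : y 0 * ell a = d * ell b := by
    have h1 : y 0 * a 0 + y 1 * a 1 + y 2 * a 2 = d * ell b := by
      rw [hd']
      simp only [y, cr0, cr1, cr2]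
      push_cast
      ring
    rw [y1, y2] at h1
    rw [← h1, ell]
    ring
  have e1 : y 0 * ell b = d * ell c := by
    have h1 : y 0 * b 0 + y 1 * b 1 + y 2 * b 2 = d * ell c := by
      rw [hd']
      simp only [y, cr0, cr1, cr2]
      push_cast
      ring
    rw [y1, y2] at h1
    rw [← h1, ell]
    ring
  have e2 : y 0 * ell c = d * (ell a + ell b) := by
    have h1 : y 0 * c 0 + y 1 * c 1 + y 2 * c 2 = d * (ell a + ell b) := by
      rw [hd']
      simp only [y, cr0, cr1, cr2]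
      push_cast
      ring
    rw [y1, y2] at h1
    rw [← h1, ell]
    ring
  set κ := y 0 / d with hκ
  have k0 : ell b = κ * ell a := by rw [hκ]; field_simp; linarith
  have k1 : ell c = κ * ell b := by rw [hκ]; field_simp; linarith
  have k2 : ell a + ell b = κ * ell c := by rw [hκ]; field_simp; linarith
  have ha0 : ell a ≠ 0 := by
    intro h0
    have : a = 0 := ell_zero h0
    apply hd
    rw [hd', this]
    simp
  have hκ3 : κ ^ 3 = κ + 1 := by
    have : (κ ^ 3 - (κ + 1)) * ell a = 0 := by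
      rw [k1, k0] at k2
      linear_combination -k2
    rcases mul_eq_zero.1 this with h | h
    · linarith
    · exact absurd h ha0
  have hκρ := real_root_unique hκ3
  have hf1 : ∀ v, ell (f1 v) = ρ * ell v := by
    intro v
    have := ell_P1 1 v
    rw [pow_one, pow_one] at this
    exact this
  have hsub : ∀ u v, ell u = ell v → u = v := by
    intro u v h
    have : ell (u - v) = 0 := by
      simp only [ell, Pi.sub_apply] at h ⊢
      push_cast
      linarith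
    exact sub_eq_zero.1 (ell_zero this)
  constructor
  · apply hsub
    rw [hf1, k0, hκρ]
  · apply hsub
    rw [hf1, k1, hκρ]

/-- the complex functional attached to `w` -/
noncomputable def LL (v : Fin 3 → ℤ) : ℂ := v 0 + v 1 * w + v 2 * w ^ 2

/-- the conjugate root -/
noncomputable def wb : ℂ := ⟨-ρ / 2, -im⟩

/-- the complex functional on the second layer attached to the conjugate root -/
noncomputable def RR (a : Fin 3 → ℤ) : ℂ := a 0 + a 2 * wb + a 1 * wb ^ 2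

theorem wb_sum : (ρ : ℂ) + w + wb = 0 := by
  apply Complex.ext
  · simp [w, wb]
    ring
  · simp [w, wb]

theorem wb_mul : w * wb = (ρ : ℂ) ^ 2 - 1 := by
  have h1 := im_sq
  apply Complex.ext
  · simp [w, wb, pow_two]
    linear_combination h1
  · simp [w, wb, pow_two]
    ring

theorem rho_eqC : (ρ : ℂ) ^ 3 = ρ + 1 := by exact_mod_cast congrArg (fun x : ℝ => (x : ℂ)) rho_eq

theorem K1 : w * wb * (w + wb) = -1 := by
  have h1 := wb_sum
  have h2 := wb_mul
  have h3 := rho_eqC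
  have h4 : w + wb = -ρ := by linear_combination h1
  rw [h4, h2]
  linear_combination -h3

/-- the eigenfunctional on `γ₃` -/
noncomputable def eig (g : G) : ℂ := wb ^ 2 * LL g.s + wb * LL g.t

theorem LL_bs (x a : Fin 3 → ℤ) : LL (bs x a) = (a 1 - a 0 * w) * LL x := by
  simp only [LL, bs0, bs1, bs2]
  push_cast
  linear_combination (a 0 * x 2 : ℂ) * w_eq

theorem LL_bt (x a : Fin 3 → ℤ) : LL (bt x a) = (a 2 - a 0 * w ^ 2) * LL x := by
  simp only [LL, bt0, bt1, bt2]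
  push_cast
  linear_combination (a 0 * x 1 + a 0 * x 2 * w : ℂ) * w_eq

theorem eig_beta (x a : Fin 3 → ℤ) (n : ℤ) : eig ⟨0, 0, n • bs x a, n • bt x a⟩ =
    n * (LL x * RR a) := by
  have h1 : ∀ v, LL (n • v) = n * LL v := by
    intro v
    simp only [LL, Pi.smul_apply, smul_eq_mul]
    push_cast
    ring
  simp only [eig, h1, LL_bs, LL_bt, RR]
  linear_combination (-(n : ℂ) * LL x * a 0) * K1

/-- the eigenvalue -/
noncomputable def Lam : ℂ :=
  LL (col F 0) * (LL (col F 0) * (ell (col F 0) : ℂ))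

theorem LL_map (g : G) : LL (F g).x = LL (col F 0) * LL g.x := by
  obtain ⟨h1, h2⟩ := col_rel F
  have hf : ∀ v, LL (f1 v) = w * LL v := by
    intro v
    simp only [LL, f10, f11, f12]
    push_cast
    linear_combination (-(v 2 : ℂ)) * w_eq
  have hadd : ∀ u v, LL (u + v) = LL u + LL v := by
    intro u v
    simp only [LL, Pi.add_apply]
    push_cast
    ring
  have hsm : ∀ (n : ℤ) u, LL (n • u) = n * LL u := by
    intro n v
    simp only [LL, Pi.smul_apply, smul_eq_mul]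
    push_cast
    ring
  rw [map_x, hadd, hadd, hsm, hsm, hsm, h2, hf, h1, hf]
  conv_rhs => rw [LL, LL]
  conv_lhs => rw [LL]
  ring

theorem RR_map (g : G) (hg : g.x = 0) :
    RR (F g).a = LL (col F 0) * (ell (col F 0) : ℂ) * RR g.a := by
  obtain ⟨h1, h2⟩ := col_rel F
  have hadd : ∀ u v, RR (u + v) = RR u + RR v := by
    intro u v
    simp only [RR, Pi.add_apply]
    push_cast
    ring
  have hsm : ∀ (n : ℤ) u, RR (n • u) = n * RR u := by
    intro n v
    simp only [RR, Pi.smul_apply, smul_eq_mul]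
    push_cast
    ring
  have hwb : wb = -ρ - w := by linear_combination wb_sum
  have hr := rho_eqC
  rw [map_a F g hg, hadd, hadd, hsm, hsm, hsm, col'0, col'1, col'2, h2, h1]
  set p := col F 0 with hp
  have c12 : RR (cr (f1 p) (f1 (f1 p))) = LL p * (ell p : ℂ) := by
    simp only [RR, LL, ell, cr0, cr1, cr2, f10, f11, f12, hwb]
    push_cast
    linear_combination (-ρ ^ 2 * (p 2) ^ 2 - ρ * (p 1) * (p 2) - 2 * (p 0) * (p 2) + (p 1) ^ 2 - (p 2) ^ 2 : ℂ) * w_sum +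
      (ρ * (p 2) ^ 2 + w * (p 2) ^ 2 + (p 1) * (p 2) : ℂ) * hr
  have c20 : RR (cr (f1 (f1 p)) p) = LL p * (ell p : ℂ) * wb ^ 2 := by
    simp only [RR, LL, ell, cr0, cr1, cr2, f10, f11, f12, hwb]
    push_cast
    linear_combination (ρ ^ 4 * (p 2) ^ 2 - ρ ^ 3 * w * (p 2) ^ 2 - ρ ^ 2 * w ^ 2 * (p 2) ^ 2 - 2 * ρ ^ 2 * w * (p 1) * (p 2) - ρ ^ 2 * (p 1) ^ 2 - ρ ^ 2 * (p 2) ^ 2 - ρ * w ^ 2 * (p 1) * (p 2) - ρ * w * (p 0) * (p 2) - ρ * w * (p 1) ^ 2 - 2 * ρ * (p 0) * (p 1) - ρ * (p 1) * (p 2) - w ^ 2 * (p 0) * (p 2) - w * (p 0) * (p 1) - (p 1) * (p 2) : ℂ) * w_sum +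
      (-ρ ^ 3 * (p 2) ^ 2 + ρ * w * (p 1) * (p 2) - ρ * (p 0) * (p 2) + ρ * (p 1) ^ 2 + ρ * (p 2) ^ 2 - w * (p 0) * (p 2) + w * (p 1) ^ 2 + (p 0) * (p 1) + (p 1) * (p 2) - (p 2) ^ 2 : ℂ) * hr
  have c01 : RR (cr p (f1 p)) = LL p * (ell p : ℂ) * wb := by
    simp only [RR, LL, ell, cr0, cr1, cr2, f10, f11, f12, hwb]
    push_cast
    linear_combination (ρ ^ 2 * w * (p 2) ^ 2 + ρ ^ 2 * (p 1) * (p 2) + ρ * w * (p 1) * (p 2) + ρ * (p 1) ^ 2 + w * (p 0) * (p 2) + (p 2) ^ 2 : ℂ) * w_sum +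
      (-ρ * w * (p 2) ^ 2 - ρ * (p 1) * (p 2) - w * (p 1) * (p 2) + (p 0) * (p 2) - (p 1) ^ 2 : ℂ) * hr
  rw [c12, c20, c01]
  conv_rhs => rw [RR]
  ring

theorem norm_Lam : ‖Lam F‖ = 1 := by
  obtain ⟨h1, h2⟩ := col_rel F
  have hwb : wb = -ρ - w := by linear_combination wb_sum
  have hr := rho_eqC
  have hd := det_unit F
  rw [h2, h1] at hd
  rw [Lam]
  set p := col F 0 with hp
  have hnorm : (ell p : ℂ) * LL p * (p 0 + p 1 * wb + p 2 * wb ^ 2) =
      (det3 p (f1 p) (f1 (f1 p)) : ℂ) := by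
    simp only [LL, ell, det3, f10, f11, f12, hwb]
    push_cast
    linear_combination (-ρ ^ 4 * (p 2) ^ 3 + ρ ^ 3 * w * (p 2) ^ 3 + ρ ^ 2 * w ^ 2 * (p 2) ^ 3 + ρ ^ 2 * w * (p 1) * (p 2) ^ 2 + ρ ^ 2 * (p 0) * (p 2) ^ 2 + ρ ^ 2 * (p 2) ^ 3 + ρ * w ^ 2 * (p 1) * (p 2) ^ 2 + ρ * w * (p 0) * (p 2) ^ 2 + 3 * ρ * (p 0) * (p 1) * (p 2) - ρ * (p 1) ^ 3 + ρ * (p 1) * (p 2) ^ 2 + w ^ 2 * (p 0) * (p 2) ^ 2 + 2 * (p 0) ^ 2 * (p 2) - (p 0) * (p 1) ^ 2 + (p 0) * (p 2) ^ 2 : ℂ) * w_sum +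
      (ρ ^ 3 * (p 2) ^ 3 - ρ * (p 2) ^ 3 - 3 * (p 0) * (p 1) * (p 2) + (p 1) ^ 3 - (p 1) * (p 2) ^ 2 + (p 2) ^ 3 : ℂ) * hr
  have hconj : ((p 0 : ℂ) + p 1 * wb + p 2 * wb ^ 2) = (starRingEnd ℂ) (LL p) := by
    have hw : (starRingEnd ℂ) w = wb := by
      apply Complex.ext <;> simp [w, wb]
    simp only [LL, map_add, map_mul, map_pow, hw]
    simp
  have h3 := congrArg norm hnorm
  rw [hconj, norm_mul, norm_mul, RCLike.norm_conj] at h3
  have h4 : ‖((det3 p (f1 p) (f1 (f1 p)) : ℤ) : ℂ)‖ = 1 := by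
    rcases hd with h | h <;> rw [h] <;> simp
  rw [h4] at h3
  rw [norm_mul, norm_mul, ← h3]
  ring

/-- `γ₃` -/
theorem eig_gamma : ∀ g ∈ Subgroup.lowerCentralSeries (⊤ : Subgroup G) 2,
    (g.x = 0 ∧ g.a = 0) ∧ eig (F g) = Lam F * eig g := by
  intro g hg
  have hle1 : ∀ p ∈ Subgroup.lowerCentralSeries (⊤ : Subgroup G) 1, p.x = 0 := by
    intro p hp
    exact Subgroup.descending_central_series_ge_lower ser ser_desc 1 hp
  have hmul : ∀ g h : G, (g.x = 0 ∧ g.a = 0) → (h.x = 0 ∧ h.a = 0) →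
      eig (g * h) = eig g + eig h := by
    rintro g h ⟨hg, hg'⟩ ⟨hh, hh'⟩
    simp only [eig, LL, mul_s, mul_t, hg, hg', hh, hh']
    simp
    ring
  have hinv : ∀ g : G, eig (g⁻¹) = -eig g := by
    intro g
    simp only [eig, LL, inv_s, inv_t, Pi.neg_apply]
    push_cast
    ring
  rw [Subgroup.mem_lowerCentralSeries_succ_iff] at hg
  induction hg using Subgroup.closure_induction with
  | mem x hx =>
    obtain ⟨p, hp, q, -, rfl⟩ := hx
    have h1 := hle1 p hp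
    have h2 := comm_second p q h1
    refine ⟨⟨by rw [h2], by rw [h2]⟩, ?_⟩
    rw [map_commutatorElement, comm_second (F p) (F q) (map_second F h1), h2, eig_beta, eig_beta,
      LL_map, RR_map F p h1, Lam]
    ring
  | one =>
    refine ⟨⟨rfl, rfl⟩, ?_⟩
    rw [map_one]
    simp [eig, LL]
  | mul x y _ _ hx hy =>
    refine ⟨?_, ?_⟩
    · constructor
      · rw [mul_x, hx.1.1, hy.1.1, add_zero]
      · rw [mul_a, hx.1.2, hy.1.2, hx.1.1]
        ext i
        fin_cases i <;> simp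
    · rw [map_mul, hmul _ _ (map_central F hx.1.1 hx.1.2) (map_central F hy.1.1 hy.1.2),
        hmul _ _ hx.1 hy.1, hx.2, hy.2]
      ring
  | inv x _ hx =>
    refine ⟨⟨by rw [inv_x, hx.1.1, neg_zero], by rw [inv_a, hx.1.2, neg_zero]⟩, ?_⟩
    rw [map_inv, hinv, hinv, hx.2]
    ring

theorem eig_mul (g h : G) (hg : g ∈ Subgroup.lowerCentralSeries (⊤ : Subgroup G) 2)
    (hh : h ∈ Subgroup.lowerCentralSeries (⊤ : Subgroup G) 2) : eig (g * h) = eig g + eig h := by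
  obtain ⟨⟨hg, hg'⟩, -⟩ := eig_gamma 1 g hg
  obtain ⟨⟨hh, hh'⟩, -⟩ := eig_gamma 1 h hh
  simp only [eig, LL, mul_s, mul_t, hg, hg', hh, hh']
  simp
  ring

theorem eig_last (g : G) (hg : g ∈ Subgroup.lowerCentralSeries (⊤ : Subgroup G) 3) :
    eig g = 0 := by
  have h1 : g = 1 := Subgroup.mem_bot.1 (Subgroup.descending_central_series_ge_lower ser ser_desc 3 hg)
  rw [h1]
  simp [eig, LL]

theorem eig_ne : ∃ g ∈ Subgroup.lowerCentralSeries (⊤ : Subgroup G) 2, eig g ≠ 0 := by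
  refine ⟨⁅⁅(⟨e 1, 0, 0, 0⟩ : G), (⟨e 2, 0, 0, 0⟩ : G)⁆, (⟨e 0, 0, 0, 0⟩ : G)⁆, ?_, ?_⟩
  · exact Subgroup.commutator_mem_commutator
      (Subgroup.commutator_mem_commutator (Subgroup.mem_top _) (Subgroup.mem_top _))
      (Subgroup.mem_top _)
  · rw [comm_second _ _ (comm_x _ _), eig_beta, comm_a]
    simp [LL, RR]

end Pool.Agent.R713.Tame
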