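import Pool.Agent.R713.OfBases

/-!
# Irreducible modules for the equitable `U_q(sl₂)` and bidiagonal forms
-/

set_option autoImplicit false

namespace Pool.Agent.R713

open Module Polynomial

section

variable {K V : Type*} [Field K] [AddCommGroup V] [Module K V]

/-- ladders: eigenvectors obtained by repeated application of a map -/
theorem ladder [Module.Finite K V] {d : ℕ} (hd : finrank K V = d + 1) (Y N : Module.End K V)
    (e : ℕ → V) (y : ℕ → K) (hy : Function.Injective y) (_h0 : e 0 ≠ 0)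
    (hN : ∀ i, e (i + 1) = N (e i)) (hY : ∀ i, Y (e i) = y i • e i)
    (hspan : Submodule.span K (Set.range e) = ⊤) :
    (∀ i, i ≤ d → e i ≠ 0) ∧ (∀ i, d < i → e i = 0) := by
  have hz : ∀ i j, e i = 0 → e (i + j) = 0 := by
    intro i j hi
    induction j with
    | zero => exact hi
    | succ j ih => rw [← add_assoc, hN, ih, map_zero]
  -- independence
  have hli : ∀ m, (∀ i < m, e i ≠ 0) → LinearIndependent K (fun i : Fin m => e i) := by
    intro m hm
    refine Module.End.eigenvectors_linearIndependent' Y (fun i : Fin m => y i)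
      (fun i j hij => Fin.ext (hy hij)) _ ?_
    intro i
    exact Module.End.hasEigenvector_iff.2
      ⟨Module.End.mem_eigenspace_iff.2 (hY i), hm i i.isLt⟩
  have hex : ∃ m, e m = 0 := by
    by_contra hcon
    push Not at hcon
    have h1 := hli (d + 2) (fun i _ => hcon i)
    have h2 := h1.fintype_card_le_finrank
    rw [Fintype.card_fin, hd] at h2
    omega
  classical
  let m := Nat.find hex
  have hm0 : e m = 0 := Nat.find_spec hex
  have hlt : ∀ i < m, e i ≠ 0 := fun i hi => Nat.find_min hex hi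
  have hge : ∀ i, m ≤ i → e i = 0 := by
    intro i hi
    obtain ⟨j, rfl⟩ := Nat.exists_eq_add_of_le hi
    exact hz m j hm0
  have h1 := hli m hlt
  have h2 : Submodule.span K (Set.range (fun i : Fin m => e i)) = ⊤ := by
    rw [eq_top_iff, ← hspan, Submodule.span_le]
    rintro _ ⟨i, rfl⟩
    by_cases hi : i < m
    · exact Submodule.subset_span ⟨⟨i, hi⟩, rfl⟩
    · rw [hge i (by omega)]
      exact Submodule.zero_mem _
  have h3 : m = d + 1 := by
    have h4 := finrank_eq_card_basis (Basis.mk h1 h2.ge)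
    rw [Fintype.card_fin, hd] at h4
    exact h4.symm
  exact ⟨fun i hi => hlt i (by omega), fun i hi => hge i (by omega)⟩

theorem PrimIdem.E_eq_aeval {d : ℕ} {A : Module.End K V} {θ : Fin (d + 1) → K}
    {E : Fin (d + 1) → Module.End K V} (h : PrimIdem d A θ E) (k : Fin (d + 1)) (x : V) :
    E k x = aeval A (Lagrange.basis Finset.univ θ k) x := by
  classical
  conv_rhs => rw [← h.sum_apply x]
  rw [map_sum, Finset.sum_eq_single k]
  · rw [h.aeval_E, Lagrange.eval_basis_self h.inj.injOn (Finset.mem_univ _), one_smul]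
  · intro j _ hj
    rw [h.aeval_E, Lagrange.eval_basis_of_ne (Ne.symm hj) (Finset.mem_univ _), zero_smul]
  · intro h'
    exact absurd (Finset.mem_univ k) h'

theorem aeval_mem_of_invariant (A : Module.End K V) (W : Submodule K V) (hW : ∀ w ∈ W, A w ∈ W)
    (p : K[X]) (w : V) (hw : w ∈ W) : aeval A p w ∈ W := by
  induction p using Polynomial.induction_on' with
  | add p q hp hq => rw [map_add, LinearMap.add_apply]; exact W.add_mem hp hq
  | monomial n c =>
    rw [aeval_monomial, Module.End.mul_apply, Module.algebraMap_end_apply]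
    refine W.smul_mem _ ?_
    induction n with
    | zero => simpa using hw
    | succ n ih => rw [pow_succ', Module.End.mul_apply]; exact hW _ ih

/-- a nonzero `B`-invariant subspace on which `B` commutes with `Y` contains a common eigenvector -/
theorem PrimIdem.common [Module.Finite K V] {d : ℕ} {B : Module.End K V} {θs : Fin (d + 1) → K}
    {Es : Fin (d + 1) → Module.End K V} (h : PrimIdem d B θs Es) (hd : finrank K V = d + 1)
    (W : Submodule K V) (hW : W ≠ ⊥) (hB : ∀ w ∈ W, B w ∈ W) (Y : Module.End K V)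
    (hBY : ∀ w ∈ W, B (Y w) = Y (B w)) : ∃ w ∈ W, w ≠ 0 ∧ ∃ y0 : K, Y w = y0 • w := by
  obtain ⟨x, hx, hx0⟩ := Submodule.exists_mem_ne_zero_of_ne_bot hW
  obtain ⟨k, hk⟩ : ∃ k, Es k x ≠ 0 := by
    by_contra hcon
    push Not at hcon
    exact hx0 (h.eq_zero x hcon)
  have hwW : Es k x ∈ W := by
    rw [h.E_eq_aeval k x]
    exact aeval_mem_of_invariant B W hB _ x hx
  have h1 : B (Y (Es k x)) = θs k • Y (Es k x) := by
    rw [hBY _ hwW, h.eig_apply, map_smul]
  have h2 : ∀ j, j ≠ k → Es j (Y (Es k x)) = 0 := by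
    intro j hj
    have h3 := h.E_aeval X j (Y (Es k x))
    rw [aeval_X, eval_X, h1, map_smul] at h3
    have h4 : (θs k - θs j) • Es j (Y (Es k x)) = 0 := by rw [sub_smul, h3, sub_self]
    rcases smul_eq_zero.1 h4 with h5 | h5
    · exact absurd (h.inj (sub_eq_zero.1 h5)).symm hj
    · exact h5
  have h3 : Y (Es k x) = Es k (Y (Es k x)) := by
    conv_lhs => rw [← h.sum_apply (Y (Es k x))]
    rw [Finset.sum_eq_single k]
    · exact fun j _ hj => h2 j hj
    · intro h'
      exact absurd (Finset.mem_univ k) h'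
  obtain ⟨c, hc⟩ := h.smul_of_line hd k x (Y (Es k x)) hk
  exact ⟨Es k x, hwW, hk, c, by rw [h3, hc]⟩

/-- `X, Xi = X⁻¹, Y, Z` satisfy the equitable relations of `U_q(sl₂)` -/
structure Equitable (q : K) (X Xi Y Z : Module.End K V) : Prop where
  inv : X * Xi = 1
  inv' : Xi * X = 1
  xy : (q - q⁻¹)⁻¹ • (q • (X * Y) - q⁻¹ • (Y * X)) = 1
  yz : (q - q⁻¹)⁻¹ • (q • (Y * Z) - q⁻¹ • (Z * Y)) = 1
  zx : (q - q⁻¹)⁻¹ • (q • (Z * X) - q⁻¹ • (X * Z)) = 1

/-- no proper nonzero subspace is invariant under `X, Xi, Y, Z` -/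
def Irr (X Xi Y Z : Module.End K V) : Prop :=
  ∀ W : Submodule K V, (∀ w ∈ W, X w ∈ W ∧ Xi w ∈ W ∧ Y w ∈ W ∧ Z w ∈ W) → W = ⊥ ∨ W = ⊤

/-- `T` is a linear combination of `I, X, Y, X Y` -/
def Comb (X Y T : Module.End K V) : Prop :=
  ∃ a b c e : K, T = a • 1 + b • X + c • Y + e • (X * Y)

namespace Equitable

variable {q : K} {X Xi Y Z : Module.End K V}

theorem rel_aux (hq : q ≠ 0) (hq2 : q ^ 2 ≠ 1) (S T : Module.End K V)
    (h : (q - q⁻¹)⁻¹ • (q • (S * T) - q⁻¹ • (T * S)) = 1) (v : V) :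
    T (S v) = q ^ 2 • S (T v) - (q ^ 2 - 1) • v := by
  have hne : q - q⁻¹ ≠ 0 := by
    intro h0
    apply hq2
    have : q * (q - q⁻¹) = 0 := by rw [h0, mul_zero]
    rw [mul_sub, mul_inv_cancel₀ hq] at this
    linear_combination this
  have h1 : q • (S * T) - q⁻¹ • (T * S) = (q - q⁻¹) • (1 : Module.End K V) := by
    rw [← h, smul_smul, mul_inv_cancel₀ hne, one_smul]
  have h2 := DFunLike.congr_fun h1 v
  simp only [LinearMap.sub_apply, LinearMap.smul_apply, Module.End.mul_apply,
    Module.End.one_apply] at h2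
  have h3 := congrArg (fun w => q • w) h2
  simp only [smul_sub, smul_smul, mul_inv_cancel₀ hq, one_smul] at h3
  have h4 : T (S v) = (q * q) • S (T v) - (q * (q - q⁻¹)) • v := by
    rw [← h3]
    abel
  rw [h4, mul_sub, mul_inv_cancel₀ hq, pow_two]

end Equitable

/-- the data of an irreducible module, in a bidiagonal basis -/
theorem uq_bidiag {d : ℕ} {q : K} {X Xi Y Z : Module.End K V} (hq : q ≠ 0)
    (hroot : ∀ n : ℕ, 0 < n → q ^ n ≠ 1) (hE : Equitable q X Xi Y Z) (hI : Irr X Xi Y Z)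
    {A B : Module.End K V} {θ θs : Fin (d + 1) → K} {E Es : Fin (d + 1) → Module.End K V}
    (h : LeonardSystem d A B θ θs E Es) (a₀ a₁ a₂ a₃ b₀ b₁ b₂ b₃ : K)
    (hA : A = a₀ • 1 + a₁ • X + a₂ • Y + a₃ • (X * Y))
    (hB : B = b₀ • 1 + b₁ • Y + b₂ • Z + b₃ • (Y * Z)) :
    ∃ (e : ℕ → V) (a b : ℕ → K) (y c : ℕ → K), y 0 ≠ 0 ∧ (∀ i, y (i + 1) = q ^ 2 * y i) ∧
      c 0 = 0 ∧ (∀ i, c (i + 1) = q ^ 2 * c i + (1 - (q ^ 2)⁻¹) * (y i ^ 2 - 1)) ∧ c (d + 1) = 0 ∧
      Bidiag d A B e a b (fun i => -(a₁ / y i + a₃))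
        (fun i => -(c (i + 1) * (b₂ / y i + b₃))) := by
  have hfin := h.finite
  have hq2 : q ^ 2 ≠ 1 := hroot 2 (by norm_num)
  have hq2' : q ^ 2 ≠ 0 := pow_ne_zero _ hq
  have rXY : ∀ v, Y (X v) = q ^ 2 • X (Y v) - (q ^ 2 - 1) • v :=
    Equitable.rel_aux hq hq2 X Y hE.xy
  have rYZ : ∀ v, Z (Y v) = q ^ 2 • Y (Z v) - (q ^ 2 - 1) • v :=
    Equitable.rel_aux hq hq2 Y Z hE.yz
  have rZX : ∀ v, X (Z v) = q ^ 2 • Z (X v) - (q ^ 2 - 1) • v :=
    Equitable.rel_aux hq hq2 Z X hE.zx
  have hXinj : ∀ v, X v = 0 → v = 0 := by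
    intro v hv
    have := DFunLike.congr_fun hE.inv' v
    simp only [Module.End.mul_apply, Module.End.one_apply, hv, map_zero] at this
    exact this.symm
  have hpow : ∀ m n : ℕ, (q ^ 2) ^ m = (q ^ 2) ^ n → m = n := by
    intro m n hmn
    by_contra hne
    rcases lt_or_gt_of_ne hne with h1 | h1
    · have h2 : (q ^ 2) ^ (n - m) = 1 := by
        have : (q ^ 2) ^ m * (q ^ 2) ^ (n - m) = (q ^ 2) ^ m * 1 := by
          rw [← pow_add, Nat.add_sub_cancel' h1.le, mul_one, hmn]
        exact mul_left_cancel₀ (pow_ne_zero _ hq2') this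
      exact hroot (2 * (n - m)) (by omega) (by rw [pow_mul]; exact h2)
    · have h2 : (q ^ 2) ^ (m - n) = 1 := by
        have : (q ^ 2) ^ n * (q ^ 2) ^ (m - n) = (q ^ 2) ^ n * 1 := by
          rw [← pow_add, Nat.add_sub_cancel' h1.le, mul_one, hmn]
        exact mul_left_cancel₀ (pow_ne_zero _ hq2') this
      exact hroot (2 * (m - n)) (by omega) (by rw [pow_mul]; exact h2)
  let N : Module.End K V := 1 - X * Y
  let M : Module.End K V := 1 - Y * Z
  have hNdef : ∀ v, N v = v - X (Y v) := fun v => rfl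
  have hMdef : ∀ v, M v = v - Y (Z v) := fun v => rfl
  -- `Y` is injective
  have hYinj : ∀ v, Y v = 0 → v = 0 := by
    intro w hw
    by_contra hw0
    -- `N X^k w = q^(2k) X^k w`
    have h1 : ∀ k : ℕ, (X ^ k) w ≠ 0 := by
      intro k
      induction k with
      | zero => simpa using hw0
      | succ k ih =>
        rw [pow_succ', Module.End.mul_apply]
        exact fun h' => ih (hXinj _ h')
    have h2 : ∀ v, N (X v) = q ^ 2 • X (N v) := by
      intro v
      rw [hNdef, hNdef, rXY v]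
      simp only [map_sub, map_smul, smul_sub, sub_smul, one_smul]
      abel
    have h3 : ∀ k : ℕ, N ((X ^ k) w) = (q ^ 2) ^ k • (X ^ k) w := by
      intro k
      induction k with
      | zero => rw [pow_zero, pow_zero, Module.End.one_apply, hNdef, hw, map_zero, sub_zero, one_smul]
      | succ k ih =>
        rw [pow_succ' X, Module.End.mul_apply, h2, ih, map_smul, smul_smul, ← pow_succ' (q ^ 2)]
    have h4 := Module.End.eigenvectors_linearIndependent' N (fun k : Fin (d + 2) => (q ^ 2) ^ (k : ℕ))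
      (fun i j hij => Fin.ext (hpow _ _ hij)) (fun k : Fin (d + 2) => (X ^ (k : ℕ)) w)
      (fun k => Module.End.hasEigenvector_iff.2
        ⟨Module.End.mem_eigenspace_iff.2 (h3 k), h1 k⟩)
    have h5 := h4.fintype_card_le_finrank
    rw [Fintype.card_fin, h.dim] at h5
    omega
  have hMY : ∀ v, M (Y v) = q ^ 2 • Y (M v) := by
    intro v
    rw [hMdef, hMdef, rYZ v]
    simp only [map_sub, map_smul, smul_sub, sub_smul, one_smul]
    abel
  have hZM : ∀ v, Z (M v) = q ^ 2 • M (Z v) := by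
    intro v
    rw [hMdef, hMdef, map_sub, rYZ (Z v)]
    simp only [smul_sub, sub_smul, one_smul]
    abel
  have hYN : ∀ v, Y (N v) = q ^ 2 • N (Y v) := by
    intro v
    rw [hNdef, hNdef, map_sub, rXY (Y v)]
    simp only [smul_sub, sub_smul, one_smul]
    abel
  -- `ker M ≠ 0`
  have hkerM : LinearMap.ker M ≠ ⊥ := by
    intro h0
    have d1 : LinearMap.det M ≠ 0 := fun h' => (LinearMap.det_eq_zero_iff_ker_ne_bot.1 h') h0
    have d2 : LinearMap.det Y ≠ 0 := fun h' => (LinearMap.det_eq_zero_iff_ker_ne_bot.1 h')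
      (LinearMap.ker_eq_bot'.2 hYinj)
    have h1 : M * Y = q ^ 2 • (Y * M) := LinearMap.ext hMY
    have h2 := congrArg LinearMap.det h1
    rw [LinearMap.det_smul, h.dim] at h2
    have h3 : LinearMap.det (M * Y) = LinearMap.det M * LinearMap.det Y := map_mul _ _ _
    have h4 : LinearMap.det (Y * M) = LinearMap.det Y * LinearMap.det M := map_mul _ _ _
    rw [h3, h4] at h2
    have h5 : (q ^ 2) ^ (d + 1) = 1 := by
      have : (LinearMap.det Y * LinearMap.det M) * (q ^ 2) ^ (d + 1) =
          (LinearMap.det Y * LinearMap.det M) * 1 := by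
        rw [mul_one, mul_comm, ← h2, mul_comm]
      exact mul_left_cancel₀ (mul_ne_zero d2 d1) this
    exact hroot (2 * (d + 1)) (by omega) (by rw [pow_mul]; exact h5)
  have kM : ∀ v, v ∈ LinearMap.ker M → Y (Z v) = v ∧ Z (Y v) = v := by
    intro v hv
    rw [LinearMap.mem_ker, hMdef, sub_eq_zero] at hv
    refine ⟨hv.symm, ?_⟩
    rw [rYZ v, ← hv]
    rw [← sub_smul]
    have : q ^ 2 - (q ^ 2 - 1) = 1 := by ring
    rw [this, one_smul]
  have kY : ∀ v ∈ LinearMap.ker M, Y v ∈ LinearMap.ker M := by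
    intro v hv
    rw [LinearMap.mem_ker] at hv ⊢
    rw [hMY, hv, map_zero, smul_zero]
  have kZ : ∀ v ∈ LinearMap.ker M, Z v ∈ LinearMap.ker M := by
    intro v hv
    rw [LinearMap.mem_ker] at hv ⊢
    have := hZM v
    rw [hv, map_zero] at this
    exact (smul_eq_zero.1 this.symm).resolve_left hq2'
  have hBv : ∀ v, B v = b₀ • v + b₁ • Y v + b₂ • Z v + b₃ • Y (Z v) := by
    intro v
    rw [hB]
    rfl
  have hAv : ∀ v, A v = a₀ • v + a₁ • X v + a₂ • Y v + a₃ • X (Y v) := by
    intro v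
    rw [hA]
    rfl
  obtain ⟨w, hwM, hw0, y0, hy0⟩ := h.primB.common h.dim (LinearMap.ker M) hkerM
    (by
      intro v hv
      rw [hBv]
      exact Submodule.add_mem _ (Submodule.add_mem _ (Submodule.add_mem _
        (Submodule.smul_mem _ _ hv) (Submodule.smul_mem _ _ (kY v hv)))
        (Submodule.smul_mem _ _ (kZ v hv))) (Submodule.smul_mem _ _ (kY _ (kZ v hv))))
    Y (by
      intro v hv
      rw [hBv, hBv, (kM v hv).2]
      simp only [map_add, map_smul]
      rw [(kM v hv).1])
  have hy00 : y0 ≠ 0 := by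
    rintro rfl
    rw [zero_smul] at hy0
    exact hw0 (hYinj w hy0)
  let e : ℕ → V := fun i => (N ^ i) w
  let y : ℕ → K := fun i => (q ^ 2) ^ i * y0
  have he0 : e 0 = w := by simp [e]
  have hesucc : ∀ i, e (i + 1) = N (e i) := by
    intro i
    show (N ^ (i + 1)) w = N ((N ^ i) w)
    rw [pow_succ', Module.End.mul_apply]
  have hysucc : ∀ i, y (i + 1) = q ^ 2 * y i := by
    intro i
    show (q ^ 2) ^ (i + 1) * y0 = q ^ 2 * ((q ^ 2) ^ i * y0)
    ring
  have hy0' : y 0 = y0 := by simp [y]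
  have hyne : ∀ i, y i ≠ 0 := fun i => mul_ne_zero (pow_ne_zero _ hq2') hy00
  have hyinj : Function.Injective y := by
    intro i j hij
    exact hpow _ _ (mul_right_cancel₀ hy00 hij)
  have hYe : ∀ i, Y (e i) = y i • e i := by
    intro i
    induction i with
    | zero => rw [he0, hy0', hy0]
    | succ i ih => rw [hesucc, hYN, ih, map_smul, smul_smul, hysucc]
  -- `M N = q² N M + (1 - q⁻²) (Y² - 1)`
  have hMN : ∀ v, M (N v) = q ^ 2 • N (M v) + (1 - (q ^ 2)⁻¹) • (Y (Y v) - v) := by
    intro v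
    -- apply `Y` to the relation at `Y v`
    have h1 := congrArg Y (rZX (Y v))
    -- `Y X Z Y v = q² Y Z X Y v - (q²-1) Y Y v`
    have e1 : X (Y v) = v - N v := by rw [hNdef]; abel
    have e2 : Z (Y v) = v - q ^ 2 • M v := by
      rw [rYZ v, hMdef]
      simp only [smul_sub, sub_smul, one_smul]
      abel
    have e3 : ∀ u, Y (X u) = u - q ^ 2 • N u := by
      intro u
      rw [rXY u, hNdef]
      simp only [smul_sub, sub_smul, one_smul]
      abel
    have e4 : ∀ u, Y (Z u) = u - M u := by intro u; rw [hMdef]; abel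
    rw [e1, e2, map_sub Y, map_smul Y, e3, e4] at h1
    simp only [map_sub, map_smul, smul_sub, sub_smul, one_smul] at h1
    -- solve for `M (N v)`
    have h2 : q ^ 2 • M (N v) = q ^ 2 • (q ^ 2 • N (M v) + (1 - (q ^ 2)⁻¹) • (Y (Y v) - v)) := by
      rw [smul_add, smul_smul (q ^ 2) (1 - (q ^ 2)⁻¹), mul_sub, mul_one, mul_inv_cancel₀ hq2']
      simp only [smul_sub, sub_smul, one_smul]
      have h3 : q ^ 2 • M (N v) = (q ^ 2 • v - q ^ 2 • N v - (q ^ 2 • M v - q ^ 2 • M (N v)) -
          (q ^ 2 • Y (Y v) - Y (Y v))) - q ^ 2 • v + q ^ 2 • N v + q ^ 2 • M v +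
            (q ^ 2 • Y (Y v) - Y (Y v)) := by abel
      rw [h3, ← h1]
      abel
    exact smul_right_injective V hq2' h2
  -- the coefficients
  let c : ℕ → K := fun i => Nat.rec 0 (fun j cj => q ^ 2 * cj + (1 - (q ^ 2)⁻¹) * (y j ^ 2 - 1)) i
  have hc0 : c 0 = 0 := rfl
  have hcsucc : ∀ i, c (i + 1) = q ^ 2 * c i + (1 - (q ^ 2)⁻¹) * (y i ^ 2 - 1) := fun i => rfl
  have hMe0 : M (e 0) = 0 := by rw [he0]; exact hwM
  have hMe : ∀ i, M (e (i + 1)) = c (i + 1) • e i := by
    intro i
    induction i with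
    | zero =>
      rw [hesucc, hMN, hMe0, map_zero, smul_zero, zero_add, hYe, map_smul, hYe, hcsucc, hc0]
      module
    | succ i ih =>
      rw [hesucc (i + 1), hMN, ih, map_smul, ← hesucc i, hYe, map_smul, hYe, hcsucc (i + 1)]
      module
  have hXe : ∀ i, X (e i) = (y i)⁻¹ • (e i - e (i + 1)) := by
    intro i
    have h1 : X (Y (e i)) = e i - e (i + 1) := by
      rw [hesucc, hNdef]
      abel
    rw [← h1, hYe, map_smul, smul_smul, inv_mul_cancel₀ (hyne i), one_smul]
  have hZe : ∀ i, Z (e (i + 1)) = (y (i + 1))⁻¹ • e (i + 1) - (c (i + 1) * (y i)⁻¹) • e i := by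
    intro i
    have h1 : Y (Z (e (i + 1)) - ((y (i + 1))⁻¹ • e (i + 1) - (c (i + 1) * (y i)⁻¹) • e i)) = 0 := by
      have h2 : Y (Z (e (i + 1))) = e (i + 1) - c (i + 1) • e i := by
        rw [← hMe i, hMdef]
        abel
      simp only [map_sub, map_smul, h2, hYe, smul_smul]
      rw [inv_mul_cancel₀ (hyne _), mul_assoc, inv_mul_cancel₀ (hyne _), mul_one, one_smul, sub_self]
    exact sub_eq_zero.1 (hYinj _ h1)
  have hZe0 : Z (e 0) = (y 0)⁻¹ • e 0 := by
    have h1 : Y (Z (e 0) - (y 0)⁻¹ • e 0) = 0 := by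
      have h2 : Y (Z (e 0)) = e 0 := by
        have := hMe0
        rw [hMdef, sub_eq_zero] at this
        exact this.symm
      rw [map_sub, map_smul, h2, hYe, smul_smul, inv_mul_cancel₀ (hyne _), one_smul, sub_self]
    exact sub_eq_zero.1 (hYinj _ h1)
  -- the span is everything
  have hmem : ∀ i, e i ∈ Submodule.span K (Set.range e) := fun i => Submodule.subset_span ⟨i, rfl⟩
  have hspan : Submodule.span K (Set.range e) = ⊤ := by
    have hWX : ∀ v ∈ Submodule.span K (Set.range e), X v ∈ Submodule.span K (Set.range e) := by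
      intro v hv
      refine Submodule.span_induction ?_ ?_ ?_ ?_ hv
      · rintro _ ⟨i, rfl⟩
        rw [hXe]
        exact Submodule.smul_mem _ _ (Submodule.sub_mem _ (hmem _) (hmem _))
      · rw [map_zero]; exact Submodule.zero_mem _
      · intro u v _ _ hu hv
        rw [map_add]; exact Submodule.add_mem _ hu hv
      · intro t v _ hv
        rw [map_smul]; exact Submodule.smul_mem _ _ hv
    have hWXi : ∀ v ∈ Submodule.span K (Set.range e), Xi v ∈ Submodule.span K (Set.range e) := by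
      intro v hv
      let X' : Submodule.span K (Set.range e) →ₗ[K] Submodule.span K (Set.range e) :=
        X.restrict hWX
      have hinj : Function.Injective X' := by
        intro u v huv
        apply Subtype.ext
        have h1 : X (u : V) = X (v : V) := congrArg Subtype.val huv
        have h2 : X ((u : V) - v) = 0 := by rw [map_sub, h1, sub_self]
        exact sub_eq_zero.1 (hXinj _ h2)
      obtain ⟨u, hu⟩ := (LinearMap.injective_iff_surjective.1 hinj) ⟨v, hv⟩
      have h1 : X (u : V) = v := congrArg Subtype.val hu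
      have h2 : Xi v = u := by
        rw [← h1]
        have := DFunLike.congr_fun hE.inv' (u : V)
        simpa using this
      rw [h2]
      exact u.2
    have hWY : ∀ v ∈ Submodule.span K (Set.range e), Y v ∈ Submodule.span K (Set.range e) := by
      intro v hv
      refine Submodule.span_induction ?_ ?_ ?_ ?_ hv
      · rintro _ ⟨i, rfl⟩
        rw [hYe]
        exact Submodule.smul_mem _ _ (hmem _)
      · rw [map_zero]; exact Submodule.zero_mem _
      · intro u v _ _ hu hv
        rw [map_add]; exact Submodule.add_mem _ hu hv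
      · intro t v _ hv
        rw [map_smul]; exact Submodule.smul_mem _ _ hv
    have hWZ : ∀ v ∈ Submodule.span K (Set.range e), Z v ∈ Submodule.span K (Set.range e) := by
      intro v hv
      refine Submodule.span_induction ?_ ?_ ?_ ?_ hv
      · rintro _ ⟨i, rfl⟩
        cases i with
        | zero => rw [hZe0]; exact Submodule.smul_mem _ _ (hmem _)
        | succ i =>
          rw [hZe]
          exact Submodule.sub_mem _ (Submodule.smul_mem _ _ (hmem _))
            (Submodule.smul_mem _ _ (hmem _))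
      · rw [map_zero]; exact Submodule.zero_mem _
      · intro u v _ _ hu hv
        rw [map_add]; exact Submodule.add_mem _ hu hv
      · intro t v _ hv
        rw [map_smul]; exact Submodule.smul_mem _ _ hv
    rcases hI (Submodule.span K (Set.range e))
      (fun v hv => ⟨hWX v hv, hWXi v hv, hWY v hv, hWZ v hv⟩) with h1 | h1
    · exfalso
      have h2 : e 0 ∈ (⊥ : Submodule K V) := h1 ▸ hmem 0
      rw [Submodule.mem_bot, he0] at h2
      exact hw0 h2
    · exact h1
  obtain ⟨hne, hzero⟩ := ladder h.dim Y N e y hyinj (by rw [he0]; exact hw0) hesucc hYe hspan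
  have hcd : c (d + 1) = 0 := by
    have h1 := hMe d
    rw [hzero (d + 1) (by omega), map_zero] at h1
    exact (smul_eq_zero.1 h1.symm).resolve_right (hne d le_rfl)
  have hAe : ∀ i, A (e i) = (a₀ + a₁ * (y i)⁻¹ + a₂ * y i + a₃) • e i +
      (-(a₁ / y i + a₃)) • e (i + 1) := by
    intro i
    have h1 : X (Y (e i)) = e i - e (i + 1) := by
      rw [hesucc, hNdef]
      abel
    rw [hAv, hXe, hYe, ← hYe, h1, hYe, div_eq_mul_inv]
    simp only [smul_sub, smul_smul, neg_smul, add_smul]
    abel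
  have hBe : ∀ i, B (e (i + 1)) = (b₀ + b₁ * y (i + 1) + b₂ * (y (i + 1))⁻¹ + b₃) • e (i + 1) +
      (-(c (i + 1) * (b₂ / y i + b₃))) • e i := by
    intro i
    have h1 : Y (Z (e (i + 1))) = e (i + 1) - c (i + 1) • e i := by
      rw [← hMe i, hMdef]
      abel
    have h2 : -(c (i + 1) * (b₂ / y i + b₃)) = -(b₂ * (c (i + 1) * (y i)⁻¹)) - b₃ * c (i + 1) := by
      rw [div_eq_mul_inv]
      ring
    rw [hBv, h1, hZe, hYe, h2]
    module
  have hBe0 : B (e 0) = (b₀ + b₁ * y 0 + b₂ * (y 0)⁻¹ + b₃) • e 0 := by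
    have h1 : Y (Z (e 0)) = e 0 := by
      have := hMe0
      rw [hMdef, sub_eq_zero] at this
      exact this.symm
    rw [hBv, h1, hZe0, hYe]
    simp only [smul_smul, add_smul]
  refine ⟨e, fun i => a₀ + a₁ * (y i)⁻¹ + a₂ * y i + a₃,
    fun i => b₀ + b₁ * y i + b₂ * (y i)⁻¹ + b₃, y, c, hyne 0, hysucc, hc0, hcsucc, hcd, ?_⟩
  exact
    { ne0 := by rw [he0]; exact hw0
      ned := hne d le_rfl
      A_lt := fun i _ => hAe i
      A_last := by
        rw [hAe d, hzero (d + 1) (by omega), smul_zero, add_zero]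
      B_zero := hBe0
      B_succ := fun i _ => hBe i }

end

end Pool.Agent.R713
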